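import Pool.Agent.Helper2.EV.Mat

/-!
# Block EV-P3: an element of determinant `t²` in the centralizer

Choose a vector `e` with `X e ≠ 0` (`1 ≤ j`). `e`, `X e` are linearly independent (`X X = 0`), so there is a `g` with
`g · (X e) = 1`, `g · e = 0` (a linear functional as a vector; `Pool.Agent.Helper2.RO.sep` in
`Pool/Agent/Helper2/RO/Defs.lean` may be cited or copied). Let `E = vecMulVec e (g ᵥ* X) + vecMulVec (X *ᵥ e) g`. `E X = X E =
vecMulVec (X e) (g X)`, as `X X = 0`. `C = 1 + (t - 1) E` commutes with `X`. `E = P Q` with `P` the `n × 2` matrix with columns `e`, `X e` and `Q`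
the `2 × n` matrix with rows `g X`, `g`; `Q P = 1` (`g X e = 1`, `g X X e = 0`, `g e = 0`), so
`det C = det (1 + (t - 1) Q P) = t²` (`det_one_add_mul_comm`).
-/

set_option autoImplicit false

open Matrix

namespace Pool.Agent.Helper2.EV

variable {K : Type*} [Field K] {ι : Type*} [Fintype ι] [DecidableEq ι]

theorem centr_sep (U : Submodule K (ι → K)) {u : ι → K} (hu : u ∉ U) :
    ∃ g : ι → K, (∀ x ∈ U, g ⬝ᵥ x = 0) ∧ g ⬝ᵥ u = 1 := by
  obtain ⟨f, hf, hfU⟩ := Submodule.exists_le_ker_of_notMem hu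
  have key : ∀ x : ι → K, f x = (fun i => f (Pi.single i 1)) ⬝ᵥ x := by
    intro x
    conv_lhs => rw [pi_eq_sum_univ' x]
    rw [map_sum]
    simp only [map_smul, smul_eq_mul, dotProduct]
    exact Finset.sum_congr rfl fun i _ => by ring
  refine ⟨(f u)⁻¹ • fun i => f (Pi.single i 1), fun x hx => ?_, ?_⟩
  · rw [smul_dotProduct, ← key, LinearMap.mem_ker.1 (hfU hx), smul_zero]
  · rw [smul_dotProduct, ← key, smul_eq_mul, inv_mul_cancel₀ hf]

theorem exists_centr {j : ℕ} (hj : 1 ≤ j) {X : Matrix ι ι K} (hX : X ∈ MSq j) (t : K) :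
    ∃ C : Matrix ι ι K, C * X = X * C ∧ det C = t ^ 2 := by
  have h0 : X ≠ 0 := by
    rintro rfl
    have h1 := hX.2
    rw [Matrix.rank_zero] at h1
    omega
  have h1 : ∃ e : ι → K, X *ᵥ e ≠ 0 := by
    by_contra hcon
    simp only [not_exists, not_not] at hcon
    refine h0 (Matrix.ext_of_mulVec_single fun i => ?_)
    rw [hcon, Matrix.zero_mulVec]
  obtain ⟨e, he⟩ := h1
  have hXX : X *ᵥ (X *ᵥ e) = 0 := by
    rw [Matrix.mulVec_mulVec, hX.1, Matrix.zero_mulVec]
  have h2 : X *ᵥ e ∉ Submodule.span K {e} := by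
    intro h
    obtain ⟨c, hc⟩ := Submodule.mem_span_singleton.1 h
    have h3 : c • (X *ᵥ e) = 0 := by
      rw [← Matrix.mulVec_smul, hc, hXX]
    rcases smul_eq_zero.1 h3 with h4 | h4
    · rw [h4, zero_smul] at hc
      exact he hc.symm
    · exact he h4
  obtain ⟨g, hg1, hg2⟩ := centr_sep _ h2
  have hge : g ⬝ᵥ e = 0 := hg1 e (Submodule.mem_span_singleton_self e)
  let P : Matrix ι (Fin 2) K := Matrix.of fun i k => if k = 0 then e i else (X *ᵥ e) i
  let Q : Matrix (Fin 2) ι K := Matrix.of fun k i => if k = 0 then (g ᵥ* X) i else g i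
  have hPQ : P * Q = vecMulVec e (g ᵥ* X) + vecMulVec (X *ᵥ e) g := by
    ext i l
    simp [P, Q, Matrix.mul_apply, Fin.sum_univ_two, vecMulVec_apply]
  have hQP : Q * P = 1 := by
    have a1 : (g ᵥ* X) ⬝ᵥ e = 1 := by
      rw [← Matrix.dotProduct_mulVec]
      exact hg2
    have a2 : (g ᵥ* X) ⬝ᵥ (X *ᵥ e) = 0 := by
      rw [← Matrix.dotProduct_mulVec, hXX, dotProduct_zero]
    ext k l
    fin_cases k <;> fin_cases l
    · exact a1
    · exact a2
    · exact hge
    · exact hg2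
  refine ⟨1 + (t - 1) • (P * Q), ?_, ?_⟩
  · rw [add_mul, mul_add, one_mul, mul_one, smul_mul_assoc, mul_smul_comm]
    congr 2
    rw [hPQ, add_mul, mul_add, Matrix.vecMulVec_mul, Matrix.vecMulVec_mul,
      Matrix.mul_vecMulVec, Matrix.mul_vecMulVec, hXX, Matrix.vecMul_vecMul, hX.1,
      Matrix.vecMul_zero]
    have z1 : vecMulVec e (0 : ι → K) = 0 := by
      ext i l
      simp [vecMulVec_apply]
    have z2 : vecMulVec (0 : ι → K) g = 0 := by
      ext i l
      simp [vecMulVec_apply]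
    rw [z1, z2, zero_add, add_zero]
  · have h5 : (t - 1) • (P * Q) = P * ((t - 1) • Q) := by
      rw [Matrix.mul_smul]
    rw [h5, Matrix.det_one_add_mul_comm, Matrix.smul_mul, hQP]
    have h6 : (1 : Matrix (Fin 2) (Fin 2) K) + (t - 1) • (1 : Matrix (Fin 2) (Fin 2) K) = t • 1 := by
      rw [sub_smul, one_smul]
      abel
    rw [h6, Matrix.det_smul, Matrix.det_one, Fintype.card_fin, mul_one]

end Pool.Agent.Helper2.EV
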