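import Mathlib

/-!
# Block EV-G: common complements of two subspaces

`common_compl`: induction on the codimension. If it is `0` take `⊥`. Otherwise both are proper subspaces of the same
dimension, so there is a `y` outside both (the union of two proper subspaces is not the whole space, for instance
`y = y₁ + y₂` with `y₁` in `U₁` not in `U₂`, ...). `U₁ + ⟨y⟩`, `U₂ + ⟨y⟩` have the same dimension and by induction a common
complement `C`; `C + ⟨y⟩` is a common complement of `U₁`, `U₂`.
`common_compl_mem`: the same step with the given `y`, and `common_compl` for `U₁ + ⟨y⟩`, `U₂ + ⟨y⟩`.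
`common_compl_in`: `common_compl` in the vector space `L`.
-/

set_option autoImplicit false

namespace Pool.Agent.Helper2.EV

variable {K : Type*} [Field K] {V : Type*} [AddCommGroup V] [Module K V] [FiniteDimensional K V]

omit [FiniteDimensional K V] in
theorem exists_not_mem_two {U₁ U₂ : Submodule K V} (h1 : U₁ ≠ ⊤) (h2 : U₂ ≠ ⊤) :
    ∃ y : V, y ∉ U₁ ∧ y ∉ U₂ := by
  obtain ⟨a, ha⟩ : ∃ a, a ∉ U₁ := by
    by_contra hc
    push Not at hc
    exact h1 (Submodule.eq_top_iff'.2 hc)
  obtain ⟨b, hb⟩ : ∃ b, b ∉ U₂ := by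
    by_contra hc
    push Not at hc
    exact h2 (Submodule.eq_top_iff'.2 hc)
  by_cases ha2 : a ∈ U₂
  · by_cases hb1 : b ∈ U₁
    · refine ⟨a + b, fun h => ha ?_, fun h => hb ?_⟩
      · exact (U₁.add_mem_iff_left hb1).1 h
      · exact (U₂.add_mem_iff_right ha2).1 h
    · exact ⟨b, hb1, hb⟩
  · exact ⟨a, ha, ha2⟩

theorem finrank_sup_span {U : Submodule K V} {y : V} (hy : y ∉ U) :
    Module.finrank K (U ⊔ K ∙ y : Submodule K V) = Module.finrank K U + 1 := by
  have hy0 : y ≠ 0 := by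
    rintro rfl
    exact hy U.zero_mem
  have hd : Disjoint U (K ∙ y) := (Submodule.disjoint_span_singleton' hy0).2 hy
  have h := Submodule.finrank_sup_add_finrank_inf_eq U (K ∙ y)
  rw [hd.eq_bot, finrank_bot, finrank_span_singleton hy0, add_zero] at h
  exact h

omit [FiniteDimensional K V] in
theorem isCompl_step {U C : Submodule K V} {y : V} (hy : y ∉ U) (h : IsCompl (U ⊔ K ∙ y) C) :
    IsCompl U ((K ∙ y) ⊔ C) := by
  have hy0 : y ≠ 0 := by
    rintro rfl
    exact hy U.zero_mem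
  have hd : Disjoint U (K ∙ y) := (Submodule.disjoint_span_singleton' hy0).2 hy
  refine ⟨hd.disjoint_sup_right_of_disjoint_sup_left h.disjoint, ?_⟩
  rw [codisjoint_iff, ← sup_assoc]
  exact h.codisjoint.eq_top

theorem common_compl (U₁ U₂ : Submodule K V)
    (h : Module.finrank K U₁ = Module.finrank K U₂) :
    ∃ C : Submodule K V, IsCompl U₁ C ∧ IsCompl U₂ C := by
  obtain ⟨n, hn⟩ : ∃ n, Module.finrank K V = Module.finrank K U₁ + n :=
    ⟨_, (Nat.add_sub_cancel' (Submodule.finrank_le U₁)).symm⟩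
  induction n generalizing U₁ U₂ with
  | zero =>
    have h1 : U₁ = ⊤ := Submodule.eq_top_of_finrank_eq (by omega)
    have h2 : U₂ = ⊤ := Submodule.eq_top_of_finrank_eq (by omega)
    subst h1
    subst h2
    exact ⟨⊥, isCompl_top_bot, isCompl_top_bot⟩
  | succ n ih =>
    have h1 : U₁ ≠ ⊤ := by
      rintro rfl
      rw [finrank_top] at hn
      omega
    have h2 : U₂ ≠ ⊤ := by
      rintro rfl
      rw [finrank_top] at h
      omega
    obtain ⟨y, hy1, hy2⟩ := exists_not_mem_two h1 h2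
    obtain ⟨C, hC1, hC2⟩ := ih (U₁ ⊔ K ∙ y) (U₂ ⊔ K ∙ y)
      (by rw [finrank_sup_span hy1, finrank_sup_span hy2, h])
      (by rw [finrank_sup_span hy1]; omega)
    exact ⟨(K ∙ y) ⊔ C, isCompl_step hy1 hC1, isCompl_step hy2 hC2⟩

theorem common_compl_mem (U₁ U₂ : Submodule K V)
    (h : Module.finrank K U₁ = Module.finrank K U₂) {y : V} (h1 : y ∉ U₁) (h2 : y ∉ U₂) :
    ∃ C : Submodule K V, y ∈ C ∧ IsCompl U₁ C ∧ IsCompl U₂ C := by
  obtain ⟨C, hC1, hC2⟩ := common_compl (U₁ ⊔ K ∙ y) (U₂ ⊔ K ∙ y)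
    (by rw [finrank_sup_span h1, finrank_sup_span h2, h])
  exact ⟨(K ∙ y) ⊔ C, Submodule.mem_sup_left (Submodule.mem_span_singleton_self y),
    isCompl_step h1 hC1, isCompl_step h2 hC2⟩

theorem common_compl_in (L U₁ U₂ : Submodule K V) (h1 : U₁ ≤ L) (h2 : U₂ ≤ L)
    (h : Module.finrank K U₁ = Module.finrank K U₂) :
    ∃ C : Submodule K V, C ≤ L ∧ Disjoint U₁ C ∧ Disjoint U₂ C ∧ U₁ ⊔ C = L ∧ U₂ ⊔ C = L := by
  have e1 := (Submodule.comapSubtypeEquivOfLe h1).finrank_eq
  have e2 := (Submodule.comapSubtypeEquivOfLe h2).finrank_eq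
  obtain ⟨C, hC1, hC2⟩ := common_compl (Submodule.comap L.subtype U₁) (Submodule.comap L.subtype U₂)
    (by rw [e1, e2, h])
  have key : ∀ U : Submodule K V, U ≤ L → IsCompl (Submodule.comap L.subtype U) C →
      Disjoint U (C.map L.subtype) ∧ U ⊔ C.map L.subtype = L := by
    intro U hU hc
    have hm : (Submodule.comap L.subtype U).map L.subtype = U := by
      rw [Submodule.map_comap_subtype, inf_eq_right.2 hU]
    constructor
    · rw [disjoint_iff]
      rw [← hm, ← Submodule.map_inf _ L.injective_subtype, hc.disjoint.eq_bot, Submodule.map_bot]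
    · nth_rewrite 1 [← hm]
      rw [← Submodule.map_sup, hc.codisjoint.eq_top, Submodule.map_top, Submodule.range_subtype]
  exact ⟨C.map L.subtype, Submodule.map_subtype_le L C, (key U₁ h1 hC1).1, (key U₂ h2 hC2).1,
    (key U₁ h1 hC1).2, (key U₂ h2 hC2).2⟩

end Pool.Agent.Helper2.EV
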