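import Pool.Agent.Helper2.EV.Core

/-!
# Project EV: permutations of `Sq K V j` which preserve the orders of products respect conjugation
-/

set_option autoImplicit false

open LinearMap

namespace Pool.Agent.Helper2.EV

variable {K : Type*} [Field K] {V : Type*} [AddCommGroup V] [Module K V]

theorem perm_pow [CharP K 2] {j : ℕ} (T : Equiv.Perm (Sq K V j))
    (hT : ∀ X Y : Sq K V j, X ≠ Y →
      orderOf ((1 + (T X : Module.End K V)) * (1 + (T Y : Module.End K V))) =
      orderOf ((1 + (X : Module.End K V)) * (1 + (Y : Module.End K V))))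
    (X Y : Sq K V j) (m : ℕ) :
    ((1 + (T X : Module.End K V)) * (1 + (T Y : Module.End K V))) ^ m = 1 ↔
      ((1 + (X : Module.End K V)) * (1 + (Y : Module.End K V))) ^ m = 1 := by
  by_cases h : X = Y
  · subst h
    rw [one_add_sq (T X).2.1, one_add_sq X.2.1]
  · rw [← orderOf_dvd_iff_pow_eq_one, ← orderOf_dvd_iff_pow_eq_one, hT X Y h]

theorem conj_perm [FiniteDimensional K V] [CharP K 2] {j : ℕ} (hj : 1 ≤ j)
    (T : Equiv.Perm (Sq K V j))
    (hT : ∀ X Y : Sq K V j, X ≠ Y →
      orderOf ((1 + (T X : Module.End K V)) * (1 + (T Y : Module.End K V))) =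
      orderOf ((1 + (X : Module.End K V)) * (1 + (Y : Module.End K V))))
    (X Y : Sq K V j) :
    (T ⟨_, conj_one_add_mem X.2.1 Y.2⟩ : Module.End K V) =
      (1 + (T X : Module.End K V)) * (T Y : Module.End K V) * (1 + (T X : Module.End K V)) := by
  classical
  have hpow := perm_pow T hT
  -- the conjugate of `T M` by `T X`
  let c : Sq K V j → Sq K V j := fun M => ⟨_, conj_one_add_mem (T X).2.1 (T M).2⟩
  have hc : ∀ M : Sq K V j, (c M : Module.End K V) =
      (1 + (T X : Module.End K V)) * (T M : Module.End K V) * (1 + (T X : Module.End K V)) :=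
    fun M => rfl
  let ψ : Module.End K V → Module.End K V := fun M =>
    if h : M ∈ Sq K V j then (T.symm (c ⟨M, h⟩) : Module.End K V) else M
  have hψ : ∀ M : Sq K V j, ψ M = (T.symm (c M) : Module.End K V) := by
    intro M
    exact dif_pos M.2
  have hpres : Pres j ψ :=
    { mem := fun M hM => by
        rw [hψ ⟨M, hM⟩]
        exact (T.symm (c ⟨M, hM⟩)).2
      ord := fun N hN M hM m => by
        rw [hψ ⟨N, hN⟩, hψ ⟨M, hM⟩, ← hpow, Equiv.apply_symm_apply, Equiv.apply_symm_apply, hc, hc,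
          conj_pow (T X).2.1, hpow] }
  have hfix : ∀ R ∈ Sq K V j, (X : Module.End K V) * R = R * X → ψ R = R := by
    intro R hR hcomm
    rw [← two X.2.1 hR.1, ← hpow X ⟨R, hR⟩ 2, two (T X).2.1 (T ⟨R, hR⟩).2.1] at hcomm
    have h1 : c ⟨R, hR⟩ = T ⟨R, hR⟩ := by
      apply Subtype.ext
      rw [hc]
      have h2 : (1 + (T X : Module.End K V)) * (T ⟨R, hR⟩ : Module.End K V) =
          (T ⟨R, hR⟩ : Module.End K V) * (1 + (T X : Module.End K V)) := by
        rw [add_mul, mul_add, hcomm, one_mul, mul_one]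
      rw [h2, mul_assoc, one_add_sq (T X).2.1, mul_one]
    rw [hψ ⟨R, hR⟩, h1, Equiv.symm_apply_apply]
  have hS : ∀ M ∈ Sq K V j, Inv (X : Module.End K V) M →
      ((1 + M) * (1 + ψ M)) ^ 3 = 1 ∧ ψ M ≠ M := by
    intro M hM hI
    have hs1 := one_add_sq (T X).2.1
    have hs2 := one_add_sq (T ⟨M, hM⟩).2.1
    have h3 : ((1 + (T ⟨M, hM⟩ : Module.End K V)) * (1 + (T X : Module.End K V))) ^ 3 = 1 :=
      (hpow ⟨M, hM⟩ X 3).2 (three_of_inv hM.1 X.2.1 hI.symm)
    have h1c : 1 + (c ⟨M, hM⟩ : Module.End K V) = (1 + (T X : Module.End K V)) *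
        (1 + (T ⟨M, hM⟩ : Module.End K V)) * (1 + (T X : Module.End K V)) := by
      rw [hc, mul_add (1 + (T X : Module.End K V)) 1, mul_one, add_mul (1 + (T X : Module.End K V))
        _ (1 + (T X : Module.End K V)), hs1]
    constructor
    · rw [hψ ⟨M, hM⟩, ← hpow ⟨M, hM⟩ (T.symm (c ⟨M, hM⟩)) 3, Equiv.apply_symm_apply, h1c]
      have h4 : (1 + (T ⟨M, hM⟩ : Module.End K V)) * ((1 + (T X : Module.End K V)) *
          (1 + (T ⟨M, hM⟩ : Module.End K V)) * (1 + (T X : Module.End K V))) =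
          ((1 + (T ⟨M, hM⟩ : Module.End K V)) * (1 + (T X : Module.End K V))) ^ 2 := by
        rw [pow_two]
        simp only [mul_assoc]
      rw [h4, ← pow_mul, mul_comm 2 3, pow_mul, h3, one_pow]
    · intro h5
      rw [hψ ⟨M, hM⟩] at h5
      have h6 : c ⟨M, hM⟩ = T ⟨M, hM⟩ := by
        have h7 : T.symm (c ⟨M, hM⟩) = ⟨M, hM⟩ := Subtype.ext h5
        rw [← h7, Equiv.apply_symm_apply, h7]
      rw [h6] at h1c
      have h8 : ((1 + (T ⟨M, hM⟩ : Module.End K V)) * (1 + (T X : Module.End K V))) ^ 2 = 1 := by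
        rw [pow_two]
        calc (1 + (T ⟨M, hM⟩ : Module.End K V)) * (1 + (T X : Module.End K V)) *
            ((1 + (T ⟨M, hM⟩ : Module.End K V)) * (1 + (T X : Module.End K V)))
            = (1 + (T ⟨M, hM⟩ : Module.End K V)) * ((1 + (T X : Module.End K V)) *
              (1 + (T ⟨M, hM⟩ : Module.End K V)) * (1 + (T X : Module.End K V))) := by
              simp only [mul_assoc]
          _ = 1 := by rw [← h1c, hs2]
      rw [pow_succ, h8, one_mul] at h3
      have h9 : 1 + (T ⟨M, hM⟩ : Module.End K V) = 1 + (T X : Module.End K V) := by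
        calc 1 + (T ⟨M, hM⟩ : Module.End K V)
            = (1 + (T ⟨M, hM⟩ : Module.End K V)) * ((1 + (T X : Module.End K V)) *
              (1 + (T X : Module.End K V))) := by rw [hs1, mul_one]
          _ = 1 + (T X : Module.End K V) := by rw [← mul_assoc, h3, one_mul]
      have h10 : T ⟨M, hM⟩ = T X := Subtype.ext (add_left_cancel h9)
      have h11 : (⟨M, hM⟩ : Sq K V j) = X := T.injective h10
      have h12 : M = X := congrArg Subtype.val h11
      subst h12
      have h13 := hI.1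
      rw [X.2.1, zero_mul] at h13
      exact ne_zero_of_mem hj X.2 h13.symm
  have hcore := core hj hpres X.2 hfix hS Y Y.2
  rw [hψ] at hcore
  have h1 : T.symm (c Y) = ⟨_, conj_one_add_mem X.2.1 Y.2⟩ := Subtype.ext hcore
  rw [← h1, Equiv.apply_symm_apply, hc]

end Pool.Agent.Helper2.EV
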