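import Pool.Agent.Helper2.EV.StA

/-!
# Block EV-B3: elements opposite to `N`, step 1, kernels

`ψ` is `Pres j` and fixes all `R` in `Sq K V j` commuting with `N`, for instance all `R` with the image of `N` and all `R`
with the kernel of `N` (`mul_of_range`, `mul_of_ker`). Let `Opp N M`, `M₁ = ψ M`, `W = range N`. By `opp_inv` there is a `G`
with kernel and image of `N` and `Inv G M`; `Opp N M₁` by `opp_fix` and `Inv G M₁` by `inv_fix`.
`ker_mem`: let `N x = M x = 0`. Choose a functional `g ≠ 0` which vanishes on `ker N`, `S = g(·) x`, `R = G + S`. Then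
`ker R = ker N` (`G v + g(v) x = 0`: `W` and `x` are independent or `x = 0`, because `W ∩ ker M = 0`), `R² = 0`, so `R` is in
`Sq K V j`; `Inv R M`: `M G v - v` is in `ker G = ker N`, so `R M R v = R M G v = G v + g(M G v) x = R v`; `M R M = M G M`.
So `Inv R M₁`, and `M₁ R v - v`, `M₁ G v - v` are in `ker N` for all `v`; subtract: `g(v) M₁ x` is in `ker N`, and in
`range M₁`, so it is `0` (`Opp N M₁`); take `g(v) = 1`.
-/

set_option autoImplicit false

open LinearMap

namespace Pool.Agent.Helper2.EV

variable {K : Type*} [Field K] {V : Type*} [AddCommGroup V] [Module K V] [FiniteDimensional K V]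

theorem ker_mem [CharP K 2] {j : ℕ} (hj : 1 ≤ j) {ψ : Module.End K V → Module.End K V}
    (hψ : Pres j ψ) {N : Module.End K V} (hN : N ∈ Sq K V j)
    (hfix : ∀ R ∈ Sq K V j, N * R = R * N → ψ R = R)
    {M : Module.End K V} (hM : M ∈ Sq K V j) (h : Opp N M) :
    ∀ x, N x = 0 → M x = 0 → ψ M x = 0 := by
  intro x hNx hMx
  obtain ⟨G, hG, hkG, hrG, hInv⟩ := opp_inv hN hM h
  -- everything with the kernel of `N` is fixed
  have hfixk : ∀ A ∈ Sq K V j, ker A = ker N → ψ A = A := by
    intro A hA hk
    obtain ⟨h1, h2⟩ := mul_of_ker hN hA hk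
    exact hfix A hA (by rw [h1, h2])
  have hOpp1 : Opp N (ψ M) :=
    (opp_fix hj hψ hN (fun A hA hk _ => hfixk A hA hk) hM).2 h
  have hInvG : Inv G (ψ M) :=
    (inv_fix hj hψ hG (fun A hA hk _ => hfixk A hA (hk.trans hkG)) hM).2 hInv
  -- a functional
  have hlt : ker N < ⊤ := by
    rw [lt_top_iff_ne_top]
    intro htop
    have h0 : N = 0 := LinearMap.ker_eq_top.1 htop
    have h1 := hN.2
    rw [h0, LinearMap.range_zero, finrank_bot] at h1
    omega
  obtain ⟨g, hg0, hgk⟩ := Submodule.exists_le_ker_of_lt_top (ker N) hlt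
  obtain ⟨v0, hv0⟩ : ∃ v, g v ≠ 0 := by
    by_contra hc
    push Not at hc
    exact hg0 (LinearMap.ext hc)
  obtain ⟨S, hS⟩ : ∃ S : Module.End K V, ∀ v, S v = g v • x :=
    ⟨(LinearMap.toSpanSingleton K V x) ∘ₗ g, fun v => rfl⟩
  have hRv : ∀ v, (G + S) v = G v + g v • x := fun v => by
    rw [LinearMap.add_apply, hS]
  have hGN : ∀ v, N v = 0 → G v = 0 := fun v hv => by
    have : v ∈ ker G := by rw [hkG]; exact hv
    exact this
  have hNG : ∀ v, G v = 0 → N v = 0 := fun v hv => by
    have : v ∈ ker N := by rw [← hkG]; exact hv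
    exact this
  have hgN : ∀ v, N v = 0 → g v = 0 := fun v hv => hgk hv
  have hGr : ∀ v, G v ∈ range N := fun v => by rw [← hrG]; exact ⟨v, rfl⟩
  have hkR : ker (G + S) = ker N := by
    ext v
    rw [LinearMap.mem_ker, LinearMap.mem_ker, hRv]
    constructor
    · intro h0
      have h1 : M (G v + g v • x) = 0 := by rw [h0, map_zero]
      rw [map_add, map_smul, hMx, smul_zero, add_zero] at h1
      exact hNG v (Submodule.disjoint_def.1 h.2 _ (hGr v) h1)
    · intro h0
      rw [hGN v h0, hgN v h0, zero_smul, add_zero]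
  have hRN : ∀ v, N ((G + S) v) = 0 := by
    intro v
    rw [hRv, map_add, map_smul, hNx, smul_zero, add_zero]
    exact range_le_ker hN (hGr v)
  have hRsq : (G + S) * (G + S) = 0 := by
    ext v
    have h1 : (G + S) v ∈ ker (G + S) := by rw [hkR]; exact hRN v
    exact h1
  have hR : G + S ∈ Sq K V j := by
    refine ⟨hRsq, ?_⟩
    have h1 := LinearMap.finrank_range_add_finrank_ker (G + S)
    have h2 := LinearMap.finrank_range_add_finrank_ker N
    rw [hkR] at h1
    have h3 := hN.2
    omega
  have hInvR : Inv (G + S) M := by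
    constructor
    · ext v
      show (G + S) (M ((G + S) v)) = (G + S) v
      rw [hRv v, map_add, map_smul, hMx, smul_zero, add_zero, hRv]
      have h1 : G (M (G v)) = G v := LinearMap.congr_fun hInv.1 v
      have h2 : g (M (G v)) = g v := by
        have h3 : N (M (G v) - v) = 0 := hNG _ (by rw [map_sub, h1, sub_self])
        have h4 := hgN _ h3
        rw [map_sub] at h4
        exact sub_eq_zero.1 h4
      rw [h1, h2]
    · ext v
      show M ((G + S) (M v)) = M v
      rw [hRv, map_add, map_smul, hMx, smul_zero, add_zero]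
      exact LinearMap.congr_fun hInv.2 v
  have hInvR1 : Inv (G + S) (ψ M) :=
    (inv_fix hj hψ hR (fun A hA hk _ => hfixk A hA (hk.trans hkR)) hM).2 hInvR
  -- the conclusion
  have key : ∀ v, N (g v • ψ M x) = 0 := by
    intro v
    have h1 : (G + S) (ψ M ((G + S) v)) = (G + S) v := LinearMap.congr_fun hInvR1.1 v
    have h2 : N (ψ M ((G + S) v) - v) = 0 := by
      have : ψ M ((G + S) v) - v ∈ ker (G + S) := by
        rw [LinearMap.mem_ker, map_sub, h1, sub_self]
      rw [hkR] at this
      exact this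
    have h3 : G (ψ M (G v)) = G v := LinearMap.congr_fun hInvG.1 v
    have h4 : N (ψ M (G v) - v) = 0 := hNG _ (by rw [map_sub, h3, sub_self])
    have h5 : g v • ψ M x = (ψ M ((G + S) v) - v) - (ψ M (G v) - v) := by
      rw [hRv v, map_add, map_smul]
      abel
    rw [h5, map_sub, h2, h4, sub_zero]
  have h6 : N (ψ M x) = 0 := by
    have h7 := key v0
    rw [map_smul] at h7
    exact (smul_eq_zero.1 h7).resolve_left hv0
  exact Submodule.disjoint_def.1 hOpp1.1 _ ⟨x, rfl⟩ h6

end Pool.Agent.Helper2.EV
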