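import Pool.Agent.Helper2.EV.Defs

/-!
# Block EV-A3: opposite elements and inverse elements

`opp_inv`: `B = N M` restricted to `W = range N` is an automorphism of `W` (`M` is injective on `range N`, `N` is injective
on `range M`, both by `Opp`); put `G = B⁻¹ N`. Then `ker G = ker N`, `range G = W`, `G G = 0` and
`G M w = w` for `w` in `W`, so `G M G = G`; and `range M = M W`, so for `M x = M w`: `M G M x = M G M w = M w = M x`.
-/

set_option autoImplicit false

open LinearMap

namespace Pool.Agent.Helper2.EV

variable {K : Type*} [Field K]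

variable {V : Type*} [AddCommGroup V] [Module K V] [FiniteDimensional K V]

theorem opp_inv {j : ℕ} {N M : Module.End K V} (hN : N ∈ Sq K V j) (hM : M ∈ Sq K V j)
    (h : Opp N M) : ∃ G ∈ Sq K V j, ker G = ker N ∧ range G = range N ∧ Inv G M := by
  classical
  -- `M` is injective on `range N`
  have hMi : ∀ w ∈ range N, M w = 0 → w = 0 := by
    intro w hw h0
    exact (Submodule.disjoint_def.1 h.2) w hw h0
  have hNi : ∀ w ∈ range M, N w = 0 → w = 0 := by
    intro w hw h0
    exact (Submodule.disjoint_def.1 h.1) w hw h0
  let B : range N →ₗ[K] range N := N.rangeRestrict ∘ₗ M ∘ₗ (range N).subtype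
  have hB : ∀ w : range N, ((B w : range N) : V) = N (M w) := fun w => rfl
  have hBi : Function.Injective B := by
    rw [← LinearMap.ker_eq_bot, LinearMap.ker_eq_bot']
    intro w hw
    have h1 : N (M w) = 0 := by rw [← hB, hw]; rfl
    have h2 : M (w : V) = 0 := hNi _ ⟨w, rfl⟩ h1
    exact Subtype.ext (hMi _ w.2 h2)
  let e : range N ≃ₗ[K] range N := LinearEquiv.ofInjectiveEndo B hBi
  have he : ∀ w : range N, ((e w : range N) : V) = N (M w) := by
    intro w
    have : e w = B w := by simp [e]
    rw [this, hB]
  let G : Module.End K V := (range N).subtype ∘ₗ e.symm.toLinearMap ∘ₗ N.rangeRestrict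
  have hG : ∀ x, G x = ((e.symm (N.rangeRestrict x) : range N) : V) := fun x => rfl
  have hGr : ∀ x, G x ∈ range N := fun x => by rw [hG]; exact (e.symm (N.rangeRestrict x)).2
  have hkG : ker G = ker N := by
    ext x
    rw [LinearMap.mem_ker, LinearMap.mem_ker, hG]
    constructor
    · intro h0
      have h1 : e.symm (N.rangeRestrict x) = 0 := Subtype.ext h0
      have h2 : N.rangeRestrict x = 0 := by
        rw [← e.apply_symm_apply (N.rangeRestrict x), h1, map_zero]
      have h3 : ((N.rangeRestrict x : range N) : V) = N x := rfl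
      rw [← h3, h2]; rfl
    · intro h0
      have h2 : N.rangeRestrict x = 0 := Subtype.ext h0
      rw [h2, map_zero]; rfl
  have hGM : ∀ w ∈ range N, G (M w) = w := by
    intro w hw
    rw [hG]
    have h1 : N.rangeRestrict (M w) = e ⟨w, hw⟩ := by
      apply Subtype.ext
      rw [he]; rfl
    rw [h1, e.symm_apply_apply]
  have hrG : range G = range N := by
    apply le_antisymm
    · rintro _ ⟨x, rfl⟩
      exact hGr x
    · intro w hw
      exact ⟨M w, hGM w hw⟩
  have hGG : G * G = 0 := by
    ext x
    have h1 : G x ∈ ker N := range_le_ker hN (hGr x)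
    rw [← hkG] at h1
    exact h1
  have hmap : Submodule.map M (range N) = range M := by
    apply Submodule.eq_of_le_of_finrank_eq
    · rintro _ ⟨x, _, rfl⟩
      exact ⟨x, rfl⟩
    · have h1 : Module.finrank K (Submodule.map M (range N)) = Module.finrank K (range N) := by
        let f : range N →ₗ[K] V := M ∘ₗ (range N).subtype
        have hf : Function.Injective f := by
          rw [← LinearMap.ker_eq_bot, LinearMap.ker_eq_bot']
          intro w hw
          exact Subtype.ext (hMi _ w.2 hw)
        have h2 : Submodule.map M (range N) = range f := by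
          rw [LinearMap.range_comp, Submodule.range_subtype]
        rw [h2]
        exact LinearMap.finrank_range_of_inj hf
      rw [h1, hN.2, hM.2]
  refine ⟨G, ⟨hGG, by rw [hrG, hN.2]⟩, hkG, hrG, ?_, ?_⟩
  · ext x
    show G (M (G x)) = G x
    exact hGM _ (hGr x)
  · ext x
    show M (G (M x)) = M x
    have h1 : M x ∈ Submodule.map M (range N) := by rw [hmap]; exact ⟨x, rfl⟩
    obtain ⟨w, hw, hwx⟩ := h1
    rw [← hwx, hGM w hw]

end Pool.Agent.Helper2.EV
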