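import Pool.Agent.Helper2.EV.Defs
import Pool.Agent.Helper2.EV.OppI

/-!
# Block EV-C: elements opposite to `N`, step 1, conclusion

`form`: let `W = range N`, `K₀ = ker N`, `G` (`opp_inv`) with kernel `K₀`, image `W`, `Inv G M`; put `R = (M₁ - M) G`. It kills
`K₀` and maps into `W` (`G` maps onto `W`). `V = W ⊕ F ⊕ M W` with `F = K₀ ∩ ker M`: a vector `x` is `M G x + (x - M G x)` with
`x - M G x` in `K₀`, and for `y` in `K₀`, `y = w + (y - w)` where `w` in `W` has `M w = M y` (`M W = range M`). Check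
`M₁ = (1 + R) M (1 + R)` on the three parts (`R R = 0`, as `W ≤ K₀`): on `w` in `W`: `(1 + R) M w = M w + (M₁ - M) G M w =
M₁ w` (`G M w = w`). On `F`: both are `0`. On `M w`: `(1 + R) M (M w + (M₁ - M) w) = (1 + R) M ((M₁ - M) w) = M₁ ((M₁ - M) w)` by the
first case (`(M₁ - M) w` is in `W`) `= - M₁ M w = M₁ M w` (characteristic two).
-/

set_option autoImplicit false

open LinearMap

namespace Pool.Agent.Helper2.EV

variable {K : Type*} [Field K] {V : Type*} [AddCommGroup V] [Module K V] [FiniteDimensional K V]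

theorem form [CharP K 2] {j : ℕ} {N M M₁ : Module.End K V} (hN : N ∈ Sq K V j)
    (hM : M ∈ Sq K V j) (hM₁ : M₁ ∈ Sq K V j) (h : Opp N M)
    (h1 : ∀ w ∈ range N, M₁ w - M w ∈ range N) (h2 : ∀ x, N x = 0 → M x = 0 → M₁ x = 0) :
    ∃ R : Module.End K V, U N R ∧ M₁ = (1 + R) * M * (1 + R) := by
  obtain ⟨G, hG, hk, hr, hi1, hi2⟩ := opp_inv hN hM h
  have hkG : ∀ x, N x = 0 → G x = 0 := fun x hx => by
    have : x ∈ ker G := by rw [hk]; exact hx
    exact this
  have hkN : ∀ x, G x = 0 → N x = 0 := fun x hx => by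
    have : x ∈ ker N := by rw [← hk]; exact hx
    exact this
  have hrG : ∀ x, G x ∈ range N := fun x => by rw [← hr]; exact ⟨x, rfl⟩
  have hGM : ∀ x, G (M (G x)) = G x := fun x => LinearMap.congr_fun hi1 x
  have hMG : ∀ x, M (G (M x)) = M x := fun x => LinearMap.congr_fun hi2 x
  have hfix : ∀ w ∈ range N, G (M w) = w := by
    intro w hw
    rw [← hr] at hw
    obtain ⟨v, rfl⟩ := hw
    exact hGM v
  have hG0 : ∀ w ∈ range N, G w = 0 := fun w hw => hkG w (range_le_ker hN hw)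
  have hM2 : ∀ x, M (M x) = 0 := sq_apply hM
  have hM12 : ∀ x, M₁ (M₁ x) = 0 := sq_apply hM₁
  obtain ⟨R, hR⟩ : ∃ R : Module.End K V, R = (M₁ - M) * G := ⟨_, rfl⟩
  have hRx : ∀ x, R x = M₁ (G x) - M (G x) := fun x => by rw [hR]; rfl
  have hE : ∀ x, ((1 + R) * M * (1 + R)) x = M (x + R x) + R (M (x + R x)) := fun x => rfl
  have c1 : ∀ w ∈ range N, ((1 + R) * M * (1 + R)) w = M₁ w := by
    intro w hw
    have h3 : R w = 0 := by rw [hRx, hG0 w hw, map_zero, map_zero, sub_zero]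
    rw [hE, h3, add_zero, hRx, hfix w hw]
    abel
  have c2 : ∀ y, N y = 0 → M y = 0 → ((1 + R) * M * (1 + R)) y = M₁ y := by
    intro y hy hy'
    have h3 : R y = 0 := by rw [hRx, hkG y hy, map_zero, map_zero, sub_zero]
    rw [hE, h3, add_zero, hy', map_zero, add_zero, h2 y hy hy']
  have c3 : ∀ w ∈ range N, ((1 + R) * M * (1 + R)) (M w) = M₁ (M w) := by
    intro w hw
    have h3 : R (M w) = M₁ w - M w := by rw [hRx, hfix w hw]
    have h4 : R (M₁ w - M w) = 0 := by rw [hRx, hG0 _ (h1 w hw), map_zero, map_zero, sub_zero]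
    have h5 := c1 _ (h1 w hw)
    rw [hE, h4, add_zero] at h5
    rw [hE, h3, map_add, hM2, zero_add, h5, map_sub, hM12, zero_sub]
    have h6 : M₁ (M w) + M₁ (M w) = 0 := by
      rw [← two_smul K, CharTwo.two_eq_zero, zero_smul]
    exact neg_eq_of_add_eq_zero_left h6
  refine ⟨R, ⟨fun x hx => ?_, ?_⟩, ?_⟩
  · change R x = 0
    rw [hRx, hkG x hx, map_zero, map_zero, sub_zero]
  · rintro _ ⟨x, rfl⟩
    rw [hRx]
    exact h1 _ (hrG x)
  · ext x
    have h3 : x = M (G x) + (G (M (x - M (G x))) + (x - M (G x) - G (M (x - M (G x))))) := by abel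
    have h4 : G (x - M (G x)) = 0 := by rw [map_sub, hGM, sub_self]
    have h5 : N (x - M (G x) - G (M (x - M (G x)))) = 0 := by
      rw [map_sub, hkN _ h4, zero_sub, neg_eq_zero]
      exact range_le_ker hN (hrG _)
    have h6 : M (x - M (G x) - G (M (x - M (G x)))) = 0 := by
      rw [map_sub M (x - M (G x)), hMG, sub_self]
    rw [h3, map_add, map_add, map_add, map_add, c3 _ (hrG x), c1 _ (hrG _), c2 _ h5 h6]

end Pool.Agent.Helper2.EV
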