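import Pool.Agent.Helper2.EV.StC

/-!
# Block EV-D2: elements inverse to `N`, step 2, conclusion

`step_two`: by `eig`, `A v` is in the span of `v` for all `v` in `W` (otherwise there is a functional with `f v = 0`,
`f (A v) = 1`), where `A = R M`, so `A = lam` on `W` (a linear map for which all vectors are eigenvectors is a scalar), and
`R x = R M N x = A (N x) = lam N x`.
-/

set_option autoImplicit false

open LinearMap

namespace Pool.Agent.Helper2.EV

variable {K : Type*} [Field K] {V : Type*} [AddCommGroup V] [Module K V] [FiniteDimensional K V]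

theorem step_two [CharP K 2] {j : ℕ} {N M R : Module.End K V} (hN : N ∈ Sq K V j)
    (hM : M ∈ Sq K V j) (hI : Inv N M) (hR : U N R)
    (h : ∀ X ∈ Sq K V j, N * X = X * N → ((1 + X) * (1 + M)) ^ 3 = 1 →
      ((1 + X) * (1 + (1 + R) * M * (1 + R))) ^ 3 = 1) :
    ∃ lam : K, R = lam • N := by
  -- every vector of `W` is an eigenvector
  have key : ∀ v ∈ range N, ∃ c : K, R (M v) = c • v := by
    intro v hv
    by_cases hv0 : v = 0
    · exact ⟨0, by rw [hv0, map_zero, map_zero, smul_zero]⟩
    by_cases hmem : R (M v) ∈ Submodule.span K {v}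
    · obtain ⟨c, hc⟩ := Submodule.mem_span_singleton.1 hmem
      exact ⟨c, hc.symm⟩
    · exfalso
      obtain ⟨f, hf, hf'⟩ := Submodule.exists_dual_map_eq_bot_of_notMem hmem inferInstance
      have hfv : f v = 0 := by
        have h1 : f v ∈ Submodule.map f (Submodule.span K {v}) :=
          Submodule.mem_map_of_mem (Submodule.mem_span_singleton_self v)
        rw [hf'] at h1
        exact (Submodule.mem_bot K).1 h1
      rcases smul_eq_zero.1 (eig hN hM hI hR h hv f hfv) with h1 | h1
      · exact hf h1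
      · exact hv0 h1
  have hNMN : ∀ x, N (M (N x)) = N x := fun x => LinearMap.congr_fun hI.1 x
  have hRx : ∀ x, R x = R (M (N x)) := by
    intro x
    have h1 : x - M (N x) ∈ ker N := by
      rw [LinearMap.mem_ker, map_sub, hNMN, sub_self]
    have h2 : R (x - M (N x)) = 0 := hR.1 h1
    rwa [map_sub, sub_eq_zero] at h2
  by_cases hN0 : ∀ x, N x = 0
  · refine ⟨0, ?_⟩
    ext x
    rw [hRx x, hN0 x, map_zero, map_zero, zero_smul, LinearMap.zero_apply]
  push Not at hN0
  obtain ⟨x0, hx0⟩ := hN0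
  obtain ⟨c0, hc0⟩ := key (N x0) ⟨x0, rfl⟩
  refine ⟨c0, ?_⟩
  ext x
  rw [hRx x, LinearMap.smul_apply]
  obtain ⟨c, hc⟩ := key (N x) ⟨x, rfl⟩
  obtain ⟨c', hc'⟩ := key (N (x + x0)) ⟨x + x0, rfl⟩
  have h3 : (c' - c) • N x + (c' - c0) • N x0 = 0 := by
    rw [map_add, map_add, map_add, hc, hc0] at hc'
    rw [sub_smul, sub_smul, sub_add_sub_comm, ← smul_add, ← hc', sub_self]
  by_cases h4 : c' - c = 0
  · rw [h4, zero_smul, zero_add] at h3
    rcases smul_eq_zero.1 h3 with h5 | h5
    · rw [hc, ← sub_eq_zero.1 h4, sub_eq_zero.1 h5]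
    · exact absurd h5 hx0
  · have h5 : N x = (-((c' - c)⁻¹ * (c' - c0))) • N x0 := by
      have h6 : (c' - c)⁻¹ • ((c' - c) • N x + (c' - c0) • N x0) = 0 := by rw [h3, smul_zero]
      rw [smul_add, smul_smul, smul_smul, inv_mul_cancel₀ h4, one_smul] at h6
      rw [neg_smul]
      exact eq_neg_of_add_eq_zero_left h6
    rw [h5, map_smul, map_smul, hc0, smul_comm]

end Pool.Agent.Helper2.EV
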