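import Pool.Agent.Helper2.EV.Ord

/-!
# Block EV-E: elements inverse to `N`, step 3

Let `z = N M + M N`; `z` commutes with `N`, `M`, `z M = M`, `z N = N`, `z z = z`. `M₁ = (1 + lam N) M (1 + lam N) = M + lam z + lam² N`,
`M M₁ + M₁ M = lam² z` (characteristic two), `m = M + M₁ + M M₁ = lam z + lam² N + lam M + lam² M N`, `z m = m`.
By `three` `(1 + lam² z) m = 0`, so `(1 + lam²) m = 0`. If `lam = 0` then `M₁ = M`. If `lam ≠ 0` then `m ≠ 0`: `N m N = lam N ≠ 0`. So
`1 + lam² = 0`, `(1 + lam)² = 0`, `lam = 1`.
-/

set_option autoImplicit false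

open LinearMap

namespace Pool.Agent.Helper2.EV

variable {K : Type*} [Field K] {V : Type*} [AddCommGroup V] [Module K V]

theorem step_three [CharP K 2] {N M : Module.End K V} (hN : N * N = 0) (hM : M * M = 0)
    (hI : Inv N M) (hN0 : N ≠ 0) {lam : K}
    (h3 : ((1 + M) * (1 + (1 + lam • N) * M * (1 + lam • N))) ^ 3 = 1)
    (hne : (1 + lam • N) * M * (1 + lam • N) ≠ M) : lam = 1 := by
  have h2 : ∀ X : Module.End K V, X + X = 0 := by
    intro X
    have h : (2 : K) • X = 0 := by rw [CharTwo.two_eq_zero, zero_smul]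
    rwa [two_smul] at h
  obtain ⟨hNMN, hMNM⟩ := hI
  have hM1 : (1 + lam • N) * M * (1 + lam • N) = M + lam • (N * M + M * N) + (lam * lam) • N := by
    simp only [add_mul, mul_add, one_mul, mul_one, smul_mul_assoc, mul_smul_comm, smul_smul, hNMN]
    module
  rw [hM1] at h3 hne
  have hlam : lam ≠ 0 := by
    rintro rfl
    apply hne
    simp
  have e1 : M * (N * M) = M := by rw [← mul_assoc, hMNM]
  have e2 : N * (M * N) = N := by rw [← mul_assoc, hNMN]
  have e3 : ∀ X : Module.End K V, N * (N * X) = 0 := fun X => by rw [← mul_assoc, hN, zero_mul]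
  have e4 : ∀ X : Module.End K V, M * (M * X) = 0 := fun X => by rw [← mul_assoc, hM, zero_mul]
  have e5 : ∀ X : Module.End K V, M * (N * (M * X)) = M * X := fun X => by
    rw [← mul_assoc, ← mul_assoc, hMNM]
  have e6 : ∀ X : Module.End K V, N * (M * (N * X)) = N * X := fun X => by
    rw [← mul_assoc, ← mul_assoc, hNMN]
  have hzM : (N * M + M * N) * M = M := by
    rw [add_mul, mul_assoc, hM, mul_zero, zero_add, hMNM]
  have hMz : M * (N * M + M * N) = M := by
    rw [mul_add, e1, e4, add_zero]
  have hzN : (N * M + M * N) * N = N := by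
    rw [add_mul, hNMN, mul_assoc, hN, mul_zero, add_zero]
  have hNz : N * (N * M + M * N) = N := by
    rw [mul_add, e2, e3, zero_add]
  have hzz : (N * M + M * N) * (N * M + M * N) = N * M + M * N := by
    rw [mul_add, ← mul_assoc, hzN, ← mul_assoc, hzM]
  generalize hz : N * M + M * N = z at *
  have hsq : (M + lam • z + (lam * lam) • N) * (M + lam • z + (lam * lam) • N) = 0 := by
    have h4 : (M + lam • z + (lam * lam) • N) * (M + lam • z + (lam * lam) • N) =
        lam • (M + M) + (lam * lam) • (z + (N * M + M * N)) + (lam * (lam * lam)) • (N + N) := by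
      simp only [add_mul, mul_add, smul_mul_assoc, mul_smul_comm, smul_smul, hM, hN, hzM, hMz, hzN,
        hNz, hzz]
      module
    rw [h4, hz, h2, h2, h2, smul_zero, smul_zero, smul_zero, add_zero, add_zero]
  have h5 := (three hM hsq).1 h3
  have h6 : M * (M + lam • z + (lam * lam) • N) = lam • M + (lam * lam) • (M * N) := by
    rw [mul_add, mul_add, hM, mul_smul_comm, mul_smul_comm, hMz, zero_add]
  have h7 : (M + lam • z + (lam * lam) • N) * M = lam • M + (lam * lam) • (N * M) := by
    rw [add_mul, add_mul, hM, smul_mul_assoc, smul_mul_assoc, hzM, zero_add]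
  have h8 : lam • M + (lam * lam) • (M * N) + (lam • M + (lam * lam) • (N * M)) =
      (lam * lam) • z := by
    have h9 : lam • M + (lam * lam) • (M * N) + (lam • M + (lam * lam) • (N * M)) =
        lam • (M + M) + (lam * lam) • (N * M + M * N) := by module
    rw [h9, h2, hz, smul_zero, zero_add]
  have h10 : M + (M + lam • z + (lam * lam) • N) + (lam • M + (lam * lam) • (M * N)) =
      lam • z + (lam * lam) • N + (lam • M + (lam * lam) • (M * N)) := by
    have h11 : M + (M + lam • z + (lam * lam) • N) + (lam • M + (lam * lam) • (M * N)) =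
        (M + M) + (lam • z + (lam * lam) • N + (lam • M + (lam * lam) • (M * N))) := by abel
    rw [h11, h2, zero_add]
  rw [h6, h7, h8, h10] at h5
  have h12 : (1 + (lam * lam) • z) * (lam • z + (lam * lam) • N +
      (lam • M + (lam * lam) • (M * N))) = (1 + lam * lam) • (lam • z + (lam * lam) • N +
      (lam • M + (lam * lam) • (M * N))) := by
    have h13 : z * (M * N) = M * N := by rw [← mul_assoc, hzM]
    simp only [add_mul, mul_add, one_mul, smul_mul_assoc, mul_smul_comm, smul_smul, hzM, hzN, hzz,
      h13]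
    module
  rw [h12] at h5
  have h14 : N * (lam • z + (lam * lam) • N + (lam • M + (lam * lam) • (M * N))) * N =
      lam • N := by
    simp only [add_mul, mul_add, smul_mul_assoc, mul_smul_comm, hNz, hN, e2, hNMN, smul_zero,
      zero_add, add_zero]
  have h15 : ((1 + lam * lam) * lam) • N = 0 := by
    rw [mul_smul, ← h14, ← smul_mul_assoc, ← mul_smul_comm, h5, mul_zero, zero_mul]
  have h16 : (1 + lam * lam) * lam = 0 := by
    rcases smul_eq_zero.1 h15 with h | h
    · exact h
    · exact absurd h hN0
  have h17 : 1 + lam * lam = 0 := by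
    rcases mul_eq_zero.1 h16 with h | h
    · exact h
    · exact absurd h hlam
  have h18 : (lam + 1) * (lam + 1) = 0 := by
    have h19 : (lam + 1) * (lam + 1) = 1 + lam * lam + 2 * lam := by ring
    rw [h19, h17, CharTwo.two_eq_zero, zero_mul, add_zero]
  have h20 : lam + 1 = 0 := mul_self_eq_zero.1 h18
  exact CharTwo.add_eq_zero.1 h20

end Pool.Agent.Helper2.EV
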