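import Pool.Agent.Helper2.EV.StE1
import Pool.Agent.Helper2.EV.OppI

/-!
# Block EV-F2: elements opposite to `N`, step 4

Let `M₁ = (1 + R) M (1 + R)`. By `opp_inv` (for `M`, `N`) there is an `L` in `Sq K V j` with the kernel and the image of `M`
and `Inv N L`. Relations: `L M = M L = 0` (`mul_of_range`), `M = L N M` (`L N` is the identity on `range L = range M`), `M = M N L`
(`x - N L x` is in `ker L = ker M`), `R = R L N`, `N L R = R`, `N R = R N = 0`.
`step_four`: suppose `R ≠ 0`. `N M` is injective on `range N` (`Opp`). Choose `x` with `R x ≠ 0`, `w = N x`: `R L w = R x ≠ 0`,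
`u = N M R L w ≠ 0` in `range N`. `u` is not in the span of `w`: `u = c w` gives `c ≠ 0` and `c R L w = R L u = R L N M R L w =
R M R L w = 0`. Choose a functional `h` with `h w = 0`, `h u = 1` and let `C` be `x ↦ h(x) w`. `C C = 0`, `N C = 0`, `N L C = C`.
`M' = (1 + C N) L (1 + C N)`; `(1 + C N)² = 1`, so `M'` is a conjugate of `L`, in `Sq K V j`; `Inv N M'`: `(1 + C N) N = N = N (1 + C N)`.
`M M' = M C N L (1 + C N)` has square `0`: `L (1 + C N) M = L C N M`, and `C (N L C) = C C = 0`. So `M₁ M'` is nilpotent by `hn`.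
But `M₁ M' (L u) = L u`, `L u ≠ 0` (`N L u = u`): `M' L u = (1 + C N) L (L u + w) = L w`, and
`M₁ L w = (1 + R) M R L w = (1 + R) L N M R L w = (1 + R) L u = L u + R M R L w = L u`. A contradiction.
-/

set_option autoImplicit false

open LinearMap

namespace Pool.Agent.Helper2.EV

variable {K : Type*} [Field K] {V : Type*} [AddCommGroup V] [Module K V] [FiniteDimensional K V]

/-- Conjugates are again in `Sq K V j`. -/
private theorem conj_mem67 {j : ℕ} {A B X : Module.End K V} (hBA : B * A = 1) (hAB : A * B = 1)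
    (hX : X ∈ Sq K V j) : A * X * B ∈ Sq K V j := by
  constructor
  · have h1 : A * X * B * (A * X * B) = A * (X * (B * A) * X) * B := by noncomm_ring
    rw [h1, hBA, mul_one, hX.1, mul_zero, zero_mul]
  · let e : V ≃ₗ[K] V := LinearEquiv.ofLinearMap A B hAB hBA
    have h1 : range (A * X * B) = (range X).map (e : V →ₗ[K] V) := by
      ext y
      constructor
      · rintro ⟨x, rfl⟩
        exact ⟨X (B x), ⟨B x, rfl⟩, rfl⟩
      · rintro ⟨_, ⟨x, rfl⟩, rfl⟩
        refine ⟨A x, ?_⟩
        show A (X (B (A x))) = A (X x)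
        have : B (A x) = x := LinearMap.congr_fun hBA x
        rw [this]
    rw [h1, LinearEquiv.finrank_map_eq]
    exact hX.2

private theorem two67 [CharP K 2] (E : Module.End K V) : E + E = 0 := by
  ext x
  have : (2 : K) = 0 := CharP.cast_eq_zero K 2
  show E x + E x = 0
  rw [← two_smul K, this, zero_smul]

theorem step_four [CharP K 2] {j : ℕ} {N M R : Module.End K V} (hN : N ∈ Sq K V j)
    (hM : M ∈ Sq K V j) (h : Opp N M) (hR : U N R)
    (hc : ∀ M' ∈ Sq K V j, Inv N M' → M * M' = M' * M →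
      ((1 + R) * M * (1 + R)) * M' = M' * ((1 + R) * M * (1 + R)))
    (hn : ∀ M' ∈ Sq K V j, Inv N M' → IsNilpotent (M * M') →
      IsNilpotent (((1 + R) * M * (1 + R)) * M')) : R = 0 := by
  by_contra hR0
  obtain ⟨L, hL, hk, hr, hI'⟩ := opp_inv hM hN h.symm
  have hI : Inv N L := hI'.symm
  have hLM : L * M = 0 ∧ M * L = 0 := mul_of_range hL hM hr.symm
  obtain ⟨-, hRMR⟩ := rel hN hM hR hL hk hr hI (hc L hL hI (by rw [hLM.1, hLM.2]))
  -- relations
  have eNN : ∀ x, N (N x) = 0 := sq_apply hN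
  have eLL : ∀ x, L (L x) = 0 := sq_apply hL
  have eLM : ∀ x, L (M x) = 0 := fun x => LinearMap.congr_fun hLM.1 x
  have eML : ∀ x, M (L x) = 0 := fun x => LinearMap.congr_fun hLM.2 x
  have eNLN : ∀ x, N (L (N x)) = N x := fun x => LinearMap.congr_fun hI.1 x
  have eLNL : ∀ x, L (N (L x)) = L x := fun x => LinearMap.congr_fun hI.2 x
  have eRMR : ∀ x, R (M (R x)) = 0 := fun x => LinearMap.congr_fun hRMR x
  have eLNM : ∀ x, L (N (M x)) = M x := by
    intro x
    have hx : M x ∈ range L := by rw [hr]; exact ⟨x, rfl⟩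
    obtain ⟨y, hy⟩ := hx
    rw [← hy, eLNL]
  have eRLN : ∀ x, R (L (N x)) = R x := by
    intro x
    have hx : x - L (N x) ∈ ker N := by
      rw [mem_ker, map_sub, eNLN, sub_self]
    have h2 := hR.1 hx
    rw [mem_ker, map_sub, sub_eq_zero] at h2
    exact h2.symm
  -- the vectors
  obtain ⟨x, hx⟩ : ∃ x, R x ≠ 0 := by
    by_contra hcon
    apply hR0
    ext x
    by_contra hx
    exact hcon ⟨x, hx⟩
  obtain ⟨w, hw⟩ : ∃ w, w = N x := ⟨_, rfl⟩
  have hRLw : R (L w) ≠ 0 := by rw [hw, eRLN]; exact hx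
  obtain ⟨u, hu⟩ : ∃ u, u = N (M (R (L w))) := ⟨_, rfl⟩
  have hMne : M (R (L w)) ≠ 0 := by
    intro h0
    apply hRLw
    exact Submodule.disjoint_def.1 h.2 _ (hR.2 ⟨_, rfl⟩) h0
  have hune : u ≠ 0 := by
    intro h0
    apply hMne
    rw [hu] at h0
    exact Submodule.disjoint_def.1 h.1 _ ⟨_, rfl⟩ h0
  have hRLu : R (L u) = 0 := by rw [hu, eRLN, eRMR]
  have hMRL : M (R (L w)) = L u := by rw [hu, eLNM]
  have hNw : N w = 0 := by rw [hw, eNN]
  have hNLw : N (L w) = w := by rw [hw, eNLN]
  have hNLu : N (L u) = u := by rw [hu, eNLN]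
  have hLu : L u ≠ 0 := by
    intro h0
    apply hune
    rw [← hNLu, h0, map_zero]
  have hspan : u ∉ Submodule.span K {w} := by
    intro hmem
    obtain ⟨c, hc1⟩ := Submodule.mem_span_singleton.1 hmem
    have hc0 : c ≠ 0 := by
      rintro rfl
      apply hune
      rw [← hc1, zero_smul]
    rw [← hc1, map_smul, map_smul] at hRLu
    exact hRLw ((smul_eq_zero.1 hRLu).resolve_left hc0)
  obtain ⟨g, hgu, hgw⟩ := Submodule.exists_le_ker_of_notMem hspan
  have hgw0 : g w = 0 := hgw (Submodule.mem_span_singleton_self w)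
  obtain ⟨f, hfu, hfw⟩ : ∃ f : V →ₗ[K] K, f u = 1 ∧ f w = 0 := by
    refine ⟨(g u)⁻¹ • g, ?_, ?_⟩
    · rw [LinearMap.smul_apply, smul_eq_mul, inv_mul_cancel₀ hgu]
    · rw [LinearMap.smul_apply, hgw0, smul_zero]
  obtain ⟨C, hC⟩ : ∃ C : Module.End K V, ∀ y, C y = f y • w := ⟨f.smulRight w, fun y => rfl⟩
  have hCC : C * C = 0 := by
    ext y
    show C (C y) = 0
    rw [hC (C y), hC y, map_smul, hfw, smul_zero, zero_smul]
  have hNC : N * C = 0 := by
    ext y
    show N (C y) = 0
    rw [hC y, map_smul, hNw, smul_zero]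
  have hNLC : N * L * C = C := by
    ext y
    show N (L (C y)) = C y
    rw [hC y, map_smul, map_smul, hNLw]
  obtain ⟨A, hA⟩ : ∃ A, A = 1 + C * N := ⟨_, rfl⟩
  have hNA : N * A = N := by
    rw [hA, mul_add, mul_one, ← mul_assoc, hNC, zero_mul, add_zero]
  have hAN : A * N = N := by
    rw [hA, add_mul, one_mul, mul_assoc, hN.1, mul_zero, add_zero]
  have hAA : A * A = 1 := by
    have h1 : C * N * (C * N) = 0 := by
      rw [mul_assoc, ← mul_assoc N C N, hNC, zero_mul, mul_zero]
    rw [hA, mul_add, mul_one, add_mul, one_mul, h1, add_zero, add_assoc, two67, add_zero]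
  have hM' : A * L * A ∈ Sq K V j := conj_mem67 hAA hAA hL
  have hInv : Inv N (A * L * A) := by
    constructor
    · calc N * (A * L * A) * N = (N * A) * L * (A * N) := by noncomm_ring
        _ = N * L * N := by rw [hNA, hAN]
        _ = N := hI.1
    · calc A * L * A * N * (A * L * A) = A * L * (A * N * A) * L * A := by noncomm_ring
        _ = A * (L * N * L) * A := by rw [hAN, hNA]; noncomm_ring
        _ = A * L * A := by rw [hI.2]
  have hnil : IsNilpotent (M * (A * L * A)) := by
    refine ⟨2, ?_⟩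
    have h1 : M * (A * L * A) = M * C * N * L * A := by
      have : M * (A * L * A) = M * L * A + M * C * N * L * A := by rw [hA]; noncomm_ring
      rw [this, hLM.2, zero_mul, zero_add]
    have h2 : L * A * M = L * C * N * M := by
      have : L * A * M = L * M + L * C * N * M := by rw [hA]; noncomm_ring
      rw [this, hLM.1, zero_add]
    calc (M * (A * L * A)) ^ 2 = M * C * N * L * A * (M * C * N * L * A) := by rw [h1, pow_two]
      _ = M * C * N * (L * A * M) * C * N * L * A := by noncomm_ring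
      _ = M * C * N * (L * C * N * M) * C * N * L * A := by rw [h2]
      _ = M * C * (N * L * C) * N * M * C * N * L * A := by noncomm_ring
      _ = M * C * C * N * M * C * N * L * A := by rw [hNLC]
      _ = M * (C * C) * N * M * C * N * L * A := by noncomm_ring
      _ = 0 := by rw [hCC]; simp
  obtain ⟨k, hk2⟩ := hn _ hM' hInv hnil
  have hCu : C u = w := by rw [hC, hfu, one_smul]
  have hCw : C w = 0 := by rw [hC, hfw, zero_smul]
  have e1 : (A * L * A) (L u) = L w := by
    have h1 : A (L u) = L u + w := by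
      rw [hA]
      show L u + C (N (L u)) = L u + w
      rw [hNLu, hCu]
    have h2 : A (L w) = L w := by
      rw [hA]
      show L w + C (N (L w)) = L w
      rw [hNLw, hCw, add_zero]
    show A (L (A (L u))) = L w
    rw [h1, map_add, eLL, zero_add, h2]
  have e2 : ((1 + R) * M * (1 + R)) (L w) = L u := by
    show (M (L w + R (L w))) + R (M (L w + R (L w))) = L u
    rw [map_add, eML, zero_add, hMRL, hRLu, add_zero]
  have e3 : ((1 + R) * M * (1 + R) * (A * L * A)) (L u) = L u := by
    show ((1 + R) * M * (1 + R)) ((A * L * A) (L u)) = L u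
    rw [e1, e2]
  have e4 : ∀ k : ℕ, (((1 + R) * M * (1 + R) * (A * L * A)) ^ k) (L u) = L u := by
    intro k
    induction k with
    | zero => rfl
    | succ k ih =>
      rw [pow_succ]
      show (((1 + R) * M * (1 + R) * (A * L * A)) ^ k)
        (((1 + R) * M * (1 + R) * (A * L * A)) (L u)) = L u
      rw [e3, ih]
  have e5 := e4 k
  rw [hk2] at e5
  exact hLu e5.symm


end Pool.Agent.Helper2.EV
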