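import Pool.Agent.Helper2.EV.OppB

/-!
# Block EV-J: an element is determined by the elements opposite to it and to `N`

`ker_eq`: suppose `ker X ≠ ker Y`; both have dimension `n - j`, also `ker N`. If there is a `y` in `ker Y` outside
`ker X` and outside `ker N`, take a common complement `W` of `ker N`, `ker X` with `y` in `W` (`common_compl_mem`) and `M` from
`exists_opp'`: `Opp N M`, `Opp X M`, so `Opp Y M`, but `y ≠ 0` is in `range M ∩ ker Y`, a contradiction. If there is no such `y`
then `ker Y ≤ ker X` or `ker Y ≤ ker N` (a subspace covered by two subspaces is in one of them: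
`y₁` in `ker Y` not in `ker X`, `y₂` in `ker Y` not in `ker N`, then `y₁`, `y₂` or `y₁ + y₂` is outside both), so `ker Y = ker N`
by dimensions. In the same way with `X` and `Y` exchanged `ker X = ker N`. So `ker X = ker Y`.
`range_eq`: the same with the images and `exists_opp`: for `y` in `range Y` outside `range X` and `range N` take a common
complement `C` of `range N` and `range X` with `y` in `C`, `M` with kernel `C`, `Opp N M`, `Opp X M`, so `Opp Y M`, but `y` is in
`range Y ∩ ker M`.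
-/

set_option autoImplicit false

open LinearMap

namespace Pool.Agent.Helper2.EV

variable {K : Type*} [Field K] {V : Type*} [AddCommGroup V] [Module K V] [FiniteDimensional K V]

theorem le_or_le_of_cover {U A B : Submodule K V} (h : ∀ y ∈ U, y ∈ A ∨ y ∈ B) :
    U ≤ A ∨ U ≤ B := by
  by_contra hc
  rw [not_or] at hc
  obtain ⟨y₁, h1U, h1A⟩ := Set.not_subset.1 hc.1
  obtain ⟨y₂, h2U, h2B⟩ := Set.not_subset.1 hc.2
  have h1B : y₁ ∈ B := (h y₁ h1U).resolve_left h1A
  have h2A : y₂ ∈ A := (h y₂ h2U).resolve_right h2B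
  rcases h (y₁ + y₂) (U.add_mem h1U h2U) with h3 | h3
  · exact h1A ((Submodule.add_mem_iff_left A h2A).1 h3)
  · exact h2B ((Submodule.add_mem_iff_right B h1B).1 h3)

theorem finrank_ker_eq {j : ℕ} {X Y : Module.End K V} (hX : X ∈ Sq K V j)
    (hY : Y ∈ Sq K V j) : Module.finrank K (ker X) = Module.finrank K (ker Y) := by
  have k1 := LinearMap.finrank_range_add_finrank_ker X
  have k2 := LinearMap.finrank_range_add_finrank_ker Y
  have r1 := hX.2
  have r2 := hY.2
  omega

theorem ker_eq_aux {j : ℕ} {N X Y : Module.End K V} (hN : N ∈ Sq K V j) (hX : X ∈ Sq K V j)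
    (hY : Y ∈ Sq K V j) (h : ∀ M ∈ Sq K V j, Opp N M → (Opp X M ↔ Opp Y M)) :
    ker Y = ker X ∨ ker Y = ker N := by
  have h1 : ∀ y ∈ ker Y, y ∈ ker X ∨ y ∈ ker N := by
    intro y hy
    by_contra hc
    rw [not_or] at hc
    obtain ⟨W, hyW, hW1, hW2⟩ := common_compl_mem (ker N) (ker X) (finrank_ker_eq hN hX) hc.2 hc.1
    obtain ⟨M, hM, hMW, hMN, hMX⟩ := exists_opp' hN hX W hW1 hW2
    have h2 := ((h M hM hMN).1 hMX).1
    rw [hMW, Submodule.disjoint_def] at h2
    apply hc.1
    rw [h2 y hyW hy]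
    exact Submodule.zero_mem _
  rcases le_or_le_of_cover h1 with h2 | h2
  · exact Or.inl (Submodule.eq_of_le_of_finrank_eq h2 (finrank_ker_eq hY hX))
  · exact Or.inr (Submodule.eq_of_le_of_finrank_eq h2 (finrank_ker_eq hY hN))

theorem ker_eq {j : ℕ} {N X Y : Module.End K V} (hN : N ∈ Sq K V j) (hX : X ∈ Sq K V j)
    (hY : Y ∈ Sq K V j) (h : ∀ M ∈ Sq K V j, Opp N M → (Opp X M ↔ Opp Y M)) : ker X = ker Y := by
  rcases ker_eq_aux hN hX hY h with h1 | h1
  · exact h1.symm
  · rcases ker_eq_aux hN hY hX (fun M hM hMN => (h M hM hMN).symm) with h2 | h2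
    · exact h2
    · rw [h1, h2]

theorem range_eq_aux {j : ℕ} {N X Y : Module.End K V} (hN : N ∈ Sq K V j) (hX : X ∈ Sq K V j)
    (hY : Y ∈ Sq K V j) (h : ∀ M ∈ Sq K V j, Opp N M → (Opp X M ↔ Opp Y M)) :
    range Y = range X ∨ range Y = range N := by
  have h1 : ∀ y ∈ range Y, y ∈ range X ∨ y ∈ range N := by
    intro y hy
    by_contra hc
    rw [not_or] at hc
    obtain ⟨C, hyC, hC1, hC2⟩ := common_compl_mem (range N) (range X) (hN.2.trans hX.2.symm)
      hc.2 hc.1
    obtain ⟨M, hM, hMC, hMN, hMX⟩ := exists_opp hN hX C hC1 hC2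
    have h2 := ((h M hM hMN).1 hMX).2
    rw [hMC, Submodule.disjoint_def] at h2
    apply hc.1
    rw [h2 y hy hyC]
    exact Submodule.zero_mem _
  rcases le_or_le_of_cover h1 with h2 | h2
  · exact Or.inl (Submodule.eq_of_le_of_finrank_eq h2 (hY.2.trans hX.2.symm))
  · exact Or.inr (Submodule.eq_of_le_of_finrank_eq h2 (hY.2.trans hN.2.symm))

theorem range_eq {j : ℕ} {N X Y : Module.End K V} (hN : N ∈ Sq K V j) (hX : X ∈ Sq K V j)
    (hY : Y ∈ Sq K V j) (h : ∀ M ∈ Sq K V j, Opp N M → (Opp X M ↔ Opp Y M)) :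
    range X = range Y := by
  rcases range_eq_aux hN hX hY h with h1 | h1
  · exact h1.symm
  · rcases range_eq_aux hN hY hX (fun M hM hMN => (h M hM hMN).symm) with h2 | h2
    · exact h2
    · rw [h1, h2]

end Pool.Agent.Helper2.EV
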