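import Pool.Agent.Helper2.EV.Defs

/-!
# Block EV-J2: an element is determined by its kernel, its image and an element inverse to it

`eq_of_inv`: `X M x = x = Y M x` for `x` in `W = range X = range Y`. `V = ker X ⊕ range M` (disjoint, dimensions), `X = Y` on
`ker X = ker Y`, and `range M = M W` (`M = M X M`), `X (M w) = w = Y (M w)`.
-/

set_option autoImplicit false

open LinearMap

namespace Pool.Agent.Helper2.EV

variable {K : Type*} [Field K] {V : Type*} [AddCommGroup V] [Module K V] [FiniteDimensional K V]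

theorem eq_of_inv {j : ℕ} {X Y M : Module.End K V} (hX : X ∈ Sq K V j) (hY : Y ∈ Sq K V j)
    (hM : M ∈ Sq K V j) (hk : ker X = ker Y) (hr : range X = range Y) (hXM : Inv X M)
    (hYM : Inv Y M) : X = Y := by
  ext v
  have h1 : X (M (X v)) = X v := LinearMap.congr_fun hXM.1 v
  have h2 : v - M (X v) ∈ ker X := by
    rw [mem_ker, map_sub, h1, sub_self]
  rw [hk, mem_ker, map_sub, sub_eq_zero] at h2
  have h3 : X v ∈ range Y := by rw [← hr]; exact ⟨v, rfl⟩
  obtain ⟨u, hu⟩ := h3
  have h4 : Y (M (Y u)) = Y u := LinearMap.congr_fun hYM.1 u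
  rw [hu] at h4
  rw [h2, h4]

end Pool.Agent.Helper2.EV
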