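import Pool.Agent.Helper2.EV.StA2
import Pool.Agent.Helper2.EV.StA3
import Pool.Agent.Helper2.EV.StB
import Pool.Agent.Helper2.EV.StC2
import Pool.Agent.Helper2.EV.StD
import Pool.Agent.Helper2.EV.StE
import Pool.Agent.Helper2.EV.StF
import Pool.Agent.Helper2.EV.StF2

/-!
# Project EV: a map which fixes the elements commuting with `N` is the conjugation by `1 + N`
-/

set_option autoImplicit false

open LinearMap

namespace Pool.Agent.Helper2.EV

variable {K : Type*} [Field K] {V : Type*} [AddCommGroup V] [Module K V]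

theorem ne_zero_of_mem {j : ℕ} (hj : 1 ≤ j) {N : Module.End K V} (hN : N ∈ Sq K V j) : N ≠ 0 := by
  rintro rfl
  have h := hN.2
  rw [LinearMap.range_zero, finrank_bot] at h
  omega

theorem one_add_sq [CharP K 2] {N : Module.End K V} (h : N * N = 0) : (1 + N) * (1 + N) = 1 := by
  have h2 : N + N = 0 := by
    ext x
    have : (2 : K) = 0 := CharP.cast_eq_zero K 2
    show N x + N x = 0
    rw [← two_smul K, this, zero_smul]
  rw [mul_add, mul_one, add_mul, one_mul, h, add_zero, add_assoc, h2, add_zero]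

/-- Conjugates are again in `Sq K V j`. -/
theorem conj_mem' {j : ℕ} {A B X : Module.End K V} (hBA : B * A = 1) (hAB : A * B = 1)
    (hX : X ∈ Sq K V j) : A * X * B ∈ Sq K V j := by
  constructor
  · have h1 : A * X * B * (A * X * B) = A * (X * (B * A) * X) * B := by noncomm_ring
    rw [h1, hBA, mul_one, hX.1, mul_zero, zero_mul]
  · let e : V ≃ₗ[K] V := LinearEquiv.ofLinearMap A B hAB hBA
    have h1 : range (A * X * B) = (range X).map (e : V →ₗ[K] V) := by
      ext y
      constructor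
      · rintro ⟨x, rfl⟩
        exact ⟨X (B x), ⟨B x, rfl⟩, rfl⟩
      · rintro ⟨_, ⟨x, rfl⟩, rfl⟩
        refine ⟨A x, ?_⟩
        show A (X (B (A x))) = A (X x)
        have : B (A x) = x := LinearMap.congr_fun hBA x
        rw [this]
    rw [h1, LinearEquiv.finrank_map_eq]
    exact hX.2

theorem conj_one_add_mem [CharP K 2] {j : ℕ} {N X : Module.End K V} (hN : N * N = 0)
    (hX : X ∈ Sq K V j) : (1 + N) * X * (1 + N) ∈ Sq K V j :=
  conj_mem' (one_add_sq hN) (one_add_sq hN) hX

theorem conj_conj [CharP K 2] {N : Module.End K V} (hN : N * N = 0) (X : Module.End K V) :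
    (1 + N) * ((1 + N) * X * (1 + N)) * (1 + N) = X := by
  calc (1 + N) * ((1 + N) * X * (1 + N)) * (1 + N)
      = ((1 + N) * (1 + N)) * X * ((1 + N) * (1 + N)) := by simp only [mul_assoc]
    _ = X := by rw [one_add_sq hN, one_mul, mul_one]

/-- Orders of products of conjugates. -/
theorem conj_pow [CharP K 2] {N : Module.End K V} (hN : N * N = 0) (X Y : Module.End K V) (m : ℕ) :
    ((1 + (1 + N) * X * (1 + N)) * (1 + (1 + N) * Y * (1 + N))) ^ m = 1 ↔
      ((1 + X) * (1 + Y)) ^ m = 1 := by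
  have hs := one_add_sq hN
  have h1 : ∀ Z : Module.End K V, 1 + (1 + N) * Z * (1 + N) = (1 + N) * (1 + Z) * (1 + N) := by
    intro Z
    rw [mul_add (1 + N) 1 Z, mul_one, add_mul (1 + N) ((1 + N) * Z) (1 + N), hs]
  have h2 : (1 + (1 + N) * X * (1 + N)) * (1 + (1 + N) * Y * (1 + N)) =
      (1 + N) * ((1 + X) * (1 + Y)) * (1 + N) := by
    rw [h1, h1]
    calc (1 + N) * (1 + X) * (1 + N) * ((1 + N) * (1 + Y) * (1 + N))
        = (1 + N) * (1 + X) * ((1 + N) * (1 + N)) * (1 + Y) * (1 + N) := by simp only [mul_assoc]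
      _ = _ := by rw [hs]; simp only [mul_assoc, mul_one]
  have h3 : ∀ (u : Module.End K V) (m : ℕ), ((1 + N) * u * (1 + N)) ^ m = (1 + N) * u ^ m * (1 + N) := by
    intro u m
    induction m with
    | zero => rw [pow_zero, pow_zero, mul_one, hs]
    | succ m ih =>
      rw [pow_succ, ih, pow_succ]
      calc (1 + N) * u ^ m * (1 + N) * ((1 + N) * u * (1 + N))
          = (1 + N) * u ^ m * ((1 + N) * (1 + N)) * u * (1 + N) := by simp only [mul_assoc]
        _ = _ := by rw [hs]; simp only [mul_assoc, mul_one]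
  rw [h2, h3]
  constructor
  · intro h
    have h4 := conj_conj hN (((1 + X) * (1 + Y)) ^ m)
    rw [h, mul_one, hs] at h4
    exact h4.symm
  · intro h
    rw [h, mul_one, hs]

theorem opp_congr {N P A : Module.End K V} (h : Opp N P) (hk : ker A = ker P)
    (hr : range A = range P) : Opp N A := by
  constructor
  · rw [hr]; exact h.1
  · rw [hk]; exact h.2

theorem step_one [FiniteDimensional K V] [CharP K 2] {j : ℕ} (hj : 1 ≤ j) {ψ : Module.End K V → Module.End K V}
    (hψ : Pres j ψ) {N : Module.End K V} (hN : N ∈ Sq K V j)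
    (hfix : ∀ R ∈ Sq K V j, N * R = R * N → ψ R = R)
    {M : Module.End K V} (hM : M ∈ Sq K V j) (h : Opp N M) :
    ∃ R : Module.End K V, U N R ∧ ψ M = (1 + R) * M * (1 + R) :=
  form hN hM (hψ.mem M hM) h (diff_mem hj hψ hN hfix hM h).2 (ker_mem hj hψ hN hfix hM h)

/-- The main step: `ψ` is the conjugation by `1 + N`. -/
theorem core [FiniteDimensional K V] [CharP K 2] {j : ℕ} (hj : 1 ≤ j)
    {ψ : Module.End K V → Module.End K V} (hψ : Pres j ψ) {N : Module.End K V} (hN : N ∈ Sq K V j)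
    (hfix : ∀ R ∈ Sq K V j, N * R = R * N → ψ R = R)
    (hS : ∀ M ∈ Sq K V j, Inv N M → ((1 + M) * (1 + ψ M)) ^ 3 = 1 ∧ ψ M ≠ M) :
    ∀ M ∈ Sq K V j, ψ M = (1 + N) * M * (1 + N) := by
  have hN1 := one_add_sq hN.1
  -- elements inverse to `N`
  have hA : ∀ M ∈ Sq K V j, Inv N M → ψ M = (1 + N) * M * (1 + N) := by
    intro M hM hI
    obtain ⟨R, hR, hRM⟩ := step_one hj hψ hN hfix hM hI.opp
    obtain ⟨lam, rfl⟩ := step_two hN hM hI hR (fun X hX hc h3 => by
      have h4 := (hψ.ord X hX M hM 3).2 h3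
      rw [hfix X hX hc, hRM] at h4
      exact h4)
    have h := hS M hM hI
    rw [hRM] at h
    have hl := step_three hN.1 hM.1 hI (ne_zero_of_mem hj hN) h.1 h.2
    rw [hRM, hl, one_smul]
  -- the map `Q`
  let Q : Module.End K V → Module.End K V := fun M => (1 + N) * ψ M * (1 + N)
  have hQ : Pres j Q :=
    { mem := fun M hM => conj_one_add_mem hN.1 (hψ.mem M hM)
      ord := fun X hX Y hY m => by
        rw [← hψ.ord X hX Y hY m]
        exact conj_pow hN.1 (ψ X) (ψ Y) m }
  have hQfix : ∀ R ∈ Sq K V j, N * R = R * N → Q R = R := by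
    intro R hR hc
    show (1 + N) * ψ R * (1 + N) = R
    rw [hfix R hR hc]
    have h1 : (1 + N) * R = R * (1 + N) := by rw [add_mul, mul_add, hc, one_mul, mul_one]
    rw [h1, mul_assoc, hN1, mul_one]
  have hQinv : ∀ M ∈ Sq K V j, Inv N M → Q M = M := by
    intro M hM hI
    show (1 + N) * ψ M * (1 + N) = M
    rw [hA M hM hI, conj_conj hN.1]
  -- elements opposite to `N`
  have hB : ∀ M ∈ Sq K V j, Opp N M → Q M = M := by
    intro M hM h
    obtain ⟨R, hR, hRM⟩ := step_one hj hQ hN hQfix hM h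
    have hQM := (hQ.mem M hM).1
    have hR0 := step_four hN hM h hR
      (fun M' hM' hI hc => by
        rw [← hRM]
        rw [← two hM.1 hM'.1, ← hQ.ord M hM M' hM' 2, hQinv M' hM' hI, two hQM hM'.1] at hc
        exact hc)
      (fun M' hM' hI hn => by
        rw [← hRM]
        rw [← pow_two' hM.1 hM'.1] at hn
        obtain ⟨k, hk⟩ := hn
        rw [← hQ.ord M hM M' hM', hQinv M' hM' hI] at hk
        exact (pow_two' hQM hM'.1).1 ⟨k, hk⟩)
    rw [hRM, hR0, add_zero, one_mul, mul_one]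
  have hBfix : ∀ P ∈ Sq K V j, Opp N P → ∀ A ∈ Sq K V j, ker A = ker P → range A = range P →
      Q A = A := fun P hP h A hA hk hr => hB A hA (opp_congr h hk hr)
  -- all elements
  intro M hM
  have hQM := hQ.mem M hM
  have key : Q M = M := by
    have hopp : ∀ P ∈ Sq K V j, Opp N P → (Opp M P ↔ Opp (Q M) P) := by
      intro P hP h
      have h1 := opp_fix hj hQ hP (hBfix P hP h) hM
      constructor
      · intro h2
        exact (h1.2 h2.symm).symm
      · intro h2
        exact (h1.1 h2.symm).symm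
    have hk := ker_eq hN hM hQM hopp
    have hr := range_eq hN hM hQM hopp
    obtain ⟨C, hC1, hC2⟩ := common_compl (range N) (range M) (by rw [hN.2, hM.2])
    obtain ⟨P, hP, -, hNP, hMP⟩ := exists_opp hN hM C hC1 hC2
    obtain ⟨G, hG, hGk, hGr, hGI⟩ := opp_inv hP hM hMP.symm
    have hNG : Opp N G := opp_congr hNP hGk hGr
    have h2 := (inv_fix hj hQ hG (hBfix G hG hNG) hM).2 hGI
    exact (eq_of_inv hM hQM hG hk hr hGI.symm h2.symm).symm
  have h3 := conj_conj hN.1 (ψ M)
  have h4 : (1 + N) * Q M * (1 + N) = ψ M := h3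
  rw [key] at h4
  exact h4.symm

end Pool.Agent.Helper2.EV
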