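import Mathlib

/-!
# Project EV (MP_0d9fdb_al): all involutions of `PSL(n, 2^k)`

`Sq K V j` is the set of the endomorphisms `N` of `V` with `N² = 0` and rank `j` (`1 + N` is an involution in
characteristic two). `Opp N M`: the image of each of `N`, `M` meets the kernel of the other one only in
`0` (opposite). `Pres j ψ`: the map `ψ` preserves `Sq K V j` and the orders of all products
`(1 + N) (1 + M)`. `U N R`: `R` kills the kernel of `N` and maps into the image of `N`.
-/

set_option autoImplicit false

open LinearMap

namespace Pool.Agent.Helper2.EV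

variable {K : Type*} [Field K] {V : Type*} [AddCommGroup V] [Module K V]

variable (K V) in
/-- Square zero endomorphisms of rank `j`. -/
def Sq (j : ℕ) : Set (Module.End K V) := {N | N * N = 0 ∧ Module.finrank K (range N) = j}

/-- `N` and `M` are opposite. -/
def Opp (N M : Module.End K V) : Prop :=
  Disjoint (range M) (ker N) ∧ Disjoint (range N) (ker M)

/-- `N` and `M` are inverse to each other. -/
def Inv (N M : Module.End K V) : Prop := N * M * N = N ∧ M * N * M = M

/-- `R` kills the kernel of `N` and maps into the image of `N`. -/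
def U (N R : Module.End K V) : Prop := ker N ≤ ker R ∧ range R ≤ range N

/-- `ψ` preserves `Sq K V j` and the orders of products. -/
structure Pres (j : ℕ) (ψ : Module.End K V → Module.End K V) : Prop where
  mem : ∀ N ∈ Sq K V j, ψ N ∈ Sq K V j
  ord : ∀ N ∈ Sq K V j, ∀ M ∈ Sq K V j, ∀ m : ℕ,
    ((1 + ψ N) * (1 + ψ M)) ^ m = 1 ↔ ((1 + N) * (1 + M)) ^ m = 1

theorem Opp.symm {N M : Module.End K V} (h : Opp N M) : Opp M N := ⟨h.2, h.1⟩

theorem Inv.symm {N M : Module.End K V} (h : Inv N M) : Inv M N := ⟨h.2, h.1⟩

theorem sq_zero {j : ℕ} {N : Module.End K V} (h : N ∈ Sq K V j) : N * N = 0 := h.1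

theorem sq_apply {j : ℕ} {N : Module.End K V} (h : N ∈ Sq K V j) (x : V) : N (N x) = 0 :=
  LinearMap.congr_fun h.1 x

theorem range_le_ker {j : ℕ} {N : Module.End K V} (h : N ∈ Sq K V j) : range N ≤ ker N := by
  rintro _ ⟨x, rfl⟩
  exact sq_apply h x

/-- Elements of the same image or the same kernel commute, their product is `0`. -/
theorem mul_of_range {j : ℕ} {N R : Module.End K V} (hN : N ∈ Sq K V j) (hR : R ∈ Sq K V j)
    (h : range R = range N) : N * R = 0 ∧ R * N = 0 := by
  constructor
  · ext x
    have : R x ∈ range N := by rw [← h]; exact ⟨x, rfl⟩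
    exact range_le_ker hN this
  · ext x
    have : N x ∈ range R := by rw [h]; exact ⟨x, rfl⟩
    exact range_le_ker hR this

theorem mul_of_ker {j : ℕ} {N R : Module.End K V} (hN : N ∈ Sq K V j) (hR : R ∈ Sq K V j)
    (h : ker R = ker N) : N * R = 0 ∧ R * N = 0 := by
  constructor
  · ext x
    have : R x ∈ ker N := by rw [← h]; exact sq_apply hR x
    exact this
  · ext x
    have : N x ∈ ker R := by rw [h]; exact sq_apply hN x
    exact this

theorem Inv.opp {N M : Module.End K V} (h : Inv N M) : Opp N M := by
  constructor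
  · rw [Submodule.disjoint_def]
    rintro _ ⟨x, rfl⟩ hx
    have h1 : M (N (M x)) = M x := LinearMap.congr_fun h.2 x
    rw [← h1, show N (M x) = 0 from hx, map_zero]
  · rw [Submodule.disjoint_def]
    rintro _ ⟨x, rfl⟩ hx
    have h1 : N (M (N x)) = N x := LinearMap.congr_fun h.1 x
    rw [← h1, show M (N x) = 0 from hx, map_zero]

end Pool.Agent.Helper2.EV
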