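import Pool.Agent.Helper2.EV.PslA

/-!
# Block EV-P6: involutions of `PSL(n, K)`, `K` finite of characteristic two

`a` is the class of `A` in `SL(n, K)`, `A A = r` (`mk_eq_iff'` for `A A` and `1`), `r ≠ 0`, `r^n = 1` (determinants). `r = s²`
(`FiniteField.isSquare_of_char_two`), `(s^n)² = 1`, so `s^n = 1` (characteristic two). `B = s⁻¹ A` has determinant `1` and
`B B = 1`, the class of `B` is `a`. `X = 1 + B`: `X X = 1 + B B + 2 B = 0`, `1 + X = B`. `j = X.rank`; `X ≠ 0`, because otherwise `A = s`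
and `a = 1`, so `1 ≤ j`.
-/

set_option autoImplicit false

open Matrix

namespace Pool.Agent.Helper2.EV

variable {K : Type*} [Field K] {ι : Type*} [Fintype ι] [DecidableEq ι]

private theorem two75 [CharP K 2] (M : Matrix ι ι K) : M + M = 0 := by
  have h2 : (2 : K) = 0 := CharP.cast_eq_zero K 2
  rw [← two_smul K M, h2, zero_smul]

private theorem rank75 (M : Matrix ι ι K) (h : M.rank = 0) : M = 0 := by
  have h1 : M.mulVecLin = 0 := LinearMap.range_eq_bot.1 (Submodule.finrank_eq_zero.1 h)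
  apply Matrix.toLin'.injective
  rw [map_zero, Matrix.toLin'_apply']
  exact h1

theorem desc [Finite K] [CharP K 2] (a : ProjectiveSpecialLinearGroup ι K) (ha : orderOf a = 2) :
    ∃ j : ℕ, 1 ≤ j ∧ ∃ X : MSq (K := K) (ι := ι) j, rh X = a := by
  obtain ⟨A, hA⟩ := QuotientGroup.mk_surjective a
  have ha1 : a ≠ 1 := by
    rintro rfl
    rw [orderOf_one] at ha
    omega
  have hne : Nonempty ι := by
    by_contra hcon
    rw [not_nonempty_iff] at hcon
    apply ha1
    have h1 : A = 1 := by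
      apply Subtype.ext
      ext i
      exact (hcon.false i).elim
    rw [← hA, h1]
    rfl
  have hsq : a * a = 1 := by
    have h1 := pow_orderOf_eq_one a
    rw [ha, pow_two] at h1
    exact h1
  obtain ⟨r, hr⟩ : ∃ r : K, (A : Matrix ι ι K) * (A : Matrix ι ι K) = r • (1 : Matrix ι ι K) := by
    have h1 : (QuotientGroup.mk (A * A) : ProjectiveSpecialLinearGroup ι K) = 1 := by
      rw [QuotientGroup.mk_mul, hA]
      exact hsq
    exact (mk_eq_iff' 1 (A * A)).1 h1.symm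
  obtain ⟨s, hs⟩ := FiniteField.isSquare_of_char_two (ringChar.eq K 2) r
  have hdet : r ^ Fintype.card ι = 1 := by
    have h1 := congrArg det hr
    rw [det_mul, A.2, det_smul, det_one, mul_one, mul_one] at h1
    exact h1.symm
  have hr0 : r ≠ 0 := by
    rintro rfl
    rw [zero_pow Fintype.card_ne_zero] at hdet
    exact zero_ne_one hdet
  have hs0 : s ≠ 0 := by
    rintro rfl
    rw [mul_zero] at hs
    exact hr0 hs
  have hBB : (s⁻¹ • (A : Matrix ι ι K)) * (s⁻¹ • (A : Matrix ι ι K)) = 1 := by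
    rw [smul_mul_smul_comm, hr, hs, smul_smul]
    rw [show s⁻¹ * s⁻¹ * (s * s) = 1 by field_simp, one_smul]
  have hXX : (1 + s⁻¹ • (A : Matrix ι ι K)) * (1 + s⁻¹ • (A : Matrix ι ι K)) = 0 := by
    rw [mul_add, mul_one, add_mul, one_mul, hBB]
    have h1 : 1 + s⁻¹ • (A : Matrix ι ι K) + (s⁻¹ • (A : Matrix ι ι K) + 1) =
        (1 + s⁻¹ • (A : Matrix ι ι K)) + (1 + s⁻¹ • (A : Matrix ι ι K)) := by abel
    rw [h1, two75]
  have hrh : ∀ j (hj : (1 + s⁻¹ • (A : Matrix ι ι K)).rank = j),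
      rh (⟨1 + s⁻¹ • (A : Matrix ι ι K), hXX, hj⟩ : MSq (K := K) (ι := ι) j) = a := by
    intro j hj
    rw [← hA]
    refine (mk_eq_iff' _ _).2 ⟨s, ?_⟩
    show (A : Matrix ι ι K) = s • (1 + (1 + s⁻¹ • (A : Matrix ι ι K)))
    rw [← add_assoc, two75, zero_add, smul_smul, mul_inv_cancel₀ hs0, one_smul]
  refine ⟨(1 + s⁻¹ • (A : Matrix ι ι K)).rank, ?_, ⟨1 + s⁻¹ • (A : Matrix ι ι K), hXX, rfl⟩,
    hrh _ rfl⟩
  rw [Nat.one_le_iff_ne_zero]
  intro h0
  have h0 := rank75 _ h0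
  apply ha1
  have h1 : (A : Matrix ι ι K) = s • (1 : Matrix ι ι K) := by
    have h2 : s⁻¹ • (A : Matrix ι ι K) = 1 := by
      have h3 := two75 (1 : Matrix ι ι K)
      have h4 : (1 : Matrix ι ι K) + s⁻¹ • (A : Matrix ι ι K) = 1 + 1 := by rw [h0, h3]
      exact add_left_cancel h4
    rw [← h2, smul_smul, mul_inv_cancel₀ hs0, one_smul]
  rw [← hA]
  exact ((mk_eq_iff' 1 A).2 ⟨s, h1⟩).symm

end Pool.Agent.Helper2.EV
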