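import Pool.Agent.Helper2.EV.Tr
import Pool.Agent.Helper2.RO.GenA

/-!
# Block EV-P5: a class of involutions generates `SL(n, K)`, `K` of characteristic two

Let `H` be the closure of the set of the `rho X`, `X` in `MSq j`. `H` is invariant under conjugation (`A (1 + X) A⁻¹ = 1 + A X A⁻¹`,
`sl_conj_mem`).
`exists_transv`: if `j = 1` take `Z = X₀`. If `2 ≤ j`: choose `u` with `X u ≠ 0` and `f ≠ 0` with `f · v = 0` for `v` in `ker X` and
`f · u = 0` (`ker X` and `u` span a proper subspace, its dimension is at most `n - j + 1`; `Pool.Agent.Helper2.RO.sep`).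
`Z = vecMulVec (X u) f`, `Y = X + Z = X (1 + vecMulVec u f)`; `X Z = Z X = Z Z = 0` (`range X ≤ ker X`), so `Y Y = 0`, and
`(1 + vecMulVec u f)² = 1`, so `Y` has rank `j`. `(1 + X) (1 + Y) = 1 + Z + X Y + (X + X) = 1 + Z`. `Z` has rank one.
`generate`: by `exists_transv` and `trans` (rank one) all `1 + Z'`, `Z'` in `MSq 1`, are in `H`, these are the
transvections `Pool.Agent.Helper2.RO.tv u k h`, `u`, `k` not `0` (`vecMulVec u k` has rank one; for `u = 0` or `k = 0`,
`tv u k h = 1`), so `H = ⊤` by `Pool.Agent.Helper2.RO.tv_generate` (cite it, it is a block of project RO, its file is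
imported here).
-/

set_option autoImplicit false

open Matrix

namespace Pool.Agent.Helper2.EV

variable {K : Type*} [Field K] {ι : Type*} [Fintype ι] [DecidableEq ι]

omit [Fintype ι] [DecidableEq ι] in
private theorem two86 [CharP K 2] (X : Matrix ι ι K) : X + X = 0 := by
  have h : (2 : K) = 0 := CharP.cast_eq_zero K 2
  rw [← two_smul K, h, zero_smul]

omit [DecidableEq ι] in
private theorem rank_vec86 {w g : ι → K} (hw : w ≠ 0) (hg : g ≠ 0) : (vecMulVec w g).rank = 1 := by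
  classical
  refine le_antisymm (rank_vecMulVec_le w g) ?_
  rw [Nat.one_le_iff_ne_zero]
  intro h
  have h1 : LinearMap.range (vecMulVec w g).mulVecLin = ⊥ := Submodule.finrank_eq_zero.1 h
  have h2 : (vecMulVec w g).mulVecLin = 0 := LinearMap.range_eq_bot.1 h1
  have h3 : vecMulVec w g = 0 := by
    ext i j
    have h4 := congrFun (LinearMap.congr_fun h2 (Pi.single j 1)) i
    simpa using h4
  rcases Pool.Agent.Helper2.RO.vec_eq_zero.1 h3 with h4 | h4
  · exact hw h4
  · exact hg h4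

omit [DecidableEq ι] in
private theorem vec_mem86 {w g : ι → K} (hw : w ≠ 0) (hg : g ≠ 0) (h : g ⬝ᵥ w = 0) :
    vecMulVec w g ∈ MSq (K := K) (ι := ι) 1 :=
  ⟨by rw [Pool.Agent.Helper2.RO.mul_eq, h, zero_smul], rank_vec86 hw hg⟩

private theorem conj_mem86 [CharP K 2] {j : ℕ} (A : SpecialLinearGroup ι K) {B : SpecialLinearGroup ι K}
    (hB : B ∈ Subgroup.closure (Set.range (rho : MSq (K := K) (ι := ι) j → _))) :
    A * B * A⁻¹ ∈ Subgroup.closure (Set.range (rho : MSq (K := K) (ι := ι) j → _)) := by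
  have h1 : Subgroup.closure (Set.range (rho : MSq (K := K) (ι := ι) j → _)) ≤
      (Subgroup.closure (Set.range (rho : MSq (K := K) (ι := ι) j → _))).comap
        (MulAut.conj A).toMonoidHom := by
    rw [Subgroup.closure_le]
    rintro _ ⟨X, rfl⟩
    show A * rho X * A⁻¹ ∈ Subgroup.closure (Set.range (rho : MSq (K := K) (ι := ι) j → _))
    refine Subgroup.subset_closure ⟨⟨_, sl_conj_mem A X.2⟩, ?_⟩
    apply Subtype.ext
    show 1 + (A : Matrix ι ι K) * (X : Matrix ι ι K) * ((A⁻¹ : SpecialLinearGroup ι K) : Matrix ι ι K) =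
      (A : Matrix ι ι K) * (1 + (X : Matrix ι ι K)) * ((A⁻¹ : SpecialLinearGroup ι K) : Matrix ι ι K)
    have h2 : (A : Matrix ι ι K) * ((A⁻¹ : SpecialLinearGroup ι K) : Matrix ι ι K) = 1 :=
      congrArg Subtype.val (mul_inv_cancel A)
    rw [mul_add, mul_one, add_mul, h2]
  exact h1 hB

theorem exists_transv [CharP K 2] {j : ℕ} (hj : 1 ≤ j) (X₀ : MSq (K := K) (ι := ι) j) :
    ∃ Z : MSq (K := K) (ι := ι) 1,
      rho Z ∈ Subgroup.closure (Set.range (rho : MSq (K := K) (ι := ι) j → _)) := by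
  rcases Nat.lt_or_ge j 2 with hj2 | hj2
  · obtain rfl : j = 1 := by omega
    exact ⟨X₀, Subgroup.subset_closure ⟨X₀, rfl⟩⟩
  obtain ⟨X, hXX, hXr⟩ := X₀
  -- a vector which is not killed
  obtain ⟨u, hu⟩ : ∃ u : ι → K, X *ᵥ u ≠ 0 := by
    by_contra hcon
    push Not at hcon
    have h1 : X.mulVecLin = 0 := LinearMap.ext fun v => hcon v
    have h2 : X.rank = 0 := by
      rw [Matrix.rank, h1, LinearMap.range_zero, finrank_bot]
    omega
  -- a functional
  obtain ⟨w, hw⟩ : ∃ w : ι → K, w ∉ LinearMap.ker X.mulVecLin ⊔ Submodule.span K {u} := by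
    by_contra hcon
    push Not at hcon
    have h1 : LinearMap.ker X.mulVecLin ⊔ Submodule.span K {u} = ⊤ :=
      eq_top_iff.2 fun w _ => hcon w
    have h2 := Submodule.finrank_add_le_finrank_add_finrank (LinearMap.ker X.mulVecLin)
      (Submodule.span K {u})
    rw [h1, finrank_top] at h2
    have h3 := LinearMap.finrank_range_add_finrank_ker X.mulVecLin
    have h4 : Module.finrank K (LinearMap.range X.mulVecLin) = j := hXr
    have h5 : Module.finrank K (Submodule.span K {u}) ≤ 1 := by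
      have := finrank_span_le_card (R := K) ({u} : Set (ι → K))
      simpa using this
    omega
  obtain ⟨g, hg, hgw⟩ := Pool.Agent.Helper2.RO.sep _ hw
  have hg0 : g ≠ 0 := by
    rintro rfl
    rw [zero_dotProduct] at hgw
    exact zero_ne_one hgw
  have hXXv : ∀ v, X *ᵥ (X *ᵥ v) = 0 := fun v => by rw [mulVec_mulVec, hXX, zero_mulVec]
  have hgX : ∀ v, g ⬝ᵥ (X *ᵥ v) = 0 := fun v =>
    hg _ (Submodule.mem_sup_left (show X *ᵥ (X *ᵥ v) = 0 from hXXv v))
  have hgu : g ⬝ᵥ u = 0 := hg _ (Submodule.mem_sup_right (Submodule.mem_span_singleton_self u))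
  have hgX' : g ᵥ* X = 0 := by
    refine funext fun i => ?_
    have h1 := hgX (Pi.single i 1)
    rw [dotProduct_mulVec] at h1
    simpa using h1
  have hE : X * vecMulVec u g = vecMulVec (X *ᵥ u) g := by
    rw [mul_vecMulVec]
  have hXZ : X * vecMulVec (X *ᵥ u) g = 0 := by
    rw [mul_vecMulVec, hXXv]
    exact Pool.Agent.Helper2.RO.vec_eq_zero.2 (Or.inl rfl)
  have hZX : vecMulVec (X *ᵥ u) g * X = 0 := by
    rw [vecMulVec_mul, hgX']
    exact Pool.Agent.Helper2.RO.vec_eq_zero.2 (Or.inr rfl)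
  have hZm : vecMulVec (X *ᵥ u) g ∈ MSq (K := K) (ι := ι) 1 := vec_mem86 hu hg0 (hgX u)
  have hYe : X + vecMulVec (X *ᵥ u) g = X * (1 + vecMulVec u g) := by
    rw [mul_add, mul_one, hE]
  have hU : (vecMulVec u g : Matrix ι ι K) * vecMulVec u g = 0 := by
    rw [Pool.Agent.Helper2.RO.mul_eq, hgu, zero_smul]
  have hYm : X + vecMulVec (X *ᵥ u) g ∈ MSq (K := K) (ι := ι) j := by
    constructor
    · rw [add_mul, mul_add, mul_add, hXX, hXZ, hZX, hZm.1]
      simp
    · rw [hYe, rank_mul_eq_left_of_isUnit_det]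
      · exact hXr
      · rw [det_one_add hU]
        exact isUnit_one
  refine ⟨⟨_, hZm⟩, ?_⟩
  have hprod : rho (⟨_, hZm⟩ : MSq (K := K) (ι := ι) 1) =
      rho (⟨X, hXX, hXr⟩ : MSq (K := K) (ι := ι) j) * rho (⟨_, hYm⟩ : MSq (K := K) (ι := ι) j) := by
    apply Subtype.ext
    show 1 + vecMulVec (X *ᵥ u) g = (1 + X) * (1 + (X + vecMulVec (X *ᵥ u) g))
    have h2 := two86 X
    calc 1 + vecMulVec (X *ᵥ u) g = 1 + vecMulVec (X *ᵥ u) g + (X + X) := by rw [h2, add_zero]
      _ = (1 + X) * (1 + (X + vecMulVec (X *ᵥ u) g)) := by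
        rw [add_mul, one_mul, mul_add, mul_one, mul_add, hXX, hXZ]
        abel
  rw [hprod]
  exact Subgroup.mul_mem _ (Subgroup.subset_closure ⟨_, rfl⟩) (Subgroup.subset_closure ⟨_, rfl⟩)

theorem generate [Finite K] [CharP K 2] {j : ℕ} (hj : 1 ≤ j) (X₀ : MSq (K := K) (ι := ι) j) :
    Subgroup.closure (Set.range (rho : MSq (K := K) (ι := ι) j → _)) = ⊤ := by
  obtain ⟨Z, hZ⟩ := exists_transv hj X₀
  rw [eq_top_iff]
  intro A _
  refine (Subgroup.closure_le _).2 ?_ (Pool.Agent.Helper2.RO.tv_generate A)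
  rintro _ ⟨u, k, h, rfl⟩
  show Pool.Agent.Helper2.RO.tv u k h ∈ Subgroup.closure (Set.range (rho : MSq (K := K) (ι := ι) j → _))
  by_cases h0 : u = 0 ∨ k = 0
  · have h1 : Pool.Agent.Helper2.RO.tv u k h = 1 := by
      apply Subtype.ext
      show 1 + vecMulVec u k = 1
      rw [Pool.Agent.Helper2.RO.vec_eq_zero.2 h0, add_zero]
    rw [h1]
    exact Subgroup.one_mem _
  · rw [not_or] at h0
    obtain ⟨B, hB⟩ := trans (le_refl 1) Z.2 (vec_mem86 h0.1 h0.2 h)
    have h1 : Pool.Agent.Helper2.RO.tv u k h = B * rho Z * B⁻¹ := by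
      apply Subtype.ext
      show 1 + vecMulVec u k =
        (B : Matrix ι ι K) * (1 + (Z : Matrix ι ι K)) * ((B⁻¹ : SpecialLinearGroup ι K) : Matrix ι ι K)
      have h2 : (B : Matrix ι ι K) * ((B⁻¹ : SpecialLinearGroup ι K) : Matrix ι ι K) = 1 :=
        congrArg Subtype.val (mul_inv_cancel B)
      rw [← hB, mul_add, mul_one, add_mul, h2]
    rw [h1]
    exact conj_mem86 B hZ

end Pool.Agent.Helper2.EV
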