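import Pool.Agent.Helper2.EV.Defs

/-!
# Block EV-P2: square zero endomorphisms of the same rank are conjugate

Let `W` be a complement of `ker X` and `F` a complement of `range X` in `ker X` (`range_le_ker`). `W` has dimension `j` and `X`
maps it isomorphically onto `range X`, so `((w, w'), f) ↦ w + X w' + f` is an isomorphism `(W × W) × F ≃ V` (`n - 2 j` is the
dimension of `F`); the same for `Y` with `W'`, `F'`. Let `P` be the composition with isomorphisms `W ≃ W'`, `F ≃ F'` of spaces of
the same dimension: `P (w + X w' + f) = a w + Y (a w') + b f`, `P (X (w + X w' + f)) = P (X w) = Y (a w) = Y (P (...))`.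
Another way: bases.
-/

set_option autoImplicit false

open LinearMap

namespace Pool.Agent.Helper2.EV

variable {K : Type*} [Field K] {V : Type*} [AddCommGroup V] [Module K V] [FiniteDimensional K V]

/-- The normal form. -/
private theorem exists_form52 {j : ℕ} {X : Module.End K V} (hX : X ∈ Sq K V j) {m : ℕ}
    (hm : j + (j + m) = Module.finrank K V) :
    ∃ E : ((Fin j → K) × (Fin j → K) × (Fin m → K)) ≃ₗ[K] V, ∀ p, X (E p) = E (0, p.1, 0) := by
  have hj : Module.finrank K (Fin j → K) = Module.finrank K (range X) := by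
    rw [Module.finrank_fin_fun, hX.2]
  let u : (Fin j → K) ≃ₗ[K] range X := LinearEquiv.ofFinrankEq _ _ hj
  obtain ⟨g, hg⟩ := LinearMap.exists_rightInverse_of_surjective X.rangeRestrict
    (LinearMap.range_rangeRestrict X)
  have hg' : ∀ y : range X, X (g y) = y := by
    intro y
    have h1 : X.rangeRestrict (g y) = y := LinearMap.congr_fun hg y
    have h2 := congrArg Subtype.val h1
    exact h2
  obtain ⟨F, hF⟩ := Submodule.exists_isCompl ((range X).comap (ker X).subtype)
  have h3 : Module.finrank K ((range X).comap (ker X).subtype) = j := by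
    rw [LinearEquiv.finrank_eq (Submodule.comapSubtypeEquivOfLe (range_le_ker hX)), hX.2]
  have h4 := Submodule.finrank_add_eq_of_isCompl hF
  have h5 := LinearMap.finrank_range_add_finrank_ker X
  have h6 : Module.finrank K (range X) = j := hX.2
  have hmF : Module.finrank K (Fin m → K) = Module.finrank K F := by
    rw [Module.finrank_fin_fun]
    omega
  let v : (Fin m → K) ≃ₗ[K] F := LinearEquiv.ofFinrankEq _ _ hmF
  let T : ((Fin j → K) × (Fin j → K) × (Fin m → K)) →ₗ[K] V :=
    LinearMap.coprod (g ∘ₗ u.toLinearMap)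
      (LinearMap.coprod ((range X).subtype ∘ₗ u.toLinearMap)
        ((ker X).subtype ∘ₗ F.subtype ∘ₗ v.toLinearMap))
  have hT : ∀ p, T p = g (u p.1) + ((u p.2.1 : V) + ((v p.2.2 : ker X) : V)) := fun p => rfl
  have hXT : ∀ p, X (T p) = (u p.1 : V) := by
    intro p
    have h7 : X (u p.2.1 : V) = 0 := range_le_ker hX (u p.2.1).2
    have h8 : X ((v p.2.2 : ker X) : V) = 0 := (v p.2.2 : ker X).2
    rw [hT, map_add, map_add, hg', h7, h8, add_zero, add_zero]
  have hinj : Function.Injective T := by
    rw [← LinearMap.ker_eq_bot, LinearMap.ker_eq_bot']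
    intro p hp
    have h9 : (u p.1 : V) = 0 := by rw [← hXT, hp, map_zero]
    have h10 : u p.1 = 0 := Subtype.ext h9
    have h11 : p.1 = 0 := by
      rw [← u.map_eq_zero_iff]
      exact h10
    have h12 : (u p.2.1 : V) + ((v p.2.2 : ker X) : V) = 0 := by
      have := hT p
      rw [hp, h10, map_zero, zero_add] at this
      exact this.symm
    let y : ker X := ⟨(u p.2.1 : V), range_le_ker hX (u p.2.1).2⟩
    have h13 : y + (v p.2.2 : ker X) = 0 := Subtype.ext h12
    have h14 : y ∈ (range X).comap (ker X).subtype := (u p.2.1).2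
    have h15 : y = 0 := by
      apply Submodule.disjoint_def.1 hF.disjoint y h14
      rw [eq_neg_of_add_eq_zero_left h13]
      exact F.neg_mem (v p.2.2).2
    have h16' : (u p.2.1 : V) = 0 := congrArg (fun z : ker X => (z : V)) h15
    have h16 : u p.2.1 = 0 := Subtype.ext h16'
    have h17 : v p.2.2 = 0 := by
      rw [h15, zero_add] at h13
      exact Subtype.ext h13
    have h18 : p.2.1 = 0 := by
      rw [← u.map_eq_zero_iff]
      exact h16
    have h19 : p.2.2 = 0 := by
      rw [← v.map_eq_zero_iff]
      exact h17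
    exact Prod.ext h11 (Prod.ext h18 h19)
  have hdim : Module.finrank K ((Fin j → K) × (Fin j → K) × (Fin m → K)) =
      Module.finrank K V := by
    rw [Module.finrank_prod, Module.finrank_prod, Module.finrank_fin_fun, Module.finrank_fin_fun,
      hm]
  refine ⟨LinearMap.linearEquivOfInjective T hinj hdim, ?_⟩
  intro p
  rw [LinearMap.linearEquivOfInjective_apply, LinearMap.linearEquivOfInjective_apply, hXT, hT]
  simp

theorem exists_conj {j : ℕ} {X Y : Module.End K V} (hX : X ∈ Sq K V j) (hY : Y ∈ Sq K V j) :
    ∃ P : V ≃ₗ[K] V, ∀ v, P (X v) = Y (P v) := by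
  have h1 : j ≤ Module.finrank K (ker X) := by
    have h2 := Submodule.finrank_mono (range_le_ker hX)
    rw [hX.2] at h2
    exact h2
  have h5 := LinearMap.finrank_range_add_finrank_ker X
  have h6 : Module.finrank K (range X) = j := hX.2
  obtain ⟨m, hm⟩ := Nat.exists_eq_add_of_le h1
  have h7 : j + (j + m) = Module.finrank K V := by omega
  obtain ⟨E, hE⟩ := exists_form52 hX h7
  obtain ⟨E', hE'⟩ := exists_form52 hY h7
  refine ⟨E.symm.trans E', ?_⟩
  intro v
  obtain ⟨p, rfl⟩ := E.surjective v
  rw [hE, LinearEquiv.trans_apply, LinearEquiv.trans_apply, LinearEquiv.symm_apply_apply,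
    LinearEquiv.symm_apply_apply, hE']

end Pool.Agent.Helper2.EV
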