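import Pool.Agent.Helper2.EV.Conj
import Pool.Agent.Helper2.EV.GenC
import Pool.Agent.Helper2.EV.DescE
import Pool.Agent.Helper2.RO.Ext

/-!
# Project EV: assembly
-/

set_option autoImplicit false

open Matrix

namespace Pool.Agent.Helper2.EV

variable {K : Type*} [Field K] {ι : Type*} [Fintype ι] [DecidableEq ι]

/-- Permutations of `MSq j` which preserve the orders of products respect conjugation. -/
theorem conj_mat [CharP K 2] {j : ℕ} (hj : 1 ≤ j) (T : Equiv.Perm (MSq (K := K) (ι := ι) j))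
    (hT : ∀ X Y, X ≠ Y →
      orderOf ((1 + (T X : Matrix ι ι K)) * (1 + (T Y : Matrix ι ι K))) =
      orderOf ((1 + (X : Matrix ι ι K)) * (1 + (Y : Matrix ι ι K)))) (X Y : MSq j) :
    (T ⟨_, conj_one_add_mem_mat X.2.1 Y.2⟩ : Matrix ι ι K) =
      (1 + (T X : Matrix ι ι K)) * (T Y : Matrix ι ι K) * (1 + (T X : Matrix ι ι K)) := by
  let T' : Equiv.Perm (Sq K (ι → K) j) := ((eqv j).symm.trans T).trans (eqv j)
  have hT' : ∀ Z : MSq (K := K) (ι := ι) j, T' (eqv j Z) = eqv j (T Z) := by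
    intro Z
    show eqv j (T ((eqv j).symm (eqv j Z))) = _
    rw [Equiv.symm_apply_apply]
  have hord : ∀ Z Z' : MSq (K := K) (ι := ι) j,
      orderOf ((1 + (eqv j Z : Module.End K (ι → K))) * (1 + (eqv j Z' : Module.End K (ι → K)))) =
      orderOf ((1 + (Z : Matrix ι ι K)) * (1 + (Z' : Matrix ι ι K))) := by
    intro Z Z'
    rw [eqv_val, eqv_val, ← orderOf_injective
      (Matrix.toLinAlgEquiv' : Matrix ι ι K ≃ₐ[K] _).toRingEquiv.toMonoidHom
      (Matrix.toLinAlgEquiv' : Matrix ι ι K ≃ₐ[K] _).injective]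
    congr 1
    show _ = Matrix.toLinAlgEquiv' _
    rw [map_mul, map_add, map_add, map_one]
  have h1 := conj_perm hj T' (by
    intro A B hAB
    obtain ⟨Z, rfl⟩ := (eqv j).surjective A
    obtain ⟨Z', rfl⟩ := (eqv j).surjective B
    rw [hT', hT', hord, hord]
    exact hT Z Z' (fun h => hAB (by rw [h]))) (eqv j X) (eqv j Y)
  have h2 : (⟨_, conj_one_add_mem (eqv j X).2.1 (eqv j Y).2⟩ : Sq K (ι → K) j) =
      eqv j ⟨_, conj_one_add_mem_mat X.2.1 Y.2⟩ := by
    apply Subtype.ext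
    show (1 + Matrix.toLinAlgEquiv' (X : Matrix ι ι K)) * Matrix.toLinAlgEquiv' (Y : Matrix ι ι K) *
      (1 + Matrix.toLinAlgEquiv' (X : Matrix ι ι K)) =
      Matrix.toLinAlgEquiv' ((1 + (X : Matrix ι ι K)) * (Y : Matrix ι ι K) *
        (1 + (X : Matrix ι ι K)))
    rw [map_mul, map_mul, map_add, map_one]
  rw [h2, hT', hT', hT', eqv_val, eqv_val, eqv_val] at h1
  apply (Matrix.toLinAlgEquiv' : Matrix ι ι K ≃ₐ[K] _).injective
  rw [h1, map_mul, map_mul, map_add, map_one]

/-- The conjugacy class of a member is the whole family. -/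
theorem isConj_iff [Finite K] [CharP K 2] {j : ℕ} (hj : 1 ≤ j) (X : MSq (K := K) (ι := ι) j)
    (b : ProjectiveSpecialLinearGroup ι K) : IsConj (rh X) b ↔ ∃ Y : MSq j, rh Y = b := by
  constructor
  · intro hb
    obtain ⟨g, hg⟩ := _root_.isConj_iff.1 hb
    obtain ⟨A, rfl⟩ := QuotientGroup.mk_surjective g
    rw [rh_conj] at hg
    exact ⟨_, hg⟩
  · rintro ⟨Y, rfl⟩
    obtain ⟨A, hA⟩ := trans hj X.2 Y.2
    rw [_root_.isConj_iff]
    refine ⟨QuotientGroup.mk A, ?_⟩
    rw [rh_conj]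
    congr 1
    exact Subtype.ext hA

/-- The members generate `PSL(n, K)`. -/
theorem rh_generate [Finite K] [CharP K 2] {j : ℕ} (hj : 1 ≤ j) (X₀ : MSq (K := K) (ι := ι) j) :
    Subgroup.closure (Set.range (rh : MSq (K := K) (ι := ι) j → _)) = ⊤ := by
  have h1 := generate hj X₀
  have h2 : Set.range (rh : MSq (K := K) (ι := ι) j → ProjectiveSpecialLinearGroup ι K) =
      (QuotientGroup.mk' (Subgroup.center (SpecialLinearGroup ι K))) ''
        Set.range (rho : MSq (K := K) (ι := ι) j → _) := by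
    rw [← Set.range_comp]
    rfl
  rw [h2, ← MonoidHom.map_closure, h1]
  exact Subgroup.map_top_of_surjective _ (QuotientGroup.mk'_surjective _)

/-- The action on the members is faithful. -/
theorem faithful [Finite K] [CharP K 2] [Nonempty ι] {j : ℕ} (hj : 1 ≤ j)
    (X₀ : MSq (K := K) (ι := ι) j) (g : ProjectiveSpecialLinearGroup ι K)
    (hg : ∀ X : MSq (K := K) (ι := ι) j, g * rh X * g⁻¹ = rh X) : g = 1 := by
  obtain ⟨A, rfl⟩ := QuotientGroup.mk_surjective g
  have h1 : ∀ X : MSq (K := K) (ι := ι) j, A * rho X = rho X * A := by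
    intro X
    have h2 := hg X
    rw [rh_conj] at h2
    have h3 := congrArg Subtype.val (rh_inj h2)
    change (A : Matrix ι ι K) * X * ((A⁻¹ : SpecialLinearGroup ι K) : Matrix ι ι K) = X at h3
    have h4 : ((A⁻¹ : SpecialLinearGroup ι K) : Matrix ι ι K) * (A : Matrix ι ι K) = 1 :=
      congrArg Subtype.val (inv_mul_cancel A)
    have h5 : (A : Matrix ι ι K) * X = X * A := by
      calc (A : Matrix ι ι K) * X = (A : Matrix ι ι K) * X *
            (((A⁻¹ : SpecialLinearGroup ι K) : Matrix ι ι K) * (A : Matrix ι ι K)) := by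
            rw [h4, mul_one]
        _ = X * A := by rw [← mul_assoc, h3]
    apply Subtype.ext
    show (A : Matrix ι ι K) * (1 + X) = (1 + X) * A
    rw [mul_add, add_mul, h5, mul_one, one_mul]
  have h6 : A ∈ Subgroup.center (SpecialLinearGroup ι K) := by
    rw [Subgroup.mem_center_iff]
    intro B
    have hB : B ∈ Subgroup.closure (Set.range (rho : MSq (K := K) (ι := ι) j → _)) := by
      rw [generate hj X₀]
      exact Subgroup.mem_top B
    induction hB using Subgroup.closure_induction with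
    | mem x hx =>
      obtain ⟨X, rfl⟩ := hx
      exact (h1 X).symm
    | one => rw [one_mul, mul_one]
    | mul x y _ _ hx hy => rw [mul_assoc, hy, ← mul_assoc, hx, mul_assoc]
    | inv x _ hx => rw [inv_mul_eq_iff_eq_mul, ← mul_assoc, hx, mul_inv_cancel_right]
  exact (QuotientGroup.eq_one_iff A).2 h6

/-- The theorem. -/
theorem all_classes [Finite K] [CharP K 2] [Nonempty ι] (a : ProjectiveSpecialLinearGroup ι K)
    (ha : orderOf a = 2)
    (τ : Equiv.Perm {b : ProjectiveSpecialLinearGroup ι K // IsConj a b})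
    (hτ : ∀ x y, x ≠ y → orderOf ((τ x : ProjectiveSpecialLinearGroup ι K) * τ y) =
      orderOf ((x : ProjectiveSpecialLinearGroup ι K) * y)) :
    ∃ φ : MulAut (ProjectiveSpecialLinearGroup ι K),
      φ '' {b | IsConj a b} = {b | IsConj a b} ∧ ∀ x, φ x.1 = (τ x).1 := by
  classical
  obtain ⟨j, hj, X₀, rfl⟩ := desc a ha
  have hinj := rh_inj (K := K) (ι := ι) (j := j)
  let e : MSq (K := K) (ι := ι) j ≃
      {b : ProjectiveSpecialLinearGroup ι K // IsConj (rh X₀) b} :=
    Equiv.ofBijective (fun X => ⟨rh X, (isConj_iff hj X₀ _).2 ⟨X, rfl⟩⟩)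
      ⟨fun X Y hXY => hinj (congrArg Subtype.val hXY), fun b => by
        obtain ⟨Y, hY⟩ := (isConj_iff hj X₀ _).1 b.2
        exact ⟨Y, Subtype.ext hY⟩⟩
  have he : ∀ X, ((e X : {b : ProjectiveSpecialLinearGroup ι K // IsConj (rh X₀) b}) :
      ProjectiveSpecialLinearGroup ι K) = rh X := fun X => rfl
  let T : Equiv.Perm (MSq (K := K) (ι := ι) j) := (e.trans τ).trans e.symm
  have hT : ∀ X, rh (T X) = (τ (e X)).1 := by
    intro X
    rw [← he]
    show (e (e.symm (τ (e X)))).1 = _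
    rw [Equiv.apply_symm_apply]
  have hord : ∀ X Y, X ≠ Y →
      orderOf ((1 + (T X : Matrix ι ι K)) * (1 + (T Y : Matrix ι ι K))) =
      orderOf ((1 + (X : Matrix ι ι K)) * (1 + (Y : Matrix ι ι K))) := by
    intro X Y hXY
    rw [← order_eq, ← order_eq, hT, hT, hτ _ _ (fun hc => hXY (e.injective hc))]
    rfl
  have hcj := conj_mat hj T hord
  obtain ⟨φ, hφ⟩ := RO.extend (rh (K := K) (ι := ι) (j := j)) hinj
    (fun g X => by
      obtain ⟨A, rfl⟩ := QuotientGroup.mk_surjective g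
      exact ⟨_, rh_conj A X⟩)
    (rh_generate hj X₀) (faithful hj X₀) T (by
      intro x y z hz
      rw [rh_conj_rh] at hz
      have h1 := hinj hz
      rw [rh_conj_rh, ← h1]
      congr 1
      exact Subtype.ext (hcj x y).symm)
  have hφ' : ∀ x : {b : ProjectiveSpecialLinearGroup ι K // IsConj (rh X₀) b},
      φ x.1 = (τ x).1 := by
    intro x
    obtain ⟨X, rfl⟩ := e.surjective x
    rw [he, hφ, hT]
  refine ⟨φ, ?_, hφ'⟩
  ext b
  constructor
  · rintro ⟨x, hx, rfl⟩
    rw [hφ' ⟨x, hx⟩]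
    exact (τ ⟨x, hx⟩).2
  · intro hb
    refine ⟨(τ.symm ⟨b, hb⟩).1, (τ.symm ⟨b, hb⟩).2, ?_⟩
    rw [hφ', Equiv.apply_symm_apply]

end Pool.Agent.Helper2.EV
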