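import Pool.Agent.Helper2.EV.Defs

/-!
# Project EV: square zero matrices

`MSq j`: the matrices `X` with `X X = 0` of rank `j`. In characteristic two `1 + X` has determinant one;
`rho` is the element of `SL(n, K)`, `rh` the element of `PSL(n, K)`.
-/

set_option autoImplicit false

open Matrix

namespace Pool.Agent.Helper2.EV

variable {K : Type*} [Field K] {ι : Type*} [Fintype ι] [DecidableEq ι]

/-- Square zero matrices of rank `j`. -/
def MSq (j : ℕ) : Set (Matrix ι ι K) := {X | X * X = 0 ∧ X.rank = j}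

theorem toLin_mem {j : ℕ} (X : Matrix ι ι K) :
    (Matrix.toLinAlgEquiv' X : Module.End K (ι → K)) ∈ Sq K (ι → K) j ↔ X ∈ MSq j := by
  unfold Sq MSq
  rw [Set.mem_ofPred_eq, Set.mem_ofPred_eq, ← map_mul]
  have h1 : (Matrix.toLinAlgEquiv' (X * X) : Module.End K (ι → K)) = 0 ↔ X * X = 0 := by
    rw [map_eq_zero_iff _ Matrix.toLinAlgEquiv'.injective]
  rw [h1]
  rfl

theorem mone_add_sq [CharP K 2] {X : Matrix ι ι K} (h : X * X = 0) : (1 + X) * (1 + X) = 1 := by
  have h2 : X + X = 0 := by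
    have : (2 : K) = 0 := CharP.cast_eq_zero K 2
    rw [← two_smul K, this, zero_smul]
  rw [mul_add, mul_one, add_mul, one_mul, h, add_zero, add_assoc, h2, add_zero]

/-- The matrices of `Sq` and `MSq`. -/
noncomputable def eqv (j : ℕ) : MSq (K := K) (ι := ι) j ≃ Sq K (ι → K) j :=
  Matrix.toLinAlgEquiv'.toEquiv.subtypeEquiv fun X => (toLin_mem X).symm

theorem eqv_val {j : ℕ} (X : MSq (K := K) (ι := ι) j) :
    (eqv j X : Module.End K (ι → K)) = Matrix.toLinAlgEquiv' (X : Matrix ι ι K) := rfl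

theorem conj_mem_mat {j : ℕ} {A B X : Matrix ι ι K} (hBA : B * A = 1) (hX : X ∈ MSq j) :
    A * X * B ∈ MSq j := by
  have hAB : A * B = 1 := mul_eq_one_comm.1 hBA
  constructor
  · have h1 : A * X * B * (A * X * B) = A * (X * (B * A) * X) * B := by simp only [mul_assoc]
    rw [h1, hBA, mul_one, hX.1, mul_zero, zero_mul]
  · have hA : IsUnit A.det := (Matrix.isUnit_iff_isUnit_det A).1 (IsUnit.of_mul_eq_one B hAB)
    have hB : IsUnit B.det := (Matrix.isUnit_iff_isUnit_det B).1 (IsUnit.of_mul_eq_one A hBA)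
    rw [Matrix.rank_mul_eq_left_of_isUnit_det B (A * X) hB,
      Matrix.rank_mul_eq_right_of_isUnit_det A X hA]
    exact hX.2

theorem conj_one_add_mem_mat [CharP K 2] {j : ℕ} {X Y : Matrix ι ι K} (hX : X * X = 0)
    (hY : Y ∈ MSq j) : (1 + X) * Y * (1 + X) ∈ MSq j :=
  conj_mem_mat (mone_add_sq hX) hY

theorem det_one_add [CharP K 2] {X : Matrix ι ι K} (h : X * X = 0) : det (1 + X) = 1 := by
  have h1 : det (1 + X) * det (1 + X) = 1 := by
    rw [← det_mul, mone_add_sq h, det_one]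
  have h2 : (det (1 + X) - 1) * (det (1 + X) - 1) = 0 := by
    have h3 : (2 : K) = 0 := CharP.cast_eq_zero K 2
    linear_combination h1 + (1 - det (1 + X)) * h3
  exact sub_eq_zero.1 (mul_self_eq_zero.1 h2)

/-- The element of `SL(n, K)`. -/
def rho [CharP K 2] {j : ℕ} (X : MSq (K := K) (ι := ι) j) : SpecialLinearGroup ι K :=
  ⟨1 + X, det_one_add X.2.1⟩

/-- The element of `PSL(n, K)`. -/
def rh [CharP K 2] {j : ℕ} (X : MSq (K := K) (ι := ι) j) : ProjectiveSpecialLinearGroup ι K :=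
  QuotientGroup.mk (rho X)

theorem sl_conj_mem {j : ℕ} (A : SpecialLinearGroup ι K) {X : Matrix ι ι K} (hX : X ∈ MSq j) :
    (A : Matrix ι ι K) * X * ((A⁻¹ : SpecialLinearGroup ι K) : Matrix ι ι K) ∈ MSq j := by
  refine conj_mem_mat ?_ hX
  exact congrArg Subtype.val (inv_mul_cancel A)

end Pool.Agent.Helper2.EV
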