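import Mathlib

/-!
# Block EV-A1: a singular endomorphism times some automorphism is nilpotent

Let `B` be a singular endomorphism of the finite-dimensional space `W`. Choose a basis `e_1, ..., e_d` of
the kernel (`d ≥ 1`) and extend it to a basis `e_1, ..., e_j` of `W`. `B e_{d+1}, ..., B e_j` are independent, so there is
an automorphism `A` with `A (B e_i) = e_{i-1}` for `i > d`; `A B` maps `e_i` to `e_{i-1}` or `0`.
Another way: an increasing chain `0 = F_0 < F_1 ≤ ... ≤ F_k = W` with `F_1 = ker B` and `dim F_{i+1} - dim F_i ≤ d`; or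
induction on the dimension (the statement for `B : W → W'` with `dim W = dim W'`, `A : W' ≃ W`).
-/

set_option autoImplicit false

open LinearMap

namespace Pool.Agent.Helper2.EV

variable {K : Type*} [Field K]

/-- Every nonzero subspace is the kernel of a nilpotent endomorphism. -/
private theorem exists_nilpotent_ker19 {W : Type*} [AddCommGroup W] [Module K W]
    [FiniteDimensional K W] (N : Submodule K W) (hN : N ≠ ⊥) :
    ∃ T : Module.End K W, IsNilpotent T ∧ ker T = N := by
  classical
  obtain ⟨C, hC⟩ := N.exists_isCompl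
  set d := Module.finrank K N with hd
  set m := Module.finrank K C with hm
  have hd1 : 1 ≤ d := by
    rw [hd]
    have : 0 < Module.finrank K N := by
      rw [Module.finrank_pos_iff]
      exact Submodule.nontrivial_iff_ne_bot.mpr hN
    omega
  have hsum : d + m = Module.finrank K W := Submodule.finrank_add_eq_of_isCompl hC
  let bN : Module.Basis (Fin d) K N := Module.finBasis K N
  let bC : Module.Basis (Fin m) K C := Module.finBasis K C
  let b : Module.Basis (Fin (d + m)) K W :=
    ((bN.prod bC).map (Submodule.prodEquivOfIsCompl N C hC)).reindex finSumFinEquiv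
  let T : Module.End K W := b.constr K (fun i : Fin (d + m) =>
    if h : (i : ℕ) < d then (0 : W) else b ⟨(i : ℕ) - 1, by omega⟩)
  have hT0 : ∀ i : Fin (d + m), (i : ℕ) < d → T (b i) = 0 := by
    intro i hi
    simp only [T, Module.Basis.constr_basis, dif_pos hi]
  have hT1 : ∀ i : Fin (d + m), ∀ h : ¬ (i : ℕ) < d, T (b i) = b ⟨(i : ℕ) - 1, by omega⟩ := by
    intro i hi
    simp only [T, Module.Basis.constr_basis, dif_neg hi]
  have hpow : ∀ k : ℕ, ∀ i : Fin (d + m), (i : ℕ) < k → (T ^ k) (b i) = 0 := by
    intro k
    induction k with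
    | zero => intro i hi; omega
    | succ k ih =>
      intro i hi
      rw [pow_succ, Module.End.mul_apply]
      by_cases h : (i : ℕ) < d
      · rw [hT0 i h, map_zero]
      · rw [hT1 i h]
        apply ih
        simp only
        omega
  refine ⟨T, ⟨d + m, ?_⟩, ?_⟩
  · apply b.ext
    intro i
    rw [hpow (d + m) i i.2]
    simp
  · have hle : N ≤ ker T := by
      intro x hx
      have hx' : x = ((⟨x, hx⟩ : N) : W) := rfl
      rw [mem_ker, hx', ← bN.sum_repr ⟨x, hx⟩]
      rw [Submodule.coe_sum, map_sum]
      apply Finset.sum_eq_zero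
      intro i _
      rw [Submodule.coe_smul, map_smul]
      have : ((bN i : N) : W) = b (finSumFinEquiv (Sum.inl i)) := by simp [b]
      rw [this, hT0 _ (by simp), smul_zero]
    symm
    apply Submodule.eq_of_le_of_finrank_le hle
    -- the range contains `m` independent vectors
    have hrange : m ≤ Module.finrank K (range T) := by
      let v : Fin m → range T := fun i =>
        ⟨b ⟨(i : ℕ) + d - 1, by omega⟩, by
          refine ⟨b ⟨(i : ℕ) + d, by omega⟩, ?_⟩
          rw [hT1 _ (by simp)]⟩
      have hv : LinearIndependent K v := by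
        apply LinearIndependent.of_comp (range T).subtype
        have : ((range T).subtype ∘ v) = b ∘ (fun i : Fin m => (⟨(i : ℕ) + d - 1, by omega⟩ : Fin (d + m))) := by
          funext i
          rfl
        rw [this]
        apply b.linearIndependent.comp
        intro i j hij
        have := congrArg Fin.val hij
        simp only at this
        apply Fin.ext
        omega
      have := hv.fintype_card_le_finrank
      simpa using this
    have h1 := LinearMap.finrank_range_add_finrank_ker T
    omega

/-- Two endomorphisms with the same kernel differ by an automorphism. -/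
private theorem exists_aut_of_ker_eq19 {W : Type*} [AddCommGroup W] [Module K W]
    [FiniteDimensional K W] (B T : Module.End K W) (h : ker B = ker T) :
    ∃ A : W ≃ₗ[K] W, (A : Module.End K W) * B = T := by
  obtain ⟨R, hR⟩ := (range B).exists_isCompl
  obtain ⟨S, hS⟩ := (range T).exists_isCompl
  let e1 : range B ≃ₗ[K] range T :=
    B.quotKerEquivRange.symm ≪≫ₗ Submodule.quotEquivOfEq _ _ h ≪≫ₗ T.quotKerEquivRange
  have hdim : Module.finrank K R = Module.finrank K S := by
    have h1 := Submodule.finrank_add_eq_of_isCompl hR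
    have h2 := Submodule.finrank_add_eq_of_isCompl hS
    have h3 := e1.finrank_eq
    omega
  let e2 : R ≃ₗ[K] S := LinearEquiv.ofFinrankEq R S hdim
  let A : W ≃ₗ[K] W := (Submodule.prodEquivOfIsCompl _ _ hR).symm ≪≫ₗ
    (LinearEquiv.prodCongr e1 e2) ≪≫ₗ Submodule.prodEquivOfIsCompl _ _ hS
  refine ⟨A, ?_⟩
  ext x
  have hx : B x = ((⟨B x, ⟨x, rfl⟩⟩ : range B) : W) := rfl
  have he : e1 ⟨B x, ⟨x, rfl⟩⟩ = ⟨T x, ⟨x, rfl⟩⟩ := by
    have hq : B.quotKerEquivRange.symm ⟨B x, ⟨x, rfl⟩⟩ = Submodule.Quotient.mk x := by
      rw [LinearEquiv.symm_apply_eq]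
      apply Subtype.ext
      rw [LinearMap.quotKerEquivRange_apply_mk]
    simp only [e1, LinearEquiv.trans_apply, hq, Submodule.quotEquivOfEq_mk]
    apply Subtype.ext
    rw [LinearMap.quotKerEquivRange_apply_mk]
  rw [Module.End.mul_apply]
  simp only [A, LinearEquiv.coe_coe, LinearEquiv.trans_apply]
  rw [hx, Submodule.prodEquivOfIsCompl_symm_apply_left]
  simp only [LinearEquiv.prodCongr_apply, he, map_zero]
  simp

theorem exists_nil {W : Type*} [AddCommGroup W] [Module K W] [FiniteDimensional K W]
    (B : Module.End K W) (hB : ker B ≠ ⊥) :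
    ∃ A : W ≃ₗ[K] W, IsNilpotent ((A : Module.End K W) * B) := by
  obtain ⟨T, hT, hk⟩ := exists_nilpotent_ker19 (ker B) hB
  obtain ⟨A, hA⟩ := exists_aut_of_ker_eq19 B T hk.symm
  exact ⟨A, by rw [hA]; exact hT⟩

end Pool.Agent.Helper2.EV
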