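import Pool.Agent.Helper2.EV.Defs
import Pool.Agent.Helper2.EV.NilA

/-!
# Block EV-A2: opposite elements and nilpotent products

`opp_iff`, from left to right: let `A` have the kernel and image of `R`. For `0 ≠ w` in `range R`: `M w ≠ 0`
(`range R` meets `ker M` in `0`), `A M w ≠ 0` (`range M` meets `ker R` in `0`), and `A M w` is again in `range R`, so
`(A M)^k w ≠ 0` for all `k` (`range R ≠ 0`, as `1 ≤ j`). From right to left: if `Opp R M` fails then `B = R M` restricted to
`W = range R` is not injective (if `w ≠ 0` in `range R ∩ ker M`, `B w = 0`; otherwise `M` is injective on `W`, so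
`range M = M W` by dimensions, and `0 ≠ M w` in `ker R` gives `B w = 0`). Take `A₀` from `exists_nil` and `A = A₀ R`.
It has the kernel and image of `R`, square zero, and `A M` maps `V` to `W` and is nilpotent on `W`.
-/

set_option autoImplicit false

open LinearMap

namespace Pool.Agent.Helper2.EV

variable {K : Type*} [Field K]

variable {V : Type*} [AddCommGroup V] [Module K V] [FiniteDimensional K V]

theorem opp_iff {j : ℕ} (hj : 1 ≤ j) {R M : Module.End K V} (hR : R ∈ Sq K V j)
    (hM : M ∈ Sq K V j) : Opp R M ↔ ∀ A ∈ Sq K V j, ker A = ker R → range A = range R →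
      ¬ IsNilpotent (A * M) := by
  constructor
  · rintro ⟨h1, h2⟩ A hA hk hr ⟨m, hm⟩
    rw [Submodule.disjoint_def] at h1 h2
    have step : ∀ k : ℕ, ∀ w ∈ range R, w ≠ 0 →
        ((A * M) ^ k) w ∈ range R ∧ ((A * M) ^ k) w ≠ 0 := by
      intro k
      induction k with
      | zero =>
        intro w hw hw0
        exact ⟨by simpa using hw, by simpa using hw0⟩
      | succ k ih =>
        intro w hw hw0
        obtain ⟨h3, h4⟩ := ih w hw hw0
        rw [pow_succ', Module.End.mul_apply, Module.End.mul_apply]
        refine ⟨by rw [← hr]; exact ⟨_, rfl⟩, fun h5 => ?_⟩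
        have h6 : M (((A * M) ^ k) w) ∈ ker R := by
          rw [← hk]
          exact h5
        have h7 := h1 _ ⟨_, rfl⟩ h6
        exact h4 (h2 _ h3 h7)
    have hne : range R ≠ ⊥ := by
      intro h3
      have h4 := hR.2
      rw [h3, finrank_bot] at h4
      omega
    obtain ⟨w, hw, hw0⟩ := Submodule.exists_mem_ne_zero_of_ne_bot hne
    apply (step m w hw hw0).2
    rw [hm]
    rfl
  · intro H
    by_contra hopp
    -- the restriction of `R M` to the range of `R`
    let W := range R
    let r : V →ₗ[K] W := R.rangeRestrict
    let B : Module.End K W := r ∘ₗ M ∘ₗ W.subtype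
    have hBapp : ∀ w : W, ((B w : W) : V) = R (M w) := fun w => rfl
    have hB : ker B ≠ ⊥ := by
      intro hB0
      have hinj : ∀ w ∈ W, R (M w) = 0 → w = 0 := by
        intro w hw h3
        have h4 : (⟨w, hw⟩ : W) ∈ ker B := by
          rw [mem_ker]
          ext
          rw [hBapp]
          exact h3
        rw [hB0, Submodule.mem_bot] at h4
        exact congrArg Subtype.val h4
      apply hopp
      refine ⟨?_, ?_⟩
      · rw [Submodule.disjoint_def]
        intro y hy hy2
        have hle : W.map M ≤ range M := LinearMap.map_le_range
        have hdim : Module.finrank K (W.map M) = Module.finrank K (range M) := by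
          have h5 : Module.finrank K (range (M ∘ₗ W.subtype)) = Module.finrank K W := by
            apply LinearMap.finrank_range_of_inj
            rw [← LinearMap.ker_eq_bot, LinearMap.ker_eq_bot']
            intro w hw
            ext
            apply hinj w w.2
            have : M (w : V) = 0 := hw
            rw [this, map_zero]
          rw [hM.2, ← hR.2]
          rw [LinearMap.range_comp, Submodule.range_subtype] at h5
          exact h5
        have heq := Submodule.eq_of_le_of_finrank_eq hle hdim
        rw [← heq] at hy
        obtain ⟨w, hw, rfl⟩ := hy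
        rw [hinj w hw hy2, map_zero]
      · rw [Submodule.disjoint_def]
        intro w hw hw2
        apply hinj w hw
        rw [show M w = 0 from hw2, map_zero]
    obtain ⟨A₀, k, hA₀⟩ := exists_nil B hB
    let A : Module.End K V := W.subtype ∘ₗ (A₀ : W →ₗ[K] W) ∘ₗ r
    have hAapp : ∀ x : V, A x = ((A₀ (r x) : W) : V) := fun x => rfl
    have hker : ker A = ker R := by
      ext x
      rw [mem_ker, mem_ker, hAapp]
      constructor
      · intro h3
        have h4 : A₀ (r x) = 0 := Subtype.ext h3
        have h5 : r x = 0 := by simpa using h4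
        exact congrArg Subtype.val h5
      · intro h3
        have h5 : r x = 0 := Subtype.ext h3
        rw [h5, map_zero]
        rfl
    have hrange : range A = range R := by
      ext y
      constructor
      · rintro ⟨x, rfl⟩
        exact (A₀ (r x)).2
      · intro hy
        obtain ⟨x, hx⟩ := LinearMap.surjective_rangeRestrict R (A₀.symm ⟨y, hy⟩)
        refine ⟨x, ?_⟩
        rw [hAapp, show r x = A₀.symm ⟨y, hy⟩ from hx, LinearEquiv.apply_symm_apply]
    have hA : A ∈ Sq K V j := by
      refine ⟨?_, by rw [hrange]; exact hR.2⟩
      ext x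
      have h3 : A x ∈ range R := by rw [← hrange]; exact ⟨x, rfl⟩
      have h4 : A x ∈ ker A := by
        rw [hker]
        exact range_le_ker hR h3
      exact h4
    apply H A hA hker hrange
    have hpow : ∀ (n : ℕ) (w : W), ((A * M) ^ n) (w : V) = (((((A₀ : Module.End K W) * B) ^ n) w : W) : V) := by
      intro n
      induction n with
      | zero => intro w; rfl
      | succ n ih =>
        intro w
        have h8 := ih (((A₀ : Module.End K W) * B) w)
        rw [pow_succ, pow_succ, Module.End.mul_apply]
        exact h8
    refine ⟨k + 1, ?_⟩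
    ext x
    rw [pow_succ, Module.End.mul_apply]
    have h3 : (A * M) x ∈ W := by
      change (A * M) x ∈ range R
      rw [← hrange]
      exact ⟨_, rfl⟩
    have h4 := hpow k ⟨_, h3⟩
    rw [hA₀] at h4
    exact h4

end Pool.Agent.Helper2.EV
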