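import Pool.Agent.Helper2.EV.Defs
import Pool.Agent.Helper2.EV.Compl

/-!
# Block EV-H: elements opposite to two elements, given kernel

`C` has dimension `n - j`. As `range Nᵢ ≤ ker Nᵢ`, `C ⊔ ker Nᵢ = ⊤`, so `C ∩ ker N₁` and
`C ∩ ker N₂` have the same dimension `n - 2 j` (`dim ker Nᵢ = n - j`). By `common_compl_in` there is a `W ≤ C` with
`Disjoint (C ∩ ker Nᵢ) W` and `(C ∩ ker Nᵢ) ⊔ W = C`, so `dim W = j` and `Disjoint W (ker Nᵢ)`. Let `M` be a linear map with kernel `C`
and image `W`. `M M = 0` as `W ≤ C`.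
-/

set_option autoImplicit false

open LinearMap

namespace Pool.Agent.Helper2.EV

variable {K : Type*} [Field K] {V : Type*} [AddCommGroup V] [Module K V] [FiniteDimensional K V]

/-- A linear map with given kernel and image. -/
theorem exists_ker_range (C W : Submodule K V)
    (h : Module.finrank K C + Module.finrank K W = Module.finrank K V) :
    ∃ M : Module.End K V, ker M = C ∧ range M = W := by
  have h1 : Module.finrank K (V ⧸ C) = Module.finrank K W := by
    have := Submodule.finrank_quotient_add_finrank C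
    omega
  let e : (V ⧸ C) ≃ₗ[K] W := LinearEquiv.ofFinrankEq (V ⧸ C) W h1
  refine ⟨W.subtype ∘ₗ e.toLinearMap ∘ₗ C.mkQ, ?_, ?_⟩
  · rw [LinearMap.ker_comp_of_ker_eq_bot _ (Submodule.ker_subtype W),
      LinearMap.ker_comp_of_ker_eq_bot _ e.ker]
    exact C.ker_mkQ
  · rw [LinearMap.range_comp, LinearMap.range_comp, Submodule.range_mkQ, Submodule.map_top,
      e.range, Submodule.map_top, Submodule.range_subtype]

theorem exists_opp {j : ℕ} {N₁ N₂ : Module.End K V} (h₁ : N₁ ∈ Sq K V j) (h₂ : N₂ ∈ Sq K V j)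
    (C : Submodule K V) (hC₁ : IsCompl (range N₁) C) (hC₂ : IsCompl (range N₂) C) :
    ∃ M ∈ Sq K V j, ker M = C ∧ Opp N₁ M ∧ Opp N₂ M := by
  have dim : ∀ N ∈ Sq K V j, IsCompl (range N) C →
      Module.finrank K (C ⊓ ker N : Submodule K V) + Module.finrank K V
        = Module.finrank K C + Module.finrank K (ker N) := by
    intro N hN hC
    have h3 : C ⊔ ker N = ⊤ := by
      apply top_unique
      rw [← hC.sup_eq_top, sup_comm]
      exact sup_le_sup_left (range_le_ker hN) C
    have h4 := Submodule.finrank_sup_add_finrank_inf_eq C (ker N)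
    rw [h3, finrank_top] at h4
    omega
  have k1 := LinearMap.finrank_range_add_finrank_ker N₁
  have k2 := LinearMap.finrank_range_add_finrank_ker N₂
  have r1 := h₁.2
  have r2 := h₂.2
  have d1 := dim N₁ h₁ hC₁
  have d2 := dim N₂ h₂ hC₂
  have c1 := Submodule.finrank_add_eq_of_isCompl hC₁
  obtain ⟨W, hWC, hd1, hd2, hs1, hs2⟩ := common_compl_in C (C ⊓ ker N₁) (C ⊓ ker N₂) inf_le_left
    inf_le_left (by omega)
  have h5 := Submodule.finrank_sup_add_finrank_inf_eq (C ⊓ ker N₁) W
  rw [hs1, hd1.eq_bot, finrank_bot] at h5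
  obtain ⟨M, hM1, hM2⟩ := exists_ker_range C W (by omega)
  refine ⟨M, ⟨?_, ?_⟩, hM1, ⟨?_, ?_⟩, ⟨?_, ?_⟩⟩
  · ext x
    have : M x ∈ ker M := by
      rw [hM1]
      apply hWC
      rw [← hM2]
      exact ⟨x, rfl⟩
    exact this
  · rw [hM2]
    omega
  · rw [hM2, Submodule.disjoint_def]
    intro x hx hx1
    exact (Submodule.disjoint_def.1 hd1) x ⟨hWC hx, hx1⟩ hx
  · rw [hM1]
    exact hC₁.disjoint
  · rw [hM2, Submodule.disjoint_def]
    intro x hx hx1
    exact (Submodule.disjoint_def.1 hd2) x ⟨hWC hx, hx1⟩ hx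
  · rw [hM1]
    exact hC₂.disjoint

end Pool.Agent.Helper2.EV
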