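import Pool.Agent.Helper2.EV.OppA

/-!
# Block EV-I: elements opposite to two elements, given image

`W` has dimension `j` (`dim ker Nᵢ = n - j`). `W ⊔ range N₁` and `W ⊔ range N₂` have dimension `2 j` (`range Nᵢ ≤ ker Nᵢ`, so
`Disjoint W (range Nᵢ)`). Let `F` be a common complement of both (`common_compl`), `C = W ⊔ F`. Then `C` is a common complement
of `range N₁`, `range N₂`, of dimension `n - j`. `M` with kernel `C` and image `W`: `exists_ker_range`.
-/

set_option autoImplicit false

open LinearMap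

namespace Pool.Agent.Helper2.EV

variable {K : Type*} [Field K] {V : Type*} [AddCommGroup V] [Module K V] [FiniteDimensional K V]

omit [FiniteDimensional K V] in
private theorem isCompl_sup99 {A W F : Submodule K V} (h : Disjoint W A) (hF : IsCompl (W ⊔ A) F) :
    IsCompl A (W ⊔ F) := by
  constructor
  · rw [Submodule.disjoint_def]
    intro x hx hx'
    obtain ⟨w, hw, f, hf, rfl⟩ := Submodule.mem_sup.1 hx'
    have h1 : f ∈ W ⊔ A := by
      have h2 : f = (w + f) - w := by abel
      rw [h2]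
      exact Submodule.sub_mem _ (Submodule.mem_sup_right hx) (Submodule.mem_sup_left hw)
    have h3 : f = 0 := Submodule.disjoint_def.1 hF.disjoint f h1 hf
    subst h3
    rw [add_zero] at hx ⊢
    exact Submodule.disjoint_def.1 h w hw hx
  · rw [codisjoint_iff, ← sup_assoc, sup_comm A W]
    exact hF.sup_eq_top

theorem exists_opp' {j : ℕ} {N₁ N₂ : Module.End K V} (h₁ : N₁ ∈ Sq K V j) (h₂ : N₂ ∈ Sq K V j)
    (W : Submodule K V) (hW₁ : IsCompl (ker N₁) W) (hW₂ : IsCompl (ker N₂) W) :
    ∃ M ∈ Sq K V j, range M = W ∧ Opp N₁ M ∧ Opp N₂ M := by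
  have e1 : Disjoint W (range N₁) := hW₁.disjoint.symm.mono_right (range_le_ker h₁)
  have e2 : Disjoint W (range N₂) := hW₂.disjoint.symm.mono_right (range_le_ker h₂)
  have d1 := Submodule.finrank_sup_add_finrank_inf_eq W (range N₁)
  have d2 := Submodule.finrank_sup_add_finrank_inf_eq W (range N₂)
  rw [e1.eq_bot, finrank_bot, add_zero, h₁.2] at d1
  rw [e2.eq_bot, finrank_bot, add_zero, h₂.2] at d2
  obtain ⟨F, hF₁, hF₂⟩ := common_compl (W ⊔ range N₁) (W ⊔ range N₂) (d1.trans d2.symm)
  have c1 := isCompl_sup99 e1 hF₁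
  have c2 := isCompl_sup99 e2 hF₂
  have hW : Module.finrank K W = j := by
    have h3 := Submodule.finrank_add_eq_of_isCompl hW₁
    have h4 := LinearMap.finrank_range_add_finrank_ker N₁
    have h5 := h₁.2
    omega
  have hC : Module.finrank K (W ⊔ F : Submodule K V) + Module.finrank K W = Module.finrank K V := by
    have h3 := Submodule.finrank_add_eq_of_isCompl c1
    have h5 := h₁.2
    omega
  obtain ⟨M, hM, hR⟩ := exists_ker_range (W ⊔ F) W hC
  refine ⟨M, ⟨?_, ?_⟩, hR, ⟨?_, ?_⟩, ⟨?_, ?_⟩⟩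
  · ext x
    have h6 : M x ∈ ker M := by
      rw [hM]
      refine Submodule.mem_sup_left ?_
      rw [← hR]
      exact ⟨x, rfl⟩
    exact h6
  · rw [hR, hW]
  · rw [hR]
    exact hW₁.disjoint.symm
  · rw [hM]
    exact c1.disjoint
  · rw [hR]
    exact hW₂.disjoint.symm
  · rw [hM]
    exact c2.disjoint

end Pool.Agent.Helper2.EV
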