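import Pool.Agent.Helper2.EV.Defs

/-!
# Block EV-O1: orders of products

Characteristic two, `N² = M² = 0`, `u = (1 + N) (1 + M)`, `m = u - 1 = N + M + N M`, `z = N M + M N`. `z` commutes with `N`,
`M`, `u`; `m * m = z * u`, so `u² = 1 + z u`; `u` is invertible with inverse `(1 + M) (1 + N)`.
`two`: `u² = 1` iff `z u = 0` iff `z = 0`.
`three`: `u³ - 1 = m (u² + u + 1) = m (z + 1) u`, so `u³ = 1` iff `(1 + z) m = 0`.
`three_of_inv`: `z N = N M N = N`, `z M = M N M = M`, `z N M = N M`, so `(1 + z) m = 0`.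
-/

set_option autoImplicit false

open LinearMap

namespace Pool.Agent.Helper2.EV

variable {K : Type*} [Field K] {V : Type*} [AddCommGroup V] [Module K V]

private theorem add_self56 [CharP K 2] (x : Module.End K V) : x + x = 0 := by
  have h : (2 : K) = 0 := CharTwo.two_eq_zero
  rw [← two_smul K x, h, zero_smul]

private theorem ring56 {R : Type*} [Ring R] (h2 : ∀ x : R, x + x = 0) {N M : R} (hN : N * N = 0)
    (hM : M * M = 0) :
    ((1 + N) * (1 + M)) * ((1 + M) * (1 + N)) = 1 ∧
    ((1 + N) * (1 + M)) ^ 2 = 1 + (N * M + M * N) * ((1 + N) * (1 + M)) ∧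
    ((1 + N) * (1 + M)) ^ 3 = 1 + (1 + (N * M + M * N)) * (N + M + N * M) * ((1 + N) * (1 + M)) := by
  obtain ⟨u, hu⟩ : ∃ u, u = (1 + N) * (1 + M) := ⟨_, rfl⟩
  obtain ⟨m, hm⟩ : ∃ m, m = N + M + N * M := ⟨_, rfl⟩
  obtain ⟨z, hz⟩ : ∃ z, z = N * M + M * N := ⟨_, rfl⟩
  rw [← hu, ← hm, ← hz]
  have sN : (1 + N) * (1 + N) = 1 := by
    have h : (1 + N) * (1 + N) = 1 + (N + N) + N * N := by noncomm_ring
    rw [h, h2, hN, add_zero, add_zero]
  have sM : (1 + M) * (1 + M) = 1 := by
    have h : (1 + M) * (1 + M) = 1 + (M + M) + M * M := by noncomm_ring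
    rw [h, h2, hM, add_zero, add_zero]
  have hum : u = 1 + m := by
    rw [hu, hm]
    noncomm_ring
  have hmm : m * m = z * u := by
    have e1 : m * m = N * N + N * M + (N * N) * M + M * N + M * M + M * N * M + N * M * N + N * (M * M) +
        N * M * (N * M) := by
      rw [hm]
      noncomm_ring
    have e2 : z * u = N * M + N * M * N + N * (M * M) + N * M * (N * M) + M * N + M * (N * N) + M * N * M +
        M * (N * N) * M := by
      rw [hz, hu]
      noncomm_ring
    rw [e1, e2, hN, hM]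
    simp only [zero_mul, mul_zero, add_zero, zero_add]
    abel
  have huu : u * u = 1 + z * u := by
    have h : (1 + m) * (1 + m) = 1 + (m + m) + m * m := by noncomm_ring
    rw [← hmm]
    rw [hum, h, h2, add_zero]
  refine ⟨?_, ?_, ?_⟩
  · rw [hu]
    have h : (1 + N) * (1 + M) * ((1 + M) * (1 + N)) = (1 + N) * ((1 + M) * (1 + M)) * (1 + N) := by
      noncomm_ring
    rw [h, sM, mul_one, sN]
  · rw [sq, huu]
  · have hm' : m = u - 1 := by rw [hum]; abel
    have e1 : u ^ 3 = u + z * (u * u) := by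
      have e0 : u * u * u = (1 + z * u) * u := by rw [huu]
      rw [pow_succ, sq, e0, add_mul, one_mul, mul_assoc]
    have e2 : (1 + z) * m * u = (1 + z) * (u * u - u) := by
      rw [hm']
      noncomm_ring
    rw [e2, e1, huu]
    have e3 : 1 + (1 + z) * (1 + z * u - u) = u + z * (1 + z * u) + (1 + 1) - (u + u) := by noncomm_ring
    rw [e3, h2, h2]
    abel

theorem two [CharP K 2] {N M : Module.End K V} (hN : N * N = 0) (hM : M * M = 0) :
    ((1 + N) * (1 + M)) ^ 2 = 1 ↔ N * M = M * N := by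
  obtain ⟨h1, h2, -⟩ := ring56 (add_self56 (K := K) (V := V)) hN hM
  rw [h2, add_eq_left]
  constructor
  · intro h
    have h3 := congrArg (fun x => x * ((1 + M) * (1 + N))) h
    simp only [zero_mul] at h3
    rw [mul_assoc, h1, mul_one] at h3
    have h4 : N * M = -(M * N) := eq_neg_of_add_eq_zero_left h3
    rw [h4, neg_eq_of_add_eq_zero_right (add_self56 (M * N))]
  · intro h
    rw [h, add_self56, zero_mul]

theorem three [CharP K 2] {N M : Module.End K V} (hN : N * N = 0) (hM : M * M = 0) :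
    ((1 + N) * (1 + M)) ^ 3 = 1 ↔ (1 + (N * M + M * N)) * (N + M + N * M) = 0 := by
  obtain ⟨h1, -, h2⟩ := ring56 (add_self56 (K := K) (V := V)) hN hM
  rw [h2, add_eq_left]
  constructor
  · intro h
    have h3 := congrArg (fun x => x * ((1 + M) * (1 + N))) h
    simp only [zero_mul] at h3
    rw [mul_assoc, h1, mul_one] at h3
    exact h3
  · intro h
    rw [h, zero_mul]

theorem three_of_inv [CharP K 2] {N M : Module.End K V} (hN : N * N = 0) (hM : M * M = 0)
    (h : Inv N M) : ((1 + N) * (1 + M)) ^ 3 = 1 := by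
  rw [three hN hM]
  have e1 : (1 + (N * M + M * N)) * (N + M + N * M) = N + M + N * M + N * M * N + N * (M * M) +
      N * (M * N * M) + M * (N * N) + M * N * M + M * (N * N) * M := by noncomm_ring
  rw [e1, hN, hM, h.1, h.2]
  simp only [zero_mul, mul_zero, add_zero]
  have e2 : N + M + N * M + N + N * M + M = (N + M + N * M) + (N + M + N * M) := by abel
  rw [e2, add_self56]

end Pool.Agent.Helper2.EV
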