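import Pool.Agent.Helper2.EV.Defs

/-!
# Block EV-O2: orders of products, powers of two

Characteristic two, `N² = M² = 0`, `u = (1 + N) (1 + M)`, `m = u - 1 = N + M + N M`, `z = N M + M N`. `z` commutes with `N`,
`M`, `u`; `m * m = z * u`, so `u² = 1 + z u`; `u` is invertible with inverse `(1 + M) (1 + N)`.
`u^(2^(k+1)) = 1 + z^(2^k) u^(2^k)` by induction (characteristic two, `z`, `u` commute), so `u` has
2-power order iff `z` is nilpotent; `z^k = (N M)^k + (M N)^k` for `k ≥ 1` (as `N M M N = 0`), `z^k N = (N M)^k N`; `N M` is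
nilpotent iff `M N` is (`(M N)^(k+1) = M (N M)^k N`); if `z^k = 0` then `(N M)^k N = 0`.
-/

set_option autoImplicit false

open LinearMap

namespace Pool.Agent.Helper2.EV

variable {K : Type*} [Field K] {V : Type*} [AddCommGroup V] [Module K V]

section ring

variable {R : Type*} [Ring R]

private theorem sq_one_add (h2 : ∀ x : R, x + x = 0) (a : R) : (1 + a) ^ 2 = 1 + a ^ 2 := by
  have h := h2 a
  have e : (1 + a) ^ 2 = 1 + (a + a) + a ^ 2 := by noncomm_ring
  rw [e, h, add_zero]

private theorem pow_mul_left {N M : R} (hN : N * N = 0) (j : ℕ) :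
    (N * M + M * N) ^ j * N = (N * M) ^ j * N := by
  induction j with
  | zero => simp
  | succ j ih =>
    have e : (N * M + M * N) * N = N * M * N := by
      rw [add_mul, mul_assoc M N N, hN, mul_zero, add_zero]
    calc (N * M + M * N) ^ (j + 1) * N = (N * M + M * N) ^ j * ((N * M + M * N) * N) := by
          rw [pow_succ, mul_assoc]
      _ = ((N * M + M * N) ^ j * N) * (M * N) := by rw [e]; simp only [mul_assoc]
      _ = (N * M) ^ (j + 1) * N := by rw [ih, pow_succ]; simp only [mul_assoc]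

private theorem mul_pow_swap {N M : R} (j : ℕ) : (M * N) ^ j * M = M * (N * M) ^ j := by
  induction j with
  | zero => simp
  | succ j ih =>
    calc (M * N) ^ (j + 1) * M = (M * N) ^ j * M * (N * M) := by
          rw [pow_succ]; simp only [mul_assoc]
      _ = M * (N * M) ^ (j + 1) := by rw [ih, pow_succ]; simp only [mul_assoc]

private theorem pow_two_ring (h2 : ∀ x : R, x + x = 0) {N M : R} (hN : N * N = 0)
    (hM : M * M = 0) :
    (∃ k : ℕ, ((1 + N) * (1 + M)) ^ (2 ^ k) = 1) ↔ IsNilpotent (N * M) := by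
  obtain ⟨z, hz⟩ : ∃ z, z = N * M + M * N := ⟨_, rfl⟩
  obtain ⟨u, hu⟩ : ∃ u, u = (1 + N) * (1 + M) := ⟨_, rfl⟩
  have hzN : z * N = N * z := by
    rw [hz, add_mul, mul_add, mul_assoc M N N, hN, ← mul_assoc N N M, hN]
    simp [mul_assoc]
  have hzM : z * M = M * z := by
    rw [hz, add_mul, mul_add, mul_assoc N M M, hM, ← mul_assoc M M N, hM]
    simp [mul_assoc]
  have hzu : Commute z u := by
    rw [hu]
    exact ((Commute.one_right z).add_right hzN).mul_right ((Commute.one_right z).add_right hzM)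
  have hu2 : u ^ 2 = 1 + z * u := by
    have e1 : u = 1 + (N + M + N * M) := by rw [hu]; noncomm_ring
    have e2 : (N + M + N * M) ^ 2 = z * u := by
      have l : (N + M + N * M) ^ 2 = N * N + N * M + N * N * M + (M * N + M * M + M * N * M)
          + (N * M * N + N * (M * M) + N * M * N * M) := by noncomm_ring
      have r : z * u = N * M + N * M * N + N * (M * M) + N * M * N * M
          + (M * N + M * (N * N) + M * N * M + M * (N * N) * M) := by
        rw [hz, hu]; noncomm_ring
      rw [l, r, hN, hM]; simp; abel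
    rw [← e2]
    calc u ^ 2 = (1 + (N + M + N * M)) ^ 2 := by rw [← e1]
      _ = _ := sq_one_add h2 _
  have key : ∀ k : ℕ, u ^ (2 ^ (k + 1)) = 1 + z ^ (2 ^ k) * u ^ (2 ^ k) := by
    intro k
    induction k with
    | zero => simpa using hu2
    | succ k ih =>
      calc u ^ (2 ^ (k + 1 + 1)) = (u ^ (2 ^ (k + 1))) ^ 2 := by rw [← pow_mul, ← pow_succ]
        _ = (1 + z ^ (2 ^ k) * u ^ (2 ^ k)) ^ 2 := by rw [ih]
        _ = 1 + (z ^ (2 ^ k) * u ^ (2 ^ k)) ^ 2 := sq_one_add h2 _
        _ = 1 + z ^ (2 ^ (k + 1)) * u ^ (2 ^ (k + 1)) := by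
            rw [(hzu.pow_pow _ _).mul_pow, ← pow_mul, ← pow_mul, ← pow_succ]
  rw [← hu]
  constructor
  · rintro ⟨k, hk⟩
    have h1 : u ^ (2 ^ (k + 1)) = 1 := by rw [pow_succ, pow_mul, hk, one_pow]
    have h2' : z ^ (2 ^ k) = 0 := by
      have := key k
      rw [h1, hk, mul_one] at this
      exact left_eq_add.mp this
    refine ⟨2 ^ k + 1, ?_⟩
    rw [pow_succ, ← mul_assoc, ← pow_mul_left hN, ← hz, h2', zero_mul, zero_mul]
  · rintro ⟨j, hj⟩
    have hz0 : z ^ (j + 1) = 0 := by
      have a1 : z ^ j * N = (N * M) ^ j * N := by rw [hz]; exact pow_mul_left hN j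
      have a2 : z ^ j * M = (M * N) ^ j * M := by
        rw [hz, add_comm]; exact pow_mul_left hM j
      calc z ^ (j + 1) = z ^ j * (N * M + M * N) := by rw [pow_succ, ← hz]
        _ = z ^ j * N * M + z ^ j * M * N := by rw [mul_add, mul_assoc, mul_assoc]
        _ = 0 := by rw [a1, a2, mul_pow_swap (N := N) (M := M) j, hj]; simp
    refine ⟨j + 1 + 1, ?_⟩
    have hle : j + 1 ≤ 2 ^ (j + 1) := Nat.lt_two_pow_self.le
    rw [key, pow_eq_zero_of_le hle hz0, zero_mul, add_zero]

end ring

theorem pow_two' [CharP K 2] {N M : Module.End K V} (hN : N * N = 0) (hM : M * M = 0) :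
    (∃ k : ℕ, ((1 + N) * (1 + M)) ^ (2 ^ k) = 1) ↔ IsNilpotent (N * M) := by
  refine pow_two_ring (fun x => ?_) hN hM
  have h : (2 : K) = 0 := CharTwo.two_eq_zero
  rw [← two_smul K x, h, zero_smul]

end Pool.Agent.Helper2.EV
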