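import Pool.Agent.Helper2.EV.Ord

/-!
# Block EV-O3: opposite elements with a product of order three

`inv_of_three`: `z = N M + M N`, `m = N + M + N M`, `(1 + z) m = 0` by `three`. Let `w` be in the image of `N`;
`(1 + z) m w = 0` with `m w = M w + N M w`, `z M w = M N M w`, `z N M w = N M N M w`, so
`M w + M N M w = N M w + N M N M w` is in `range M ∩ range N ≤ range M ∩ ker N = 0`. So `N M w = N M (N M w)`,
and `N M` is injective on `range N` (`Opp`), so `N M w = w`: `N M N = N`. As `M` is injective on `range N` and the
ranks are equal, `range M = M (range N)`; for `M x = M w`, `w` in `range N`, `M N M x = M N M w = M w = M x`.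
-/

set_option autoImplicit false

open LinearMap

namespace Pool.Agent.Helper2.EV

variable {K : Type*} [Field K] {V : Type*} [AddCommGroup V] [Module K V]

theorem inv_of_three [CharP K 2] [FiniteDimensional K V] {j : ℕ} {N M : Module.End K V}
    (hN : N ∈ Sq K V j) (hM : M ∈ Sq K V j) (h : Opp N M) (h3 : ((1 + N) * (1 + M)) ^ 3 = 1) :
    Inv N M := by
  have hNN := sq_zero hN
  have hMM := sq_zero hM
  have h4 := (three hNN hMM).1 h3
  have key : ∀ w ∈ range N, N (M w) = w := by
    rintro w hw
    have hNw : N w = 0 := range_le_ker hN hw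
    have h5 : (1 + (N * M + M * N)) ((N + M + N * M) w) = 0 := LinearMap.congr_fun h4 w
    have h6 : (N + M + N * M) w = M w + N (M w) := by
      show N w + M w + N (M w) = _
      rw [hNw, zero_add]
    have h7 : M w + N (M w) + (N (M (M w)) + N (M (N (M w))) +
        (M (N (M w)) + M (N (N (M w))))) = 0 := by
      rw [h6] at h5
      have h8 : M w + N (M w) + (N (M (M w + N (M w))) + M (N (M w + N (M w)))) = 0 := h5
      rwa [map_add M, map_add N, map_add N, map_add M] at h8
    rw [sq_apply hM, map_zero, sq_apply hN, map_zero, zero_add, add_zero] at h7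
    have h8 : M (w + N (M w)) = -(N (M w + M (N (M w)))) := by
      rw [map_add, map_add, eq_neg_iff_add_eq_zero, ← h7]
      abel
    have h9 : M (w + N (M w)) = 0 := by
      apply Submodule.disjoint_def.1 h.1
      · exact ⟨_, rfl⟩
      · rw [h8]
        exact (ker N).neg_mem (range_le_ker hN ⟨_, rfl⟩)
    have h10 : w + N (M w) = 0 := by
      apply Submodule.disjoint_def.1 h.2
      · exact (range N).add_mem hw ⟨_, rfl⟩
      · exact h9
    have h11 : N (M w) = -w := (neg_eq_of_add_eq_zero_right h10).symm
    rw [h11, ← neg_one_smul K w, CharTwo.neg_eq, one_smul]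
  refine ⟨?_, ?_⟩
  · ext x
    exact key (N x) ⟨x, rfl⟩
  · have hinj : Function.Injective (M.domRestrict (range N)) := by
      rw [← LinearMap.ker_eq_bot, LinearMap.ker_eq_bot']
      rintro ⟨w, hw⟩ hw0
      have hw1 : M w = 0 := hw0
      have hw2 : w = 0 := Submodule.disjoint_def.1 h.2 w hw hw1
      exact Subtype.ext hw2
    have h12 : (range N).map M = range M := by
      apply Submodule.eq_of_le_of_finrank_eq
      · exact LinearMap.map_le_range
      · rw [← LinearMap.range_domRestrict, LinearMap.finrank_range_of_inj hinj, hN.2, hM.2]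
    ext x
    have h13 : M x ∈ (range N).map M := by
      rw [h12]
      exact ⟨x, rfl⟩
    obtain ⟨w, hw, hwx⟩ := h13
    show M (N (M x)) = M x
    rw [← hwx, key w hw]

end Pool.Agent.Helper2.EV
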