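import Pool.Agent.Helper2.EV.Mat

/-!
# Block EV-P1: orders and conjugation in `PSL(n, K)`

`mk_eq_iff'`: `QuotientGroup.eq`, `Matrix.SpecialLinearGroup.mem_center_iff` (the same statement as
`Pool.Agent.Helper2.RO.mk_eq_iff`, which you may copy).
`rh_inj`: `1 + Y = r (1 + X)`; squares: `1 = r²` (`mone_add_sq`), so `r = 1` in characteristic two.
`order_eq`: for all `m`, `(rh X * rh Y)^m = 1` iff `u^m` is a scalar matrix for `u = (1 + X) (1 + Y)`. If `u^m = r` then, as
`(1 + X) u (1 + X) = (1 + Y) (1 + X)` is the inverse of `u`, `r = (1 + X) u^m (1 + X)` is the inverse of `u^m = r`, so `r r = 1` and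
`r = 1`. So both orders are equal (`orderOf_eq_orderOf_iff`).
`rh_conj`: `A (1 + X) A⁻¹ = 1 + A X A⁻¹`. `rh_conj_rh`: the same with `A = rho X`; `(rho X)⁻¹ = rho X` (`mone_add_sq`).
-/

set_option autoImplicit false

open Matrix

namespace Pool.Agent.Helper2.EV

variable {K : Type*} [Field K] {ι : Type*} [Fintype ι] [DecidableEq ι]

theorem mk_eq_iff' (A B : SpecialLinearGroup ι K) :
    (QuotientGroup.mk A : ProjectiveSpecialLinearGroup ι K) = QuotientGroup.mk B ↔
      ∃ r : K, (B : Matrix ι ι K) = r • (A : Matrix ι ι K) := by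
  have hI : ((A⁻¹ : SpecialLinearGroup ι K) : Matrix ι ι K) * (A : Matrix ι ι K) = 1 := by
    have h1 : A⁻¹ * A = 1 := inv_mul_cancel A
    exact congrArg Subtype.val h1
  have hI' : (A : Matrix ι ι K) * ((A⁻¹ : SpecialLinearGroup ι K) : Matrix ι ι K) = 1 := by
    have h1 : A * A⁻¹ = 1 := mul_inv_cancel A
    exact congrArg Subtype.val h1
  rw [QuotientGroup.eq]
  have hc := Matrix.SpecialLinearGroup.mem_center_iff (A := A⁻¹ * B)
  constructor
  · intro hAB
    obtain ⟨r, -, hr⟩ := hc.1 hAB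
    refine ⟨r, ?_⟩
    have h0 : scalar ι r = ((A⁻¹ : SpecialLinearGroup ι K) : Matrix ι ι K) * (B : Matrix ι ι K) := hr
    calc (B : Matrix ι ι K) = (A : Matrix ι ι K) * (((A⁻¹ : SpecialLinearGroup ι K) : Matrix ι ι K) *
          (B : Matrix ι ι K)) := by rw [← Matrix.mul_assoc, hI', Matrix.one_mul]
      _ = r • (A : Matrix ι ι K) := by
          rw [← h0, Matrix.scalar_apply, ← Matrix.smul_one_eq_diagonal, Matrix.mul_smul,
            Matrix.mul_one]
  · rintro ⟨r, hr⟩
    refine hc.2 ⟨r, ?_, ?_⟩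
    · have h1 := B.2
      have h2 : det (B : Matrix ι ι K) = r ^ Fintype.card ι * det (A : Matrix ι ι K) := by
        rw [hr, det_smul]
      rw [h1, A.2, mul_one] at h2
      exact h2.symm
    · show scalar ι r = ((A⁻¹ : SpecialLinearGroup ι K) : Matrix ι ι K) * (B : Matrix ι ι K)
      rw [hr, Matrix.mul_smul, hI, Matrix.scalar_apply, ← Matrix.smul_one_eq_diagonal]

omit [DecidableEq ι] in
private theorem one_of_smul_h5 [DecidableEq ι] [CharP K 2] [Nonempty ι] {r : K}
    (h : (r * r) • (1 : Matrix ι ι K) = 1) : r = 1 := by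
  obtain ⟨i⟩ := ‹Nonempty ι›
  have h1 := congrFun (congrFun h i) i
  rw [Matrix.smul_apply, Matrix.one_apply_eq, smul_eq_mul, mul_one] at h1
  have h2 : (2 : K) = 0 := CharP.cast_eq_zero K 2
  have h3 : (r - 1) * (r - 1) = 0 := by linear_combination h1 + (1 - r) * h2
  exact sub_eq_zero.1 (mul_self_eq_zero.1 h3)

private theorem powc_h5 (U : SpecialLinearGroup ι K) (m : ℕ) :
    ((U ^ m : SpecialLinearGroup ι K) : Matrix ι ι K) = (U : Matrix ι ι K) ^ m := by
  induction m with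
  | zero =>
    rw [pow_zero, pow_zero]
    rfl
  | succ m ih =>
    rw [pow_succ, pow_succ, ← ih]
    rfl

theorem rh_inj [CharP K 2] [Nonempty ι] {j : ℕ} :
    Function.Injective (rh : MSq (K := K) (ι := ι) j → ProjectiveSpecialLinearGroup ι K) := by
  intro X Y hXY
  obtain ⟨r, hr⟩ := (mk_eq_iff' (rho X) (rho Y)).1 hXY
  have hr' : (1 + (Y : Matrix ι ι K)) = r • (1 + (X : Matrix ι ι K)) := hr
  have h1 := mone_add_sq Y.2.1
  rw [hr', smul_mul_smul_comm, mone_add_sq X.2.1] at h1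
  have h2 := one_of_smul_h5 h1
  rw [h2, one_smul] at hr'
  exact Subtype.ext (add_left_cancel hr').symm

private theorem scal_h5 [CharP K 2] [Nonempty ι] {a b : Matrix ι ι K} (ha : a * a = 1)
    (hb : b * b = 1) {m : ℕ} {r : K} (h : (a * b) ^ m = r • (1 : Matrix ι ι K)) : r = 1 := by
  have h1 : ∀ m : ℕ, a * (a * b) ^ m = (b * a) ^ m * a := by
    intro m
    induction m with
    | zero => rw [pow_zero, pow_zero, mul_one, one_mul]
    | succ m ih =>
      rw [pow_succ, ← mul_assoc, ih, pow_succ, mul_assoc, mul_assoc ((b * a) ^ m) (b * a) a,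
        ← mul_assoc a a b, ha, one_mul, mul_assoc b a a, ha, mul_one]
  have h2 : (b * a) ^ m = r • (1 : Matrix ι ι K) := by
    have h3 := h1 m
    rw [h, mul_smul_comm, mul_one] at h3
    have h4 := congrArg (fun M => M * a) h3
    rw [smul_mul_assoc, ha, mul_assoc, ha, mul_one] at h4
    exact h4.symm
  have h5 : (b * a) * (a * b) = 1 := by
    rw [mul_assoc, ← mul_assoc a a b, ha, one_mul, hb]
  have h6 : (a * b) * (b * a) = 1 := by
    rw [mul_assoc, ← mul_assoc b b a, hb, one_mul, ha]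
  have h7 : (b * a) ^ m * (a * b) ^ m = 1 := by
    have hcomm : Commute (b * a) (a * b) := by
      rw [commute_iff_eq, h5, h6]
    rw [← hcomm.mul_pow, h5, one_pow]
  rw [h2, h, smul_mul_smul_comm, mul_one] at h7
  exact one_of_smul_h5 h7

theorem order_eq [CharP K 2] [Nonempty ι] {j : ℕ} (X Y : MSq (K := K) (ι := ι) j) :
    orderOf (rh X * rh Y) = orderOf ((1 + (X : Matrix ι ι K)) * (1 + (Y : Matrix ι ι K))) := by
  rw [orderOf_eq_orderOf_iff]
  intro m
  have hc : ((((rho X * rho Y) ^ m : SpecialLinearGroup ι K)) : Matrix ι ι K) =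
      ((1 + (X : Matrix ι ι K)) * (1 + (Y : Matrix ι ι K))) ^ m := by
    rw [powc_h5]
    rfl
  have hm : ((rh X * rh Y) ^ m = 1) ↔
      (QuotientGroup.mk (1 : SpecialLinearGroup ι K) : ProjectiveSpecialLinearGroup ι K) =
        QuotientGroup.mk ((rho X * rho Y) ^ m) := by
    constructor
    · intro h1
      exact h1.symm
    · intro h1
      exact h1.symm
  rw [hm, mk_eq_iff', hc]
  constructor
  · rintro ⟨r, hr0⟩
    have hr : ((1 + (X : Matrix ι ι K)) * (1 + (Y : Matrix ι ι K))) ^ m =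
      r • (1 : Matrix ι ι K) := hr0
    have h1 := scal_h5 (mone_add_sq X.2.1) (mone_add_sq Y.2.1) hr
    rw [hr, h1, one_smul]
  · intro h1
    rw [h1]
    exact ⟨1, (one_smul K (1 : Matrix ι ι K)).symm⟩

theorem rh_conj [CharP K 2] {j : ℕ} (A : SpecialLinearGroup ι K) (X : MSq (K := K) (ι := ι) j) :
    (QuotientGroup.mk A : ProjectiveSpecialLinearGroup ι K) * rh X * (QuotientGroup.mk A)⁻¹ =
      rh ⟨_, sl_conj_mem A X.2⟩ := by
  have h1 : A * rho X * A⁻¹ = rho ⟨_, sl_conj_mem A X.2⟩ := by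
    apply Subtype.ext
    have hI' : (A : Matrix ι ι K) * ((A⁻¹ : SpecialLinearGroup ι K) : Matrix ι ι K) = 1 :=
      congrArg Subtype.val (mul_inv_cancel A)
    show (A : Matrix ι ι K) * (1 + (X : Matrix ι ι K)) *
      ((A⁻¹ : SpecialLinearGroup ι K) : Matrix ι ι K) = 1 + (A : Matrix ι ι K) * X *
        ((A⁻¹ : SpecialLinearGroup ι K) : Matrix ι ι K)
    rw [mul_add, add_mul, mul_one, hI']
  exact congrArg (fun Z : SpecialLinearGroup ι K =>
    (QuotientGroup.mk Z : ProjectiveSpecialLinearGroup ι K)) h1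

theorem rh_conj_rh [CharP K 2] {j : ℕ} (X Y : MSq (K := K) (ι := ι) j) :
    rh X * rh Y * (rh X)⁻¹ = rh ⟨_, conj_one_add_mem_mat X.2.1 Y.2⟩ := by
  have h1 : rho X * rho Y * (rho X)⁻¹ = rho ⟨_, conj_one_add_mem_mat X.2.1 Y.2⟩ := by
    have h2 : rho X * rho X = 1 := Subtype.ext (mone_add_sq X.2.1)
    rw [inv_eq_of_mul_eq_one_left h2]
    apply Subtype.ext
    show (1 + (X : Matrix ι ι K)) * (1 + (Y : Matrix ι ι K)) * (1 + (X : Matrix ι ι K)) =
      1 + (1 + (X : Matrix ι ι K)) * Y * (1 + (X : Matrix ι ι K))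
    rw [mul_add (1 + (X : Matrix ι ι K)) 1 (Y : Matrix ι ι K), mul_one,
      add_mul (1 + (X : Matrix ι ι K)) _ (1 + (X : Matrix ι ι K)), mone_add_sq X.2.1]
  exact congrArg (fun Z : SpecialLinearGroup ι K =>
    (QuotientGroup.mk Z : ProjectiveSpecialLinearGroup ι K)) h1

end Pool.Agent.Helper2.EV
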