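import Pool.Agent.Helper2.EV.OrdB
import Pool.Agent.Helper2.EV.OrdC
import Pool.Agent.Helper2.EV.Nil
import Pool.Agent.Helper2.EV.OppI

/-!
# Block EV-B1: opposite and inverse elements are preserved

`opp_fix`: if all `A` with the kernel and image of `R` are fixed then `Opp R M ↔ Opp R (ψ M)`: by `opp_iff`, `pow_two'` and
`Pres.ord` (for `A`, `M`, with `ψ A = A`). `inv_fix`: the same for `Inv` (`Inv.opp`, `three_of_inv`, `inv_of_three`;
`ψ R = R`).
-/

set_option autoImplicit false

open LinearMap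

namespace Pool.Agent.Helper2.EV

variable {K : Type*} [Field K] {V : Type*} [AddCommGroup V] [Module K V] [FiniteDimensional K V]

theorem opp_fix [CharP K 2] {j : ℕ} (hj : 1 ≤ j) {ψ : Module.End K V → Module.End K V}
    (hψ : Pres j ψ) {R : Module.End K V} (hR : R ∈ Sq K V j)
    (hfix : ∀ A ∈ Sq K V j, ker A = ker R → range A = range R → ψ A = A)
    {M : Module.End K V} (hM : M ∈ Sq K V j) : Opp R (ψ M) ↔ Opp R M := by
  have key : ∀ A ∈ Sq K V j, ker A = ker R → range A = range R →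
      (IsNilpotent (A * ψ M) ↔ IsNilpotent (A * M)) := by
    intro A hA h1 h2
    have e := hfix A hA h1 h2
    rw [← pow_two' hA.1 (hψ.mem M hM).1, ← pow_two' hA.1 hM.1]
    constructor
    · rintro ⟨k, hk⟩
      exact ⟨k, (hψ.ord A hA M hM _).1 (by rw [e]; exact hk)⟩
    · rintro ⟨k, hk⟩
      have h3 := (hψ.ord A hA M hM _).2 hk
      rw [e] at h3
      exact ⟨k, h3⟩
  rw [opp_iff hj hR (hψ.mem M hM), opp_iff hj hR hM]
  constructor
  · intro h A hA h1 h2 h3
    exact h A hA h1 h2 ((key A hA h1 h2).2 h3)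
  · intro h A hA h1 h2 h3
    exact h A hA h1 h2 ((key A hA h1 h2).1 h3)

theorem inv_fix [CharP K 2] {j : ℕ} (hj : 1 ≤ j) {ψ : Module.End K V → Module.End K V}
    (hψ : Pres j ψ) {R : Module.End K V} (hR : R ∈ Sq K V j)
    (hfix : ∀ A ∈ Sq K V j, ker A = ker R → range A = range R → ψ A = A)
    {M : Module.End K V} (hM : M ∈ Sq K V j) : Inv R (ψ M) ↔ Inv R M := by
  have e := hfix R hR rfl rfl
  have hψM := hψ.mem M hM
  have ho := opp_fix hj hψ hR hfix hM
  have h3 := hψ.ord R hR M hM 3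
  rw [e] at h3
  constructor
  · intro h
    exact inv_of_three hR hM (ho.1 h.opp) (h3.1 (three_of_inv hR.1 hψM.1 h))
  · intro h
    exact inv_of_three hR hψM (ho.2 h.opp) (h3.2 (three_of_inv hR.1 hM.1 h))

end Pool.Agent.Helper2.EV
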