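import Pool.Agent.Helper2.EV.StA

/-!
# Block EV-B2: elements opposite to `N`, step 1, images

`ψ` is `Pres j` and fixes all `R` in `Sq K V j` commuting with `N`, for instance all `R` with the image of `N` and all `R`
with the kernel of `N` (`mul_of_range`, `mul_of_ker`).
`diff_mem`: let `Opp N M`, `M₁ = ψ M`. By `opp_inv` there is a `G` with kernel and image of `N` and `Inv G M`; by `inv_fix`
`Inv G M₁` (all `A` with the kernel and image of `G` commute with `N`), and `Opp N M₁` by `opp_fix`. So `G M w = w =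
G M₁ w` for `w` in `W = range N`. Let `w` be in `W`, `y = M₁ w - M w`, so `G y = 0`. Suppose `y` is not in `W`. Then `y` is not in
`W + M W` (`y = w₁ + M w₂` gives `0 = G y = w₂`). Choose a functional `f` with `f = 0` on `W + M W`, `f y = 1` and `w₀ ≠ 0` in
`W` (`1 ≤ j`), `S = f(·) w₀`. `R = G + S` has image `W` (`R M w = w`), `R W = 0`, so `R` is in `Sq K V j`, `Inv R M`
(`R M = 1` on `W`; for `M x = M w` with `w` in `W`, `M R M x = M w`), and all `A` with the kernel and image of `R` are fixed, so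
`Inv R M₁` and `R M₁ w = w`, hence `S M₁ w = w - G M₁ w = 0`, and `S y = 0`, a contradiction to `f y = 1`.
-/

set_option autoImplicit false

open LinearMap

namespace Pool.Agent.Helper2.EV

variable {K : Type*} [Field K] {V : Type*} [AddCommGroup V] [Module K V] [FiniteDimensional K V]

theorem diff_mem [CharP K 2] {j : ℕ} (hj : 1 ≤ j) {ψ : Module.End K V → Module.End K V}
    (hψ : Pres j ψ) {N : Module.End K V} (hN : N ∈ Sq K V j)
    (hfix : ∀ R ∈ Sq K V j, N * R = R * N → ψ R = R)
    {M : Module.End K V} (hM : M ∈ Sq K V j) (h : Opp N M) :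
    Opp N (ψ M) ∧ ∀ w ∈ range N, ψ M w - M w ∈ range N := by
  have hcomm : ∀ A ∈ Sq K V j, range A = range N → ψ A = A := by
    intro A hA hr
    obtain ⟨h1, h2⟩ := mul_of_range hN hA hr
    exact hfix A hA (h1.trans h2.symm)
  obtain ⟨G, hG, hGk, hGr, hI⟩ := opp_inv hN hM h
  have hI1 : Inv G (ψ M) :=
    (inv_fix hj hψ hG (fun A hA _ hr => hcomm A hA (hr.trans hGr)) hM).2 hI
  have hopp : Opp N (ψ M) := by
    have h1 := hI1.opp
    rw [Opp, hGk, hGr] at h1
    exact h1
  refine ⟨hopp, ?_⟩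
  intro w hw
  have hGM : ∀ v ∈ range N, G (M v) = v := by
    intro v hv
    rw [← hGr] at hv
    obtain ⟨v', rfl⟩ := hv
    exact LinearMap.congr_fun hI.1 v'
  have hGM1 : ∀ v ∈ range N, G (ψ M v) = v := by
    intro v hv
    rw [← hGr] at hv
    obtain ⟨v', rfl⟩ := hv
    exact LinearMap.congr_fun hI1.1 v'
  have hGW : ∀ v ∈ range N, G v = 0 := by
    intro v hv
    rw [← hGr] at hv
    exact range_le_ker hG hv
  by_contra hy
  have hGy : G (ψ M w - M w) = 0 := by
    rw [map_sub, hGM w hw, hGM1 w hw, sub_self]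
  have hy2 : ψ M w - M w ∉ range N ⊔ (range N).map M := by
    intro h1
    obtain ⟨w1, hw1, w2, hw2, h3⟩ := Submodule.mem_sup.1 h1
    obtain ⟨w3, hw3, rfl⟩ := hw2
    have h4 := hGy
    rw [← h3, map_add, hGW w1 hw1, hGM w3 hw3, zero_add] at h4
    apply hy
    rw [← h3, h4, map_zero, add_zero]
    exact hw1
  obtain ⟨f, hf, hfW⟩ := Submodule.exists_le_ker_of_notMem hy2
  have hfW1 : ∀ v ∈ range N, f v = 0 := fun v hv => hfW (Submodule.mem_sup_left hv)
  have hfW2 : ∀ v ∈ range N, f (M v) = 0 := fun v hv =>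
    hfW (Submodule.mem_sup_right (Submodule.mem_map_of_mem hv))
  obtain ⟨w0, hw0, hw00⟩ : ∃ w0 ∈ range N, w0 ≠ 0 := by
    apply Submodule.exists_mem_ne_zero_of_ne_bot
    intro hb
    have h1 := hN.2
    rw [hb, finrank_bot] at h1
    omega
  let R : Module.End K V := G + f.smulRight w0
  have hRz : ∀ z, R z = G z + f z • w0 := fun z => rfl
  have hRW : ∀ z, R z ∈ range N := by
    intro z
    rw [hRz]
    refine Submodule.add_mem _ ?_ (Submodule.smul_mem _ _ hw0)
    rw [← hGr]
    exact ⟨z, rfl⟩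
  have hRM : ∀ v ∈ range N, R (M v) = v := by
    intro v hv
    rw [hRz, hGM v hv, hfW2 v hv, zero_smul, add_zero]
  have hRr : range R = range N := by
    apply le_antisymm
    · rintro _ ⟨z, rfl⟩
      exact hRW z
    · intro v hv
      exact ⟨M v, hRM v hv⟩
  have hR : R ∈ Sq K V j := by
    constructor
    · ext z
      show R (R z) = 0
      rw [hRz (R z), hGW _ (hRW z), hfW1 _ (hRW z), zero_smul, add_zero]
    · rw [hRr]
      exact hN.2
  have hIR : Inv R M := by
    constructor
    · ext z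
      exact hRM _ (hRW z)
    · ext z
      have h1 : M (G (M z)) = M z := LinearMap.congr_fun hI.2 z
      have h2 : G (M z) ∈ range N := by
        rw [← hGr]
        exact ⟨M z, rfl⟩
      show M (R (M z)) = M z
      rw [← h1, hRM _ h2]
  have hIR1 : Inv R (ψ M) :=
    (inv_fix hj hψ hR (fun A hA _ hr => hcomm A hA (hr.trans hRr)) hM).2 hIR
  have h1 : R (ψ M w) = w := by
    rw [← hRr] at hw
    obtain ⟨w', rfl⟩ := hw
    exact LinearMap.congr_fun hIR1.1 w'
  rw [hRz, hGM1 w hw, add_eq_left, smul_eq_zero] at h1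
  rcases h1 with h1 | h1
  · apply hf
    rw [map_sub, h1, hfW2 w hw, sub_zero]
  · exact hw00 h1

end Pool.Agent.Helper2.EV
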