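import Pool.Agent.Helper2.EV.Ord

/-!
# Block EV-D: elements inverse to `N`, step 2

Notation: `P = N M`, so `P N = N`, `P` is the identity on `W = range N`. `R = R M N` (`U N R`: `x - M N x` is in `ker N`), `P R = R`.
Put `A = R M` (so `A N = R`, `P A = A`, `A P = A`). Let `v` be in `W` and `f` a functional with `f v = 0`, and let `e` be
`x ↦ f(P x) v`; so `P e = e = e P`, `e e = 0`, `N e = 0`, `e M = 0`. `X = (1 + M e) N (1 + M e) = N + e + M e N` is in
`Sq K V j`: `(1 + M e) (1 + M e) = 1`, so `X` is a conjugate of `N`. `X N = e N = N X`, `X M + M X = N M + M N =: z`, and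
`z X = X`, `z M = M`, so `((1 + X) (1 + M))^3 = 1` by `three`. So `((1 + X) (1 + M₁))^3 = 1` by hypothesis, where
`M₁ = (1 + R) M (1 + R) = M + A + M A N + A A N`, and by `three`: `(1 + z₁) (X + M₁ + X M₁) = 0`, `z₁ = X M₁ + M₁ X`.
Multiply by `N` on the left and `P` on the right: `N (1 + z₁) = (e A + A e) N`, `N (X + M₁ + X M₁) P = P + e`, so
`(e A + A e) (P + e) = 0`. As `(P + e) (P + e) = P`: `(e A + A e) P = 0`, `e A = A e`. Apply to `v`: `f(P A v) v = e A v = A e v = 0`.
(In the decomposition `W ⊕ (ker N ∩ ker M) ⊕ M W`: `N = [0 1; 0 0]`, `M = [0 0; 1 0]`, `X = [e 1; 0 e]`, `M₁ = [A A²; 1 A]`.)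
-/

set_option autoImplicit false
set_option linter.unusedSimpArgs false

open LinearMap

namespace Pool.Agent.Helper2.EV

section RingPart

variable {S : Type*} [Ring S]

private theorem ringA (h2 : ∀ x : S, x + x = 0) {N M e : S} (NN : N * N = 0) (MM : M * M = 0)
    (NMN : N * M * N = N) (MNM : M * N * M = M) (Ne : N * e = 0) (NMe : N * M * e = e)
    (eNM : e * N * M = e) (ee : e * e = 0) (eM : e * M = 0) :
    (1 + M * e) * (1 + M * e) = 1 ∧ (1 + M * e) * N * (1 + M * e) = N + e + M * e * N ∧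
    N * (N + e + M * e * N) = (N + e + M * e * N) * N ∧
    (1 + ((N + e + M * e * N) * M + M * (N + e + M * e * N))) *
      ((N + e + M * e * N) + M + (N + e + M * e * N) * M) = 0 := by
  have NN' : ∀ x, N * (N * x) = 0 := fun x => by rw [← mul_assoc, NN, zero_mul]
  have MM' : ∀ x, M * (M * x) = 0 := fun x => by rw [← mul_assoc, MM, zero_mul]
  have Ne' : ∀ x, N * (e * x) = 0 := fun x => by rw [← mul_assoc, Ne, zero_mul]
  have ee' : ∀ x, e * (e * x) = 0 := fun x => by rw [← mul_assoc, ee, zero_mul]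
  have eM' : ∀ x, e * (M * x) = 0 := fun x => by rw [← mul_assoc, eM, zero_mul]
  have NMN1 : N * (M * N) = N := by rw [← mul_assoc, NMN]
  have NMN' : ∀ x, N * (M * (N * x)) = N * x := fun x => by
    rw [← mul_assoc M, ← mul_assoc N, NMN1]
  have MNM1 : M * (N * M) = M := by rw [← mul_assoc, MNM]
  have MNM' : ∀ x, M * (N * (M * x)) = M * x := fun x => by
    rw [← mul_assoc N, ← mul_assoc M, MNM1]
  have NMe1 : N * (M * e) = e := by rw [← mul_assoc, NMe]
  have NMe' : ∀ x, N * (M * (e * x)) = e * x := fun x => by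
    rw [← mul_assoc M, ← mul_assoc N, NMe1]
  have eNM1 : e * (N * M) = e := by rw [← mul_assoc, eNM]
  have eNM' : ∀ x, e * (N * (M * x)) = e * x := fun x => by
    rw [← mul_assoc N, ← mul_assoc e, eNM1]
  have h2' : ∀ x : S, (2 : ℕ) • x = 0 := fun x => by rw [two_nsmul, h2]
  have h4' : ∀ x : S, (4 : ℕ) • x = 0 := fun x => by
    rw [show (4 : ℕ) = 2 * 2 from rfl, mul_nsmul, h2']
  have z2' : ∀ x : S, (2 : ℤ) • x = 0 := fun x => by rw [two_zsmul, h2]
  have z4' : ∀ x : S, (4 : ℤ) • x = 0 := fun x => by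
    rw [show (4 : ℤ) = 2 * 2 from rfl, mul_zsmul, z2']
  refine ⟨?_, ?_, ?_, ?_⟩
  · simp only [mul_add, add_mul, mul_one, one_mul, mul_assoc, NN, MM, NN', MM', Ne, Ne', ee, ee',
      eM, eM', NMN1, NMN', MNM1, MNM', NMe1, NMe', eNM1, eNM', mul_zero, zero_mul, add_zero,
      zero_add]
    rw [add_assoc, h2, add_zero]
  · simp only [mul_add, add_mul, mul_one, one_mul, mul_assoc, NN, MM, NN', MM', Ne, Ne', ee, ee',
      eM, eM', NMN1, NMN', MNM1, MNM', NMe1, NMe', eNM1, eNM', mul_zero, zero_mul, add_zero,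
      zero_add]
    try abel
  · simp only [mul_add, add_mul, mul_one, one_mul, mul_assoc, NN, MM, NN', MM', Ne, Ne', ee, ee',
      eM, eM', NMN1, NMN', MNM1, MNM', NMe1, NMe', eNM1, eNM', mul_zero, zero_mul, add_zero,
      zero_add]
  · simp only [mul_add, add_mul, mul_one, one_mul, mul_assoc, NN, MM, NN', MM', Ne, Ne', ee, ee',
      eM, eM', NMN1, NMN', MNM1, MNM', NMe1, NMe', eNM1, eNM', mul_zero, zero_mul, add_zero,
      zero_add]
    abel_nf
    simp only [h2', h4', z2', z4', add_zero, zero_add]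

private theorem ringB (h2 : ∀ x : S, x + x = 0) {N M R e : S} (NN : N * N = 0) (MM : M * M = 0)
    (NMN : N * M * N = N) (MNM : M * N * M = M) (RMN : R * M * N = R) (NMR : N * M * R = R)
    (NR : N * R = 0) (RN : R * N = 0) (RR : R * R = 0) (Ne : N * e = 0) (Re : R * e = 0)
    (NMe : N * M * e = e) (eNM : e * N * M = e) (ee : e * e = 0) (eM : e * M = 0)
    (H : (1 + ((N + e + M * e * N) * ((1 + R) * M * (1 + R)) +
      ((1 + R) * M * (1 + R)) * (N + e + M * e * N))) *
      ((N + e + M * e * N) + ((1 + R) * M * (1 + R)) +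
        (N + e + M * e * N) * ((1 + R) * M * (1 + R))) = 0) :
    e * (R * M) = R * M * e := by
  have NN' : ∀ x, N * (N * x) = 0 := fun x => by rw [← mul_assoc, NN, zero_mul]
  have MM' : ∀ x, M * (M * x) = 0 := fun x => by rw [← mul_assoc, MM, zero_mul]
  have Ne' : ∀ x, N * (e * x) = 0 := fun x => by rw [← mul_assoc, Ne, zero_mul]
  have ee' : ∀ x, e * (e * x) = 0 := fun x => by rw [← mul_assoc, ee, zero_mul]
  have eM' : ∀ x, e * (M * x) = 0 := fun x => by rw [← mul_assoc, eM, zero_mul]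
  have NR' : ∀ x, N * (R * x) = 0 := fun x => by rw [← mul_assoc, NR, zero_mul]
  have RN' : ∀ x, R * (N * x) = 0 := fun x => by rw [← mul_assoc, RN, zero_mul]
  have RR' : ∀ x, R * (R * x) = 0 := fun x => by rw [← mul_assoc, RR, zero_mul]
  have Re' : ∀ x, R * (e * x) = 0 := fun x => by rw [← mul_assoc, Re, zero_mul]
  have NMN1 : N * (M * N) = N := by rw [← mul_assoc, NMN]
  have NMN' : ∀ x, N * (M * (N * x)) = N * x := fun x => by
    rw [← mul_assoc M, ← mul_assoc N, NMN1]
  have MNM1 : M * (N * M) = M := by rw [← mul_assoc, MNM]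
  have MNM' : ∀ x, M * (N * (M * x)) = M * x := fun x => by
    rw [← mul_assoc N, ← mul_assoc M, MNM1]
  have NMe1 : N * (M * e) = e := by rw [← mul_assoc, NMe]
  have NMe' : ∀ x, N * (M * (e * x)) = e * x := fun x => by
    rw [← mul_assoc M, ← mul_assoc N, NMe1]
  have eNM1 : e * (N * M) = e := by rw [← mul_assoc, eNM]
  have eNM' : ∀ x, e * (N * (M * x)) = e * x := fun x => by
    rw [← mul_assoc N, ← mul_assoc e, eNM1]
  have RMN1 : R * (M * N) = R := by rw [← mul_assoc, RMN]
  have RMN' : ∀ x, R * (M * (N * x)) = R * x := fun x => by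
    rw [← mul_assoc M, ← mul_assoc R, RMN1]
  have NMR1 : N * (M * R) = R := by rw [← mul_assoc, NMR]
  have NMR' : ∀ x, N * (M * (R * x)) = R * x := fun x => by
    rw [← mul_assoc M, ← mul_assoc N, NMR1]
  have h2' : ∀ x : S, (2 : ℕ) • x = 0 := fun x => by rw [two_nsmul, h2]
  have h4' : ∀ x : S, (4 : ℕ) • x = 0 := fun x => by
    rw [show (4 : ℕ) = 2 * 2 from rfl, mul_nsmul, h2']
  have z2' : ∀ x : S, (2 : ℤ) • x = 0 := fun x => by rw [two_zsmul, h2]
  have z4' : ∀ x : S, (4 : ℤ) • x = 0 := fun x => by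
    rw [show (4 : ℤ) = 2 * 2 from rfl, mul_zsmul, z2']
  -- `N (1 + z₁)`
  have e1 : N * (1 + ((N + e + M * e * N) * ((1 + R) * M * (1 + R)) +
      ((1 + R) * M * (1 + R)) * (N + e + M * e * N))) = (e * (R * M) + R * M * e) * N := by
    simp only [mul_add, add_mul, mul_one, one_mul, mul_assoc, NN, MM, NN', MM', Ne, Ne', ee, ee',
      eM, eM', NMN1, NMN', MNM1, MNM', NMe1, NMe', eNM1, eNM', NR, NR', RN, RN', RR, RR', Re, Re',
      RMN1, RMN', NMR1, NMR', mul_zero, zero_mul, add_zero, zero_add]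
    abel_nf
    simp only [h2', h4', z2', z4', add_zero, zero_add]
  have e2 : N * (((N + e + M * e * N) + ((1 + R) * M * (1 + R)) +
        (N + e + M * e * N) * ((1 + R) * M * (1 + R))) * (N * M)) = N * M + e := by
    simp only [mul_add, add_mul, mul_one, one_mul, mul_assoc, NN, MM, NN', MM', Ne, Ne', ee, ee',
      eM, eM', NMN1, NMN', MNM1, MNM', NMe1, NMe', eNM1, eNM', NR, NR', RN, RN', RR, RR', Re, Re',
      RMN1, RMN', NMR1, NMR', mul_zero, zero_mul, add_zero, zero_add]
    try abel_nf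
    try simp only [h2', h4', z2', z4', add_zero, zero_add]
  have e3 : (e * (R * M) + R * M * e) * (N * M + e) = 0 := by
    rw [← e2, ← mul_assoc, ← e1, mul_assoc, ← mul_assoc (1 + _), H, zero_mul, mul_zero]
  have e4 : (N * M + e) * (N * M + e) = N * M := by
    simp only [mul_add, add_mul, mul_one, one_mul, mul_assoc, NN, MM, NN', MM', Ne, Ne', ee, ee',
      eM, eM', NMN1, NMN', MNM1, MNM', NMe1, NMe', eNM1, eNM', mul_zero, zero_mul, add_zero,
      zero_add]
    rw [add_assoc, h2, add_zero]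
  have e5 : (e * (R * M) + R * M * e) * (N * M) = 0 := by
    rw [← e4, ← mul_assoc, e3, zero_mul]
  have e6 : (e * (R * M) + R * M * e) * (N * M) = e * (R * M) + R * M * e := by
    simp only [mul_add, add_mul, mul_one, one_mul, mul_assoc, NN, MM, NN', MM', Ne, Ne', ee, ee',
      eM, eM', NMN1, NMN', MNM1, MNM', NMe1, NMe', eNM1, eNM', NR, NR', RN, RN', RR, RR', Re, Re',
      RMN1, RMN', NMR1, NMR', mul_zero, zero_mul, add_zero, zero_add]
  rw [e6] at e5
  have h3 : R * M * e + R * M * e = 0 := h2 _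
  calc e * (R * M) = e * (R * M) + (R * M * e + R * M * e) := by rw [h3, add_zero]
    _ = (e * (R * M) + R * M * e) + R * M * e := by abel
    _ = R * M * e := by rw [e5, zero_add]

end RingPart

variable {K : Type*} [Field K] {V : Type*} [AddCommGroup V] [Module K V] [FiniteDimensional K V]

theorem eig [CharP K 2] {j : ℕ} {N M R : Module.End K V} (hN : N ∈ Sq K V j)
    (hM : M ∈ Sq K V j) (hI : Inv N M) (hR : U N R)
    (h : ∀ X ∈ Sq K V j, N * X = X * N → ((1 + X) * (1 + M)) ^ 3 = 1 →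
      ((1 + X) * (1 + (1 + R) * M * (1 + R))) ^ 3 = 1)
    {v : V} (hv : v ∈ range N) (f : V →ₗ[K] K) (hf : f v = 0) : f (R (M v)) • v = 0 := by
  have h2 : ∀ x : Module.End K V, x + x = 0 := fun x => by
    have h0 : (2 : K) = 0 := CharTwo.two_eq_zero
    rw [← two_smul K x, h0, zero_smul]
  have NN : N * N = 0 := hN.1
  have MM : M * M = 0 := hM.1
  have NMN : N * M * N = N := hI.1
  have MNM : M * N * M = M := hI.2
  have hid : ∀ w ∈ range N, N (M w) = w := by
    rintro _ ⟨x, rfl⟩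
    exact LinearMap.congr_fun NMN x
  have RMN : R * M * N = R := by
    ext x
    have h1 : x - M (N x) ∈ ker N := by
      rw [LinearMap.mem_ker, map_sub, sub_eq_zero]
      exact (LinearMap.congr_fun NMN x).symm
    have h3 : R (x - M (N x)) = 0 := hR.1 h1
    rw [map_sub, sub_eq_zero] at h3
    exact h3.symm
  have NMR : N * M * R = R := by
    ext x
    exact hid _ (hR.2 ⟨x, rfl⟩)
  have NR : N * R = 0 := by
    ext x
    exact range_le_ker hN (hR.2 ⟨x, rfl⟩)
  have RN : R * N = 0 := by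
    ext x
    exact hR.1 (sq_apply hN x)
  have RR : R * R = 0 := by
    ext x
    exact hR.1 (range_le_ker hN (hR.2 ⟨x, rfl⟩))
  obtain ⟨e, he⟩ : ∃ e : Module.End K V, ∀ x, e x = f (N (M x)) • v :=
    ⟨(LinearMap.toSpanSingleton K V v) ∘ₗ f ∘ₗ (N * M), fun x => rfl⟩
  have hNv : N v = 0 := range_le_ker hN hv
  have hRv : R v = 0 := hR.1 hNv
  have hPv : N (M v) = v := hid v hv
  have Ne : N * e = 0 := by
    ext x
    show N (e x) = 0
    rw [he, map_smul, hNv, smul_zero]
  have Re : R * e = 0 := by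
    ext x
    show R (e x) = 0
    rw [he, map_smul, hRv, smul_zero]
  have NMe : N * M * e = e := by
    ext x
    show N (M (e x)) = e x
    rw [he, map_smul, map_smul, hPv]
  have eNM : e * N * M = e := by
    ext x
    show e (N (M x)) = e x
    rw [he, he]
    congr 2
    exact LinearMap.congr_fun NMN (M x)
  have ee : e * e = 0 := by
    ext x
    show e (e x) = 0
    rw [he (e x), he x, map_smul, map_smul, hPv, map_smul, hf, smul_zero, zero_smul]
  have eM : e * M = 0 := by
    ext x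
    show e (M x) = 0
    have h3 : M (M x) = 0 := LinearMap.congr_fun MM x
    rw [he, h3, map_zero, map_zero, zero_smul]
  obtain ⟨a1, a2, a3, a4⟩ := ringA h2 NN MM NMN MNM Ne NMe eNM ee eM
  -- `X` is a conjugate of `N`
  have hX : N + e + M * e * N ∈ Sq K V j := by
    rw [← a2]
    constructor
    · calc (1 + M * e) * N * (1 + M * e) * ((1 + M * e) * N * (1 + M * e))
          = (1 + M * e) * N * ((1 + M * e) * (1 + M * e)) * N * (1 + M * e) := by noncomm_ring
        _ = (1 + M * e) * (N * N) * (1 + M * e) := by rw [a1]; noncomm_ring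
        _ = 0 := by rw [NN, mul_zero, zero_mul]
    · have hb : ∀ x, (1 + M * e) ((1 + M * e) x) = x := fun x => LinearMap.congr_fun a1 x
      let g : V ≃ₗ[K] V := LinearEquiv.ofInvolutive (1 + M * e) hb
      have h3 : range ((1 + M * e) * N * (1 + M * e)) = (range N).map (g : V →ₗ[K] V) := by
        ext y
        constructor
        · rintro ⟨x, rfl⟩
          exact ⟨N ((1 + M * e) x), ⟨_, rfl⟩, rfl⟩
        · rintro ⟨_, ⟨x, rfl⟩, rfl⟩
          refine ⟨(1 + M * e) x, ?_⟩
          show (1 + M * e) (N ((1 + M * e) ((1 + M * e) x))) = (1 + M * e) (N x)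
          rw [hb]
      rw [h3, LinearEquiv.finrank_map_eq]
      exact hN.2
  have hXX : (N + e + M * e * N) * (N + e + M * e * N) = 0 := hX.1
  have c1 : ((1 + (N + e + M * e * N)) * (1 + M)) ^ 3 = 1 := (three hXX MM).2 a4
  have c2 := h _ hX a3 c1
  have R1 : (1 + R) * (1 + R) = 1 := by
    have h3 : (1 + R) * (1 + R) = 1 + (R + R) + R * R := by noncomm_ring
    rw [h3, h2, RR, add_zero, add_zero]
  have M1 : ((1 + R) * M * (1 + R)) * ((1 + R) * M * (1 + R)) = 0 := by
    calc ((1 + R) * M * (1 + R)) * ((1 + R) * M * (1 + R))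
        = (1 + R) * M * ((1 + R) * (1 + R)) * M * (1 + R) := by noncomm_ring
      _ = (1 + R) * (M * M) * (1 + R) := by rw [R1]; noncomm_ring
      _ = 0 := by rw [MM, mul_zero, zero_mul]
  have c3 := (three hXX M1).1 c2
  have c4 := ringB h2 NN MM NMN MNM RMN NMR NR RN RR Ne Re NMe eNM ee eM c3
  have c5 : e (R (M v)) = R (M (e v)) := LinearMap.congr_fun c4 v
  rw [he, he, hPv, hf, zero_smul, map_zero, map_zero] at c5
  rwa [hid _ (hR.2 ⟨M v, rfl⟩)] at c5

end Pool.Agent.Helper2.EV
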