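import Pool.Agent.Helper2.EV.Defs

/-!
# Block EV-F1: elements opposite to `N`, step 4, relations

Let `M₁ = (1 + R) M (1 + R)`. `L` has the kernel and the image of `M`,
and `Inv N L`. Relations: `L M = M L = 0` (`mul_of_range`), `M = L N M` (`L N` is the identity on `range L = range M`), `M = M N L`
(`x - N L x` is in `ker L = ker M`), `R = R L N`, `N L R = R`, `N R = R N = 0`.
`rel`: `M₁ L = L M₁` by `hc`, that is `M R L + R M R L = L R M + L R M R`. Multiply by `N` on the left: `N M R L = R M + R M R`; then
by `N` on the right: `N M R = R M N`. So `N M R L = R M N L = R M`, and `R M R = 0`.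
-/

set_option autoImplicit false

open LinearMap

namespace Pool.Agent.Helper2.EV

variable {K : Type*} [Field K] {V : Type*} [AddCommGroup V] [Module K V] [FiniteDimensional K V]

theorem rel [CharP K 2] {j : ℕ} {N M R L : Module.End K V} (hN : N ∈ Sq K V j)
    (hM : M ∈ Sq K V j) (hR : U N R) (hL : L ∈ Sq K V j)
    (hk : ker L = ker M) (hr : range L = range M) (hI : Inv N L)
    (hc : ((1 + R) * M * (1 + R)) * L = L * ((1 + R) * M * (1 + R))) :
    N * M * R = R * M * N ∧ R * M * R = 0 := by
  have hML := mul_of_range hM hL hr
  have hNR : N * R = 0 := by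
    ext x
    exact range_le_ker hN (hR.2 ⟨x, rfl⟩)
  have hRN : R * N = 0 := by
    ext x
    exact hR.1 (sq_apply hN x)
  have hNLR : N * L * R = R := by
    ext x
    obtain ⟨y, hy⟩ := hR.2 ⟨x, rfl⟩
    change N (L (R x)) = R x
    rw [← hy]
    exact LinearMap.congr_fun hI.1 y
  have hRLN : R * L * N = R := by
    ext x
    have h1 : L (N x) - x ∈ ker N := by
      rw [LinearMap.mem_ker, map_sub, sub_eq_zero]
      exact LinearMap.congr_fun hI.1 x
    have h2 : R (L (N x) - x) = 0 := hR.1 h1
    rw [map_sub, sub_eq_zero] at h2
    exact h2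
  have hMNL : M * N * L = M := by
    ext x
    have h1 : N (L x) - x ∈ ker L := by
      rw [LinearMap.mem_ker, map_sub, sub_eq_zero]
      exact LinearMap.congr_fun hI.2 x
    have h2 : M (N (L x) - x) = 0 := by
      rw [hk] at h1
      exact h1
    rw [map_sub, sub_eq_zero] at h2
    exact h2
  -- the relation without `M * L` and `L * M`
  have e1 : M * R * L + R * M * R * L = L * R * M + L * R * M * R := by
    have h1 : ((1 + R) * M * (1 + R)) * L =
        M * L + R * (M * L) + (M * R * L + R * M * R * L) := by noncomm_ring
    have h2 : L * ((1 + R) * M * (1 + R)) =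
        L * M + L * M * R + (L * R * M + L * R * M * R) := by noncomm_ring
    rw [h1, h2, hML.1, hML.2, mul_zero, zero_mul, add_zero, zero_add, zero_add] at hc
    exact hc
  have e2 : N * M * R * L = R * M + R * M * R := by
    have h1 := congrArg (fun A => N * A) e1
    have h2 : N * (M * R * L + R * M * R * L) = N * M * R * L + N * R * (M * R * L) := by
      noncomm_ring
    have h3 : N * (L * R * M + L * R * M * R) = N * L * R * M + N * L * R * (M * R) := by
      noncomm_ring
    rw [h2, h3, hNR, hNLR, zero_mul, add_zero] at h1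
    rw [h1, mul_assoc R M R]
  have e3 : N * M * R = R * M * N := by
    have h1 := congrArg (fun A => A * N) e2
    have h2 : N * M * R * L * N = N * M * (R * L * N) := by noncomm_ring
    have h3 : (R * M + R * M * R) * N = R * M * N + R * M * (R * N) := by noncomm_ring
    rw [h2, h3, hRLN, hRN, mul_zero, add_zero] at h1
    exact h1
  refine ⟨e3, ?_⟩
  rw [e3] at e2
  have h4 : R * M * N * L = R * (M * N * L) := by noncomm_ring
  rw [h4, hMNL] at e2
  exact (left_eq_add.1 e2)


end Pool.Agent.Helper2.EV
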