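import Pool.Agent.Helper2.EV.Jordan
import Pool.Agent.Helper2.EV.Centr

/-!
# Block EV-P4: `SL(n, K)` is transitive on the square zero matrices of rank `j`

`exists_conj` for `toLinAlgEquiv' X`, `toLinAlgEquiv' Y` (`toLin_mem`) gives an invertible matrix `P` with `P X = Y P`. Let `p = det P ≠ 0`
and `p⁻¹ = t²` (`K` is finite of characteristic two: `FiniteField.isSquare_of_char_two`), `C` from `exists_centr`, `A = P C`:
`det A = 1`, `A X = P C X = P X C = Y P C = Y A`.
-/

set_option autoImplicit false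

open Matrix

namespace Pool.Agent.Helper2.EV

variable {K : Type*} [Field K] {ι : Type*} [Fintype ι] [DecidableEq ι]

theorem trans [Finite K] [CharP K 2] {j : ℕ} (hj : 1 ≤ j) {X Y : Matrix ι ι K} (hX : X ∈ MSq j)
    (hY : Y ∈ MSq j) : ∃ A : SpecialLinearGroup ι K,
      (A : Matrix ι ι K) * X * ((A⁻¹ : SpecialLinearGroup ι K) : Matrix ι ι K) = Y := by
  obtain ⟨P, hP⟩ := exists_conj ((toLin_mem X).2 hX) ((toLin_mem Y).2 hY)
  let e : (ι → K) →ₗ[K] (ι → K) := (P : (ι → K) →ₗ[K] (ι → K))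
  let Q : Matrix ι ι K := LinearMap.toMatrix' e
  have hQ : Q * X = Y * Q := by
    have h1 : e ∘ₗ Matrix.toLin' X = Matrix.toLin' Y ∘ₗ e := by
      refine LinearMap.ext fun v => ?_
      exact hP v
    have h2 := congrArg LinearMap.toMatrix' h1
    rw [LinearMap.toMatrix'_comp, LinearMap.toMatrix'_comp, LinearMap.toMatrix'_toLin',
      LinearMap.toMatrix'_toLin'] at h2
    exact h2
  have hdet : det Q ≠ 0 := by
    have h1 : IsUnit (LinearMap.det e) := LinearEquiv.isUnit_det' P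
    have h2 : LinearMap.det e = det Q := (LinearMap.det_toMatrix' e).symm
    rw [h2] at h1
    exact h1.ne_zero
  obtain ⟨t, ht⟩ : ∃ t : K, t ^ 2 = (det Q)⁻¹ := by
    obtain ⟨t, ht⟩ := FiniteField.isSquare_of_char_two (F := K) (ringChar.eq K 2) (det Q)⁻¹
    exact ⟨t, by rw [ht, sq]⟩
  obtain ⟨C, hC, hCd⟩ := exists_centr hj hX t
  have hd : det (Q * C) = 1 := by
    rw [det_mul, hCd, ht, mul_inv_cancel₀ hdet]
  refine ⟨⟨Q * C, hd⟩, ?_⟩
  let A : SpecialLinearGroup ι K := ⟨Q * C, hd⟩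
  have hA : (A : Matrix ι ι K) * ((A⁻¹ : SpecialLinearGroup ι K) : Matrix ι ι K) = 1 :=
    congrArg Subtype.val (mul_inv_cancel A)
  have h3 : (A : Matrix ι ι K) * X = Y * (A : Matrix ι ι K) := by
    change Q * C * X = Y * (Q * C)
    rw [mul_assoc, hC, ← mul_assoc, hQ, mul_assoc]
  change (A : Matrix ι ι K) * X * ((A⁻¹ : SpecialLinearGroup ι K) : Matrix ι ι K) = Y
  rw [h3, mul_assoc, hA, mul_one]

end Pool.Agent.Helper2.EV
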